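import Pool.Agent.Helper884_Full.Select

/-!
# Choosing the scales: the instance
-/

set_option autoImplicit false
set_option linter.unusedSectionVars false

namespace Pool.Agent.Helper884_Full

open Finset
open Pool.Agent.Helper884_MultiScale (IsCh)

/-- Thresholds. -/
noncomputable def thr (C1 C2 Qm s q : ℕ) : ℝ := (2 : ℝ) ^ (q * C2) / 2 ^ (s + C1 + Qm * C2)

lemma thr_pos (C1 C2 Qm s q : ℕ) : 0 < thr C1 C2 Qm s q := by unfold thr; positivity

lemma thr_ratio (C1 C2 Qm s : ℕ) {q q' : ℕ} (h : q < q') :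
    thr C1 C2 Qm s q / thr C1 C2 Qm s q' ≤ 1 / 2 ^ C2 := by
  unfold thr
  have h1 : (2 : ℝ) ^ (q * C2) / 2 ^ (s + C1 + Qm * C2) / ((2 : ℝ) ^ (q' * C2) / 2 ^ (s + C1 + Qm * C2))
      = 2 ^ (q * C2) / 2 ^ (q' * C2) := by
    field_simp
  rw [h1, div_le_div_iff₀ (by positivity) (by positivity), one_mul, ← pow_add]
  apply pow_le_pow_right₀ (by norm_num)
  have h2 : (q + 1) * C2 ≤ q' * C2 := Nat.mul_le_mul_right _ h
  have h3 : (q + 1) * C2 = q * C2 + C2 := by ring
  omega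

lemma thr_le (C1 C2 Qm s : ℕ) {q : ℕ} (h : q ≤ Qm) :
    thr C1 C2 Qm s q * 2 ^ s ≤ 1 / 2 ^ C1 := by
  unfold thr
  rw [div_mul_eq_mul_div, div_le_div_iff₀ (by positivity) (by positivity), one_mul,
    ← pow_add, ← pow_add]
  apply pow_le_pow_right₀ (by norm_num)
  have h2 : q * C2 ≤ Qm * C2 := Nat.mul_le_mul_right _ h
  omega

lemma thr_inv_le (C1 C2 Qm s q : ℕ) :
    1 / thr C1 C2 Qm s q ≤ 2 ^ (s + C1 + Qm * C2) := by
  unfold thr
  rw [one_div_div]
  apply div_le_self (by positivity)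
  exact one_le_pow₀ (by norm_num)

lemma LL_ge {g : ℕ} (hg : 0 < g) (m : ℕ) : m ≤ LL g m := by
  induction m with
  | zero => exact Nat.zero_le _
  | succ m ih =>
    simp only [LL]
    have : 1 * (LL g m + 1) ≤ g * (LL g m + 1) := Nat.mul_le_mul_right _ hg
    omega

variable {V : Type*} [Fintype V] [DecidableEq V] {n : ℕ}
variable {S : Finset (ℕ → Finset V)} {le : ℕ → ℕ → Bool}

theorem choose_scales {F : Finset (Finset V)} {K : ℕ} {u w : Finset V}
    (hS : Closed S) (hch : ∀ v ∈ S, IsCh F (2 ^ K) u w v)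
    {p : ℕ → ℕ} (hp : ∀ v ∈ S, ∀ i, (v i).card = p i)
    (κ : ℕ → ℕ) (hκ : Monotone κ) (hκ0 : κ 0 = 0)
    (hle : ∀ a b, le a b → a ≤ b) {g : ℕ} (hg : 0 < g) (C1 C2 Qm : ℕ) :
    ∃ σ : ℕ → ℕ, σ 0 = 0 ∧ StrictMono σ ∧ σ (n + 1) ≤ 1 + LL g n ∧
      ∀ k : Fin n, ∀ j < n, ∑ i ∈ range (2 ^ K),
        (caught n S le i (tm (fun m => κ (σ m)) i) k j (thr C1 C2 Qm (κ (σ j)) (σ (j + 1)))
          (tm (fun m => κ (σ m)) i (j + 1))
        - caught n S le i (tm (fun m => κ (σ m)) i) k j (thr C1 C2 Qm (κ (σ j)) (σ (n + 1)))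
          (tm (fun m => κ (σ m)) i (n + 1)))
        ≤ (n / g + 2 * n / 2 ^ C2) * ((w \ u).card * S.card) := by
  rcases S.eq_empty_or_nonempty with rfl | ⟨v₀, hv₀⟩
  · refine ⟨id, rfl, strictMono_id, ?_, ?_⟩
    · have := LL_ge hg n
      simp only [id]
      omega
    · intro k j hj; simp [caught]
  have hmono : ∀ v ∈ S, Monotone v := fun v hv => (hch v hv).1
  set N : ℝ := ((w \ u).card : ℝ) with hN
  have hN0 : 0 ≤ N := Nat.cast_nonneg _
  have hSc : (0 : ℝ) ≤ S.card := Nat.cast_nonneg _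
  have hpm := p_mono (hch v₀ hv₀) (hp v₀ hv₀)
  have hpt := p_total (hch v₀ hv₀) (hp v₀ hv₀)
  let d : ℕ → ℝ := fun i => (p (i + 1) : ℝ) - p i
  have hd0 : ∀ i, 0 ≤ d i := by
    intro i
    have : (p i : ℝ) ≤ p (i + 1) := hpm (by omega)
    simp only [d]; linarith
  have hdsum : ∑ i ∈ range (2 ^ K), d i = N := by
    simp only [d]
    rw [Finset.sum_range_sub (fun i => (p i : ℝ)), hpt]
  have hd : ∀ σ : ℕ → ℕ, σ 0 = 0 → ∀ i, ∀ v ∈ S,
      ((v (tm (fun m => κ (σ m)) i 0) \ v i).card : ℝ) ≤ d i := by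
    intro σ hσ0 i v hv
    have h3 : tm (fun m => κ (σ m)) i 0 = i + 1 := by simp [tm, hσ0, hκ0]
    rw [h3, card_diff (hch v hv) (hp v hv) (by omega)]
  let Φ : ℕ → (ℕ → ℕ) → ℕ → ℝ := fun j σ q => ∑ k : Fin n, ∑ i ∈ range (2 ^ K),
    caught n S le i (tm (fun m => κ (σ m)) i) k j (thr C1 C2 Qm (κ (σ j)) q) (be (κ q) i)
  have hdeck : ∀ (k : Fin n) j σ q q', StrictMono σ → σ 0 = 0 → σ j < q → q < q' →
      ∑ i ∈ range (2 ^ K), caught n S le i (tm (fun m => κ (σ m)) i) k j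
        (thr C1 C2 Qm (κ (σ j)) q') (be (κ q') i)
      ≤ ∑ i ∈ range (2 ^ K), caught n S le i (tm (fun m => κ (σ m)) i) k j
        (thr C1 C2 Qm (κ (σ j)) q) (be (κ q) i) + 1 / 2 ^ C2 * (N * S.card) := by
    intro k j σ q q' hσ hσ0 hq hqq
    have hms : Monotone (fun m => κ (σ m)) := hκ.comp hσ.monotone
    calc _ ≤ ∑ i ∈ range (2 ^ K), (caught n S le i (tm (fun m => κ (σ m)) i) k j
          (thr C1 C2 Qm (κ (σ j)) q) (be (κ q) i) + 1 / 2 ^ C2 * d i * S.card) := by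
          apply sum_le_sum
          intro i _
          have h3 := caught_dec (le := le) hS hmono (tm_mono hms i) (le_tm _ i 0) hle k (j := j)
            (T := be (κ q) i) (T' := be (κ q') i) (be_mono (hκ hq.le) i) (be_mono (hκ hqq.le) i)
            (thr_pos C1 C2 Qm (κ (σ j)) q) (thr_pos C1 C2 Qm (κ (σ j)) q') (hd σ hσ0 i)
          refine h3.trans ?_
          have h4 : thr C1 C2 Qm (κ (σ j)) q / thr C1 C2 Qm (κ (σ j)) q' * d i * S.card
              ≤ 1 / 2 ^ C2 * d i * S.card := by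
            apply mul_le_mul_of_nonneg_right _ hSc
            exact mul_le_mul_of_nonneg_right (thr_ratio C1 C2 Qm _ hqq) (hd0 i)
          linarith
      _ = _ := by
          rw [Finset.sum_add_distrib, ← hdsum, Finset.sum_mul, Finset.mul_sum]
          congr 1
          apply Finset.sum_congr rfl
          intro i _
          ring
  obtain ⟨σ, hσ0, hσ, hσn, hsel⟩ := select n g hg (n * (N * S.card))
    (n * (1 / 2 ^ C2 * (N * S.card))) (by positivity) Φ
    (by
      intro j σ σ' q h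
      simp only [Φ]
      apply Finset.sum_congr rfl
      intro k _
      apply Finset.sum_congr rfl
      intro i _
      rw [h j le_rfl]
      apply caught_congr
      intro m hm
      simp only [tm]
      rw [h m hm])
    (by
      intro j σ q hσ hσ0 _
      have hms : Monotone (fun m => κ (σ m)) := hκ.comp hσ.monotone
      refine ⟨sum_nonneg (fun _ _ => sum_nonneg (fun _ _ => caught_nonneg _ _ _ _)), ?_⟩
      calc _ ≤ ∑ k : Fin n, ∑ i ∈ range (2 ^ K), d i * S.card := by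
            apply sum_le_sum
            intro k _
            apply sum_le_sum
            intro i _
            exact caught_le hmono (tm_mono hms i) hle k j _ _ (hd σ hσ0 i)
        _ = n * (N * S.card) := by
            rw [← Finset.sum_mul, hdsum]; simp)
    (by
      intro j σ q q' hσ hσ0 hq hqq
      simp only [Φ]
      calc _ ≤ ∑ k : Fin n, (∑ i ∈ range (2 ^ K), caught n S le i (tm (fun m => κ (σ m)) i) k j
        (thr C1 C2 Qm (κ (σ j)) q) (be (κ q) i) + 1 / 2 ^ C2 * (N * S.card)) :=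
            sum_le_sum (fun k _ => hdeck k j σ q q' hσ hσ0 hq hqq)
        _ = _ := by
            rw [Finset.sum_add_distrib]
            simp)
  refine ⟨σ, hσ0, hσ, hσn, ?_⟩
  intro k j hj
  have h1 := hsel j hj
  have hq1 : σ j < σ (j + 1) := hσ (by omega)
  have hq2 : σ (j + 1) < σ (n + 1) := hσ (by omega)
  rw [Finset.sum_sub_distrib]
  simp only [Φ] at h1
  rw [← Finset.sum_sub_distrib] at h1
  -- all other differences are almost nonnegative
  have h2 : ∀ k' : Fin n, -(1 / 2 ^ C2 * (N * S.card)) ≤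
      (∑ i ∈ range (2 ^ K), caught n S le i (tm (fun m => κ (σ m)) i) k' j
        (thr C1 C2 Qm (κ (σ j)) (σ (j + 1))) (be (κ (σ (j + 1))) i) -
      ∑ i ∈ range (2 ^ K), caught n S le i (tm (fun m => κ (σ m)) i) k' j
        (thr C1 C2 Qm (κ (σ j)) (σ (n + 1))) (be (κ (σ (n + 1))) i)) := by
    intro k'
    have := hdeck k' j σ _ _ hσ hσ0 hq1 hq2
    linarith
  rw [← Finset.add_sum_erase univ _ (mem_univ k)] at h1
  have h3 : -(n * (1 / 2 ^ C2 * (N * S.card))) ≤ ∑ k' ∈ univ.erase k,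
      (∑ i ∈ range (2 ^ K), caught n S le i (tm (fun m => κ (σ m)) i) k' j
        (thr C1 C2 Qm (κ (σ j)) (σ (j + 1))) (be (κ (σ (j + 1))) i) -
      ∑ i ∈ range (2 ^ K), caught n S le i (tm (fun m => κ (σ m)) i) k' j
        (thr C1 C2 Qm (κ (σ j)) (σ (n + 1))) (be (κ (σ (n + 1))) i)) := by
    calc -(n * (1 / 2 ^ C2 * (N * S.card))) ≤ ∑ k' ∈ univ.erase k, -(1 / 2 ^ C2 * (N * S.card)) := by
          rw [sum_const, nsmul_eq_mul, mul_neg]
          apply neg_le_neg
          apply mul_le_mul_of_nonneg_right _ (by positivity)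
          rw [card_erase_of_mem (mem_univ k), card_univ, Fintype.card_fin]
          exact_mod_cast Nat.sub_le n 1
      _ ≤ _ := sum_le_sum (fun k' _ => h2 k')
  have h4 : n * (N * S.card) / g + n * (1 / 2 ^ C2 * (N * S.card))
      + n * (1 / 2 ^ C2 * (N * S.card)) = (n / g + 2 * n / 2 ^ C2) * (N * S.card) := by ring
  have h5 : ∀ a b c X Y : ℝ, a + b ≤ X → -Y ≤ b → X + Y = c → a ≤ c := by
    intro a b c X Y h6 h7 h8; linarith
  exact h5 _ _ _ _ _ h1 h3 h4

end Pool.Agent.Helper884_Full
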