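import Pool.Agent.Helper884_Full.Local

/-!
# Combining the inequalities at one time
-/

set_option autoImplicit false
set_option linter.unusedSectionVars false

namespace Pool.Agent.Helper884_Full

open Finset

variable {V : Type*} [Fintype V] [DecidableEq V] {n : ℕ}
variable {S : Finset (ℕ → Finset V)} {le : ℕ → ℕ → Bool} {i : ℕ} {e : ℕ → ℕ}

/-- There is no copy of the poset given by `le` on the first `n` numbers. -/
def NoCopy (n : ℕ) (le : ℕ → ℕ → Bool) (F : Finset (Finset V)) : Prop :=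
  ¬ ∃ b : Fin n → Finset V, (∀ l, b l ∈ F) ∧ ∀ l l' : Fin n, b l ⊆ b l' ↔ le l l'

open Classical in
/-- The initial zone. -/
noncomputable def Z0 (S : Finset (ℕ → Finset V)) (i a T : ℕ) (ϑ : ℝ) (p y : Finset V) : Finset V :=
  univ.filter (fun x => x ∉ p ∧ ϑ ≤ ex (Q S i a T p y) (fun z => ind (x ∈ z)))

lemma Zn_zero (k : Fin n) (ϑ : ℝ) (T : ℕ) (p y : Finset V) (c : Cf n V) :
    Zn n S le i e k 0 ϑ T p y (DD le k 0 c) = Z0 S i (e 0) T ϑ p y := by
  ext x
  rw [Zn, mem_zn, hz, gg, DD, cnd_cst, LT, ex_bnd]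
  simp [Z0, ker]

lemma Z0_card {a T : ℕ} {d : ℝ}
    (hd : ∀ v ∈ S, ((v a \ v i).card : ℝ) ≤ d) {v : ℕ → Finset V} (hv : v ∈ S) (ϑ : ℝ) :
    ϑ * (Z0 S i a T ϑ (v i) (v T)).card ≤ d := by
  have h1 : ∀ x ∈ Z0 S i a T ϑ (v i) (v T), x ∉ v i ∧
      ϑ ≤ ex (Q S i a T (v i) (v T)) (fun z => ind (x ∈ z)) := by
    intro x hx
    simpa [Z0] using hx
  calc ϑ * (Z0 S i a T ϑ (v i) (v T)).card = ∑ x ∈ Z0 S i a T ϑ (v i) (v T), ϑ := by
        simp [mul_comm]
    _ ≤ ∑ x ∈ Z0 S i a T ϑ (v i) (v T), ex (Q S i a T (v i) (v T)) (fun z => ind (x ∈ z)) :=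
        sum_le_sum (fun x hx => (h1 x hx).2)
    _ = ex (Q S i a T (v i) (v T)) (fun z => ∑ x ∈ Z0 S i a T ϑ (v i) (v T), ind (x ∈ z)) := by
        rw [ex_sum]
    _ ≤ d := by
        apply ex_le_const
        intro z hz
        obtain ⟨v', hv', h2, h3, h4⟩ := Q_supp ⟨v, hv, rfl, rfl⟩ hz
        have h5 := hd v' hv'
        rw [h2, h4, card_eq_sum_ind] at h5
        refine le_trans ?_ h5
        calc ∑ x ∈ Z0 S i a T ϑ (v i) (v T), ind (x ∈ z)
            ≤ ∑ x ∈ Z0 S i a T ϑ (v i) (v T), ind (x ∈ z \ v i) := by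
              apply sum_le_sum
              intro x hx
              apply ind_mono
              intro h
              exact mem_sdiff.2 ⟨h, (h1 x hx).1⟩
          _ ≤ ∑ x, ind (x ∈ z \ v i) :=
              Finset.sum_le_univ_sum_of_nonneg (fun x => ind_nonneg _)

/-- The expected number of good elements in an atom. -/
noncomputable def gdE (S : Finset (ℕ → Finset V)) (i : ℕ) (e : ℕ → ℕ)
    (Gd : (ℕ → Finset V) → V → Prop) (v : ℕ → Finset V) : ℝ :=
  ex (Q S i (e 0) (e 1) (v i) (v (e 1))) (fun a => ∑ x, ind (x ∈ a ∧ x ∉ v i ∧ Gd v x))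

/-- The total error at one time. -/
noncomputable def Err (n : ℕ) (S : Finset (ℕ → Finset V)) (le : ℕ → ℕ → Bool) (i : ℕ)
    (e : ℕ → ℕ) (ϑ ϑw : ℕ → ℝ) (nc : ℕ → Fin n → (ℕ → Finset V) → V → Prop) : ℝ :=
  ∑ k : Fin n, ((∑ j ∈ range n, ∑ v ∈ S, ex (KK n S le i e n v)
      (fun c => ∑ x, ind (stE n S le i e ϑ ϑw k j v c x))) +
    (∑ l ∈ range n, ∑ v ∈ S, ex (KK n S le i e n v)
      (fun c => ∑ x, ind (pE n S le i e ϑ ϑw nc k l v c x))) +
    ∑ l : Fin n, (if le k l then 0 else ∑ v ∈ S, ex (KK n S le i e n v)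
      (fun c => ∑ x, ind (fE n S le i e ϑ k l v c x))))

section comb

variable (hS : Closed S) (hmono : ∀ v ∈ S, Monotone v) (he : Monotone e) (hi : i ≤ e 0)
  (hle : ∀ a b, le a b → a ≤ b)

include hS hi he in
lemma sum_gdE (Gd : (ℕ → Finset V) → V → Prop) (hGd : Dep i (e 1) Gd) :
    ∑ v ∈ S, gdE S i e Gd v = ∑ v ∈ S, ∑ x, ind (x ∈ v (e 0) ∧ x ∉ v i ∧ Gd v x) := by
  rw [markov hS (i := i) (a := e 0) (b := e 1) hi (he (by omega))
    (fun v a => ∑ x, ind (x ∈ a ∧ x ∉ v i ∧ Gd v x)) (by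
      intro v v' hv
      simp only
      rw [hv i (Or.inl le_rfl), hGd v v' hv])]
  rfl

/-- The pointwise union bound. -/
lemma union_bound {ϑ ϑw : ℕ → ℝ} (hϑn : ϑw n = ϑ n)
    {nc : ℕ → Fin n → (ℕ → Finset V) → V → Prop} {Gd : (ℕ → Finset V) → V → Prop}
    (hG0 : ∀ v x, Gd v x → x ∉ Z0 S i (e 0) (e (n + 1)) (ϑw 0) (v i) (v (e (n + 1))))
    (hG1 : ∀ v x, Gd v x → ∀ l < n, ∀ k, nc l k v x)
    (v : ℕ → Finset V) (c : Cf n V) (x : V) (k l0 : Fin n) (hkl : ¬ le k l0)
    (h1 : x ∈ c.1 k) (h2 : x ∉ v i) (h3 : Gd v x) (h4 : x ∈ c.2 l0) :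
    1 ≤ (∑ j ∈ range n, ind (stE n S le i e ϑ ϑw k j v c x)) +
      (∑ l ∈ range n, ind (pE n S le i e ϑ ϑw nc k l v c x)) +
      ∑ l : Fin n, (if le k l then 0 else ind (fE n S le i e ϑ k l v c x)) := by
  have n1 : 0 ≤ ∑ j ∈ range n, ind (stE n S le i e ϑ ϑw k j v c x) :=
    sum_nonneg (fun _ _ => ind_nonneg _)
  have n2 : 0 ≤ ∑ l ∈ range n, ind (pE n S le i e ϑ ϑw nc k l v c x) :=
    sum_nonneg (fun _ _ => ind_nonneg _)
  have n3' : ∀ l : Fin n, 0 ≤ (if le k l then 0 else ind (fE n S le i e ϑ k l v c x)) := by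
    intro l
    split_ifs
    · exact le_rfl
    · exact ind_nonneg _
  have n3 : 0 ≤ ∑ l : Fin n, (if le k l then 0 else ind (fE n S le i e ϑ k l v c x)) :=
    sum_nonneg (fun l _ => n3' l)
  by_cases hst : ∃ j ∈ range n, stE n S le i e ϑ ϑw k j v c x
  · obtain ⟨j, hj, hjE⟩ := hst
    have := Finset.single_le_sum (f := fun j => ind (stE n S le i e ϑ ϑw k j v c x))
      (fun _ _ => ind_nonneg _) hj
    simp only [ind_true hjE] at this
    linarith
  by_cases hp : ∃ l ∈ range n, pE n S le i e ϑ ϑw nc k l v c x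
  · obtain ⟨j, hj, hjE⟩ := hp
    have := Finset.single_le_sum (f := fun j => ind (pE n S le i e ϑ ϑw nc k j v c x))
      (fun _ _ => ind_nonneg _) hj
    simp only [ind_true hjE] at this
    linarith
  push Not at hst hp
  have key : ∀ j ≤ n, x ∉ Zn n S le i e k j (ϑw j) (e (n + 1)) (v i) (v (e (n + 1)))
      (DD le k j c) := by
    intro j
    induction j with
    | zero =>
      intro _
      rw [Zn_zero]
      exact hG0 v x h3
    | succ j ih =>
      intro hj
      have h5 := ih (by omega)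
      have h6 : x ∉ Zn n S le i e k j (ϑ j) (e (j + 1)) (v i) (v (e (j + 1))) (DD le k j c) := by
        intro h7
        exact hst j (mem_range.2 (by omega)) ⟨h1, h7, h5⟩
      intro h7
      exact hp j (mem_range.2 (by omega)) ⟨h1, hG1 v x h3 j (by omega) k, h6, h7⟩
  have hl0 := l0.2
  have h8 : x ∉ Zn n S le i e k (l0 + 1) (ϑ (l0 + 1)) (e (l0 + 2)) (v i) (v (e (l0 + 2)))
      (DD le k (l0 + 1) c) := by
    intro h9
    rcases Nat.lt_or_ge ((l0 : ℕ) + 1) n with hlt | hge
    · exact hst (l0 + 1) (mem_range.2 hlt) ⟨h1, h9, key (l0 + 1) (by omega)⟩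
    · have heq : (l0 : ℕ) + 1 = n := by omega
      apply key (l0 + 1) (by omega)
      have h10 : e ((l0 : ℕ) + 2) = e (n + 1) := by congr 1; omega
      rw [h10] at h9
      have h11 : ϑw ((l0 : ℕ) + 1) = ϑ ((l0 : ℕ) + 1) := by rw [heq, hϑn]
      rw [h11]
      exact h9
  have h12 : fE n S le i e ϑ k l0 v c x := ⟨h1, h2, h4, h8⟩
  have := Finset.single_le_sum
    (f := fun l : Fin n => (if le k l then 0 else ind (fE n S le i e ϑ k l v c x)))
    (fun l _ => n3' l) (mem_univ l0)
  simp only [hkl, ind_true h12] at this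
  simp only [Bool.false_eq_true, if_false] at this
  linarith

include hmono he hle in
/-- The main inequality at one time. -/
theorem local_main (hrefl : ∀ a, le a a)
    {F : Finset (Finset V)} (hF : ∀ v ∈ S, ∀ j, v j ∈ F) (hfree : NoCopy n le F)
    {ϑ ϑw : ℕ → ℝ} (hϑn : ϑw n = ϑ n)
    {nc : ℕ → Fin n → (ℕ → Finset V) → V → Prop} {Gd : (ℕ → Finset V) → V → Prop}
    (hG0 : ∀ v x, Gd v x → x ∉ Z0 S i (e 0) (e (n + 1)) (ϑw 0) (v i) (v (e (n + 1))))
    (hG1 : ∀ v x, Gd v x → ∀ l < n, ∀ k, nc l k v x) {d : ℝ}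
    (hd : ∀ v ∈ S, ((v (e 0) \ v i).card : ℝ) ≤ d) (hd0 : 0 ≤ d) :
    ∑ v ∈ S, (gdE S i e Gd v) ^ n ≤ d ^ (n - 1) * Err n S le i e ϑ ϑw nc := by
  let X : Fin n → (ℕ → Finset V) → Cf n V → ℝ := fun k v c =>
    ∑ x, ind (x ∈ c.1 k ∧ x ∉ v i ∧ Gd v x)
  let U : Fin n → (ℕ → Finset V) → Cf n V → ℝ := fun k v c =>
    ∑ x, ((∑ j ∈ range n, ind (stE n S le i e ϑ ϑw k j v c x)) +
      (∑ l ∈ range n, ind (pE n S le i e ϑ ϑw nc k l v c x)) +
      ∑ l : Fin n, (if le k l then 0 else ind (fE n S le i e ϑ k l v c x)))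
  have hU0 : ∀ k v c, 0 ≤ U k v c := by
    intro k v c
    apply sum_nonneg
    intro x _
    have n1 : 0 ≤ ∑ j ∈ range n, ind (stE n S le i e ϑ ϑw k j v c x) :=
      sum_nonneg (fun _ _ => ind_nonneg _)
    have n2 : 0 ≤ ∑ l ∈ range n, ind (pE n S le i e ϑ ϑw nc k l v c x) :=
      sum_nonneg (fun _ _ => ind_nonneg _)
    have n3 : 0 ≤ ∑ l : Fin n, (if le k l then 0 else ind (fE n S le i e ϑ k l v c x)) := by
      apply sum_nonneg
      intro l _
      split_ifs
      · exact le_rfl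
      · exact ind_nonneg _
    linarith
  have hX0 : ∀ k v c, 0 ≤ X k v c := fun k v c => sum_nonneg (fun x _ => ind_nonneg _)
  -- the product formula
  have h1 : ∀ v, (gdE S i e Gd v) ^ n = ex (KK n S le i e n v) (fun c => ∏ k, X k v c) := by
    intro v
    have h2 := KK_atoms (S := S) (le := le) (i := i) (e := e) (n := n) n v
      (fun a => ∏ k, ∑ x, ind (x ∈ a k ∧ x ∉ v i ∧ Gd v x))
    have h3 := ex_iid_prod (n := n) (Q S i (e 0) (e 1) (v i) (v (e 1)))
      (fun a => ∑ x, ind (x ∈ a ∧ x ∉ v i ∧ Gd v x))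
    rw [h3] at h2
    exact h2.symm
  -- the pointwise bound
  have h2 : ∀ v ∈ S, ∀ c, (KK n S le i e n v).w c ≠ 0 →
      ∏ k, X k v c ≤ d ^ (n - 1) * ∑ k, U k v c := by
    intro v hv c hc
    have hspt := Lam_supp hmono he hle n _ _ c ⟨v, hv, rfl, rfl⟩ (KK_supp n hv c hc)
    have hXd : ∀ k, X k v c ≤ d := by
      intro k
      obtain ⟨⟨v', hv', h4, h5⟩, -⟩ := hspt.1 k
      have h6 := hd v' hv'
      rw [h4, h5, card_eq_sum_ind] at h6
      refine le_trans (sum_le_sum (fun x _ => ind_mono ?_)) h6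
      intro h
      exact mem_sdiff.2 ⟨h.1, h.2.1⟩
    have hex : ∃ k l : Fin n, ¬ le k l ∧ c.1 k ⊆ c.2 l := by
      by_contra hno
      push Not at hno
      apply hfree
      refine ⟨c.2, ?_, ?_⟩
      · intro l
        obtain ⟨⟨v', hv', -, h5⟩, -⟩ := hspt.2 l l.2
        rw [← h5]; exact hF v' hv' _
      · intro l l'
        constructor
        · intro hsub
          by_contra hll
          exact hno l l' hll ((((hspt.2 l l.2).2.2.1 l (hrefl _))).trans hsub)
        · intro hll
          by_cases heq : l = l'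
          · rw [heq]
          · exact (hspt.2 l' l'.2).2.2.2 l hll heq
    obtain ⟨k, l, hkl, hsub⟩ := hex
    have hXU : X k v c ≤ U k v c := by
      apply sum_le_sum
      intro x _
      by_cases hx : x ∈ c.1 k ∧ x ∉ v i ∧ Gd v x
      · rw [ind_true hx]
        exact union_bound hϑn hG0 hG1 v c x k l hkl hx.1 hx.2.1 hx.2.2 (hsub hx.1)
      · rw [ind_false hx]
        have n1 : 0 ≤ ∑ j ∈ range n, ind (stE n S le i e ϑ ϑw k j v c x) :=
          sum_nonneg (fun _ _ => ind_nonneg _)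
        have n2 : 0 ≤ ∑ l ∈ range n, ind (pE n S le i e ϑ ϑw nc k l v c x) :=
          sum_nonneg (fun _ _ => ind_nonneg _)
        have n3 : 0 ≤ ∑ l : Fin n, (if le k l then 0 else ind (fE n S le i e ϑ k l v c x)) := by
          apply sum_nonneg
          intro l _
          split_ifs
          · exact le_rfl
          · exact ind_nonneg _
        linarith
    calc ∏ k, X k v c = X k v c * ∏ k' ∈ univ.erase k, X k' v c :=
          (Finset.mul_prod_erase univ _ (mem_univ k)).symm
      _ ≤ U k v c * ∏ k' ∈ univ.erase k, d := by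
          apply mul_le_mul hXU _ (prod_nonneg (fun k' _ => hX0 k' v c)) (hU0 k v c)
          exact prod_le_prod (fun k' _ => hX0 k' v c) (fun k' _ => hXd k')
      _ = d ^ (n - 1) * U k v c := by
          rw [prod_const, card_erase_of_mem (mem_univ k), card_univ, Fintype.card_fin, mul_comm]
      _ ≤ d ^ (n - 1) * ∑ k, U k v c := by
          apply mul_le_mul_of_nonneg_left _ (by positivity)
          exact Finset.single_le_sum (f := fun k => U k v c) (fun k _ => hU0 k v c) (mem_univ k)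
  calc ∑ v ∈ S, (gdE S i e Gd v) ^ n = ∑ v ∈ S, ex (KK n S le i e n v) (fun c => ∏ k, X k v c) :=
        Finset.sum_congr rfl (fun v _ => h1 v)
    _ ≤ ∑ v ∈ S, ex (KK n S le i e n v) (fun c => d ^ (n - 1) * ∑ k, U k v c) :=
        sum_le_sum (fun v hv => ex_mono (h2 v hv))
    _ = d ^ (n - 1) * Err n S le i e ϑ ϑw nc := by
        simp only [ex_smul, ex_sum]
        rw [← Finset.mul_sum]
        congr 1
        unfold Err
        rw [Finset.sum_comm]
        apply Finset.sum_congr rfl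
        intro k _
        have h3 : ∀ v, ex (KK n S le i e n v) (U k v) =
            (∑ j ∈ range n, ex (KK n S le i e n v)
              (fun c => ∑ x, ind (stE n S le i e ϑ ϑw k j v c x))) +
            (∑ l ∈ range n, ex (KK n S le i e n v)
              (fun c => ∑ x, ind (pE n S le i e ϑ ϑw nc k l v c x))) +
            ∑ l : Fin n, (if le k l then 0 else ex (KK n S le i e n v)
              (fun c => ∑ x, ind (fE n S le i e ϑ k l v c x))) := by
          intro v
          simp only [U, Finset.sum_add_distrib, ex_add]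
          congr 1
          · congr 1
            · rw [← ex_sum]
              apply ex_congr
              intro c _
              exact Finset.sum_comm
            · rw [← ex_sum]
              apply ex_congr
              intro c _
              exact Finset.sum_comm
          · have h4 : ∀ l : Fin n, (if le k l then 0 else ex (KK n S le i e n v)
              (fun c => ∑ x, ind (fE n S le i e ϑ k l v c x))) = ex (KK n S le i e n v)
              (fun c => ∑ x, (if le k l then 0 else ind (fE n S le i e ϑ k l v c x))) := by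
              intro l
              split_ifs
              · simp
              · rfl
            simp only [h4]
            rw [← ex_sum]
            apply ex_congr
            intro c _
            exact Finset.sum_comm
        simp only [h3, Finset.sum_add_distrib]
        congr 1
        · congr 1
          · exact Finset.sum_comm
          · exact Finset.sum_comm
        · rw [Finset.sum_comm]
          apply Finset.sum_congr rfl
          intro l _
          split_ifs
          · simp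
          · rfl

end comb

end Pool.Agent.Helper884_Full
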