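import Pool.Agent.Helper884_MultiScale.Growth

/-!
# Growth exponents for a general property of families
-/

set_option autoImplicit false

namespace Pool.Agent.Helper884_Full

open Finset
open Pool.Agent.Helper884_MultiScale (IsCh IsCh.coarse sum_blocks card_le_prod_image)

/-- In families with the property there are at most `D * 2 ^ (c * |w \ u|)` chains of length
`r` from `u` to `w`. -/
def BdP (Φ : ∀ N : ℕ, Finset (Finset (Fin N)) → Prop) (r : ℕ) (c : ℝ) : Prop :=
  ∃ D : ℝ, 0 < D ∧ ∀ (N : ℕ) (F : Finset (Finset (Fin N))), Φ N F →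
    ∀ (u w : Finset (Fin N)) (S : Finset (ℕ → Finset (Fin N))),
      (∀ v ∈ S, IsCh F r u w v) → (S.card : ℝ) ≤ D * 2 ^ (c * ((w \ u).card : ℝ))

lemma BdP.mono {Φ : ∀ N : ℕ, Finset (Finset (Fin N)) → Prop} {r : ℕ} {c c' : ℝ} (h : BdP Φ r c)
    (hc : c ≤ c') : BdP Φ r c' := by
  obtain ⟨D, hD, h⟩ := h
  refine ⟨D, hD, fun N F hF u w S hS => (h N F hF u w S hS).trans ?_⟩
  apply mul_le_mul_of_nonneg_left _ hD.le
  apply Real.rpow_le_rpow_of_exponent_le (by norm_num)
  exact mul_le_mul_of_nonneg_right hc (Nat.cast_nonneg _)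

lemma BdP.one (Φ : ∀ N : ℕ, Finset (Finset (Fin N)) → Prop) : BdP Φ 1 0 := by
  classical
  refine ⟨1, one_pos, fun N F hF u w S hS => ?_⟩
  have : S.card ≤ 1 := by
    rw [Finset.card_le_one]
    intro v hv v' hv'
    funext i
    rcases Nat.eq_zero_or_pos i with rfl | hpos
    · rw [(hS v hv).2.1, (hS v' hv').2.1]
    · rw [(hS v hv).2.2.1 i hpos, (hS v' hv').2.2.1 i hpos]
  simp only [zero_mul, Real.rpow_zero, mul_one]
  exact_mod_cast this

lemma BdP.two (Φ : ∀ N : ℕ, Finset (Finset (Fin N)) → Prop) : BdP Φ 2 1 := by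
  classical
  refine ⟨1, one_pos, fun N F hF u w S hS => ?_⟩
  have : S.card ≤ 2 ^ (w \ u).card := by
    rw [← card_powerset]
    apply Finset.card_le_card_of_injOn (fun v => v 1 \ u)
    · intro v hv
      have hv' : v ∈ S := hv
      simp only [Finset.mem_coe, mem_powerset]
      exact sdiff_subset_sdiff ((hS v hv').sub 1) (Subset.refl _)
    · intro v hv v' hv' h
      have hvS : v ∈ S := hv
      have hv'S : v' ∈ S := hv'
      simp only at h
      have h1 : v 1 = v' 1 := by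
        rw [← Finset.sdiff_union_of_subset ((hS v hvS).sup 1), h,
          Finset.sdiff_union_of_subset ((hS v' hv'S).sup 1)]
      funext i
      rcases Nat.lt_or_ge i 2 with hi | hi
      · interval_cases i
        · rw [(hS v hvS).2.1, (hS v' hv'S).2.1]
        · exact h1
      · rw [(hS v hvS).2.2.1 i hi, (hS v' hv'S).2.2.1 i hi]
  rw [one_mul, one_mul, Real.rpow_natCast]
  exact_mod_cast this

lemma BdP.mul {Φ : ∀ N : ℕ, Finset (Finset (Fin N)) → Prop} {r s : ℕ} {c d : ℝ} (hs : 0 < s)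
    (h1 : BdP Φ r c) (h2 : BdP Φ s d) : BdP Φ (r * s) (c + d) := by
  classical
  obtain ⟨D1, hD1, h1⟩ := h1
  obtain ⟨D2, hD2, h2⟩ := h2
  refine ⟨D1 * D2 ^ r, by positivity, fun N F hF u w S hS => ?_⟩
  set n : ℝ := ((w \ u).card : ℝ) with hn
  let κ : (ℕ → Finset (Fin N)) → (ℕ → Finset (Fin N)) := fun v i => v (s * i)
  have hfib : ∀ q ∈ S.image κ, ((S.filter (fun v => κ v = q)).card : ℝ) ≤ D2 ^ r * 2 ^ (d * n) := by
    intro q hq
    set G := S.filter (fun v => κ v = q) with hG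
    have hGS : ∀ v ∈ G, v ∈ S ∧ κ v = q := fun v hv => mem_filter.1 hv
    have hqch : IsCh F r u w q := by
      obtain ⟨v, hv, rfl⟩ := mem_image.1 hq
      exact (hS v hv).coarse hs
    have hcard := card_le_prod_image G
      (fun i (v : ℕ → Finset (Fin N)) => (fun t => v (s * i + min t s))) r (by
        intro v hv v' hv' h
        funext j
        rcases Nat.lt_or_ge j (r * s) with hj | hj
        · have hjr : j / s < r := Nat.div_lt_of_lt_mul (by rwa [mul_comm] at hj)
          have h3 := congrFun (h (j / s) hjr) (j % s)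
          have h4 : min (j % s) s = j % s := min_eq_left (Nat.mod_lt j hs).le
          simp only [h4, Nat.div_add_mod] at h3
          exact h3
        · rw [(hS v (hGS v hv).1).2.2.1 j hj, (hS v' (hGS v' hv').1).2.2.1 j hj])
    have hblock : ∀ i ∈ range r,
        ((G.image (fun (v : ℕ → Finset (Fin N)) => (fun t => v (s * i + min t s)))).card : ℝ)
          ≤ D2 * 2 ^ (d * ((q (i + 1) \ q i).card : ℝ)) := by
      intro i hi
      apply h2 N F hF
      intro v' hv'
      obtain ⟨v, hv, rfl⟩ := mem_image.1 hv'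
      obtain ⟨hvS, hvq⟩ := hGS v hv
      have hch := hS v hvS
      refine ⟨?_, ?_, ?_, fun t => hch.2.2.2 _⟩
      · intro t t' htt
        apply hch.1
        have : min t s ≤ min t' s := min_le_min_right s htt
        omega
      · simp only [Nat.zero_min, add_zero]
        exact congrFun hvq i
      · intro t ht
        have h5 : min t s = s := min_eq_right ht
        simp only [h5]
        have := congrFun hvq (i + 1)
        simp only [κ, Nat.mul_succ] at this
        exact this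
    calc (G.card : ℝ) ≤ ((∏ i ∈ range r,
          (G.image (fun (v : ℕ → Finset (Fin N)) => (fun t => v (s * i + min t s)))).card : ℕ) : ℝ) := by
            exact_mod_cast hcard
      _ = ∏ i ∈ range r,
          ((G.image (fun (v : ℕ → Finset (Fin N)) => (fun t => v (s * i + min t s)))).card : ℝ) := by
            push_cast; rfl
      _ ≤ ∏ i ∈ range r, (D2 * 2 ^ (d * ((q (i + 1) \ q i).card : ℝ))) :=
          Finset.prod_le_prod (fun i _ => Nat.cast_nonneg _) hblock
      _ = D2 ^ r * 2 ^ (d * n) := by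
          rw [Finset.prod_mul_distrib, Finset.prod_const, card_range,
            ← Real.rpow_sum_of_pos (by norm_num : (0 : ℝ) < 2), ← Finset.mul_sum,
            sum_blocks hqch]
  have himg : ((S.image κ).card : ℝ) ≤ D1 * 2 ^ (c * n) := by
    apply h1 N F hF
    intro q hq
    obtain ⟨v, hv, rfl⟩ := mem_image.1 hq
    exact (hS v hv).coarse hs
  calc (S.card : ℝ) = ∑ q ∈ S.image κ, ((S.filter (fun v => κ v = q)).card : ℝ) := by
        rw [Finset.card_eq_sum_card_image κ S]; push_cast; rfl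
    _ ≤ ∑ q ∈ S.image κ, D2 ^ r * 2 ^ (d * n) := sum_le_sum hfib
    _ = ((S.image κ).card : ℝ) * (D2 ^ r * 2 ^ (d * n)) := by simp
    _ ≤ (D1 * 2 ^ (c * n)) * (D2 ^ r * 2 ^ (d * n)) :=
        mul_le_mul_of_nonneg_right himg (by positivity)
    _ = D1 * D2 ^ r * 2 ^ ((c + d) * n) := by
        rw [add_mul, Real.rpow_add (by norm_num)]; ring

lemma BdP.triv (Φ : ∀ N : ℕ, Finset (Finset (Fin N)) → Prop) (K : ℕ) : BdP Φ (2 ^ K) K := by
  induction K with
  | zero => simpa using BdP.one Φ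
  | succ K ih =>
    rw [pow_succ]
    have := BdP.mul (by norm_num : 0 < 2) ih (BdP.two Φ)
    push_cast
    exact this

/-- The growth exponent at length `2 ^ K`. -/
noncomputable def betaP (Φ : ∀ N : ℕ, Finset (Finset (Fin N)) → Prop) (K : ℕ) : ℝ :=
  sInf {c : ℝ | 0 ≤ c ∧ BdP Φ (2 ^ K) c}

lemma betaP_nonneg (Φ : ∀ N : ℕ, Finset (Finset (Fin N)) → Prop) (K : ℕ) : 0 ≤ betaP Φ K :=
  Real.sInf_nonneg (fun _ hc => hc.1)

lemma betaP_le {Φ : ∀ N : ℕ, Finset (Finset (Fin N)) → Prop} {K : ℕ} {c : ℝ} (h0 : 0 ≤ c) (h : BdP Φ (2 ^ K) c) : betaP Φ K ≤ c :=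
  csInf_le ⟨0, fun _ hc => hc.1⟩ ⟨h0, h⟩

lemma BdP_of_beta_lt {Φ : ∀ N : ℕ, Finset (Finset (Fin N)) → Prop} {K : ℕ} {c : ℝ} (h : betaP Φ K < c) : BdP Φ (2 ^ K) c := by
  have hne : {c : ℝ | 0 ≤ c ∧ BdP Φ (2 ^ K) c}.Nonempty :=
    ⟨(K : ℝ), Nat.cast_nonneg _, BdP.triv Φ K⟩
  obtain ⟨c', hc', hlt⟩ := exists_lt_of_csInf_lt hne h
  exact hc'.2.mono hlt.le

lemma betaP_subadditive (Φ : ∀ N : ℕ, Finset (Finset (Fin N)) → Prop) :
    Subadditive (betaP Φ) := by
  intro K L
  apply le_of_forall_pos_le_add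
  intro ε hε
  have h1 : BdP Φ (2 ^ K) (betaP Φ K + ε / 2) := BdP_of_beta_lt (by linarith)
  have h2 : BdP Φ (2 ^ L) (betaP Φ L + ε / 2) := BdP_of_beta_lt (by linarith)
  have h3 := BdP.mul (Nat.pow_pos (by norm_num)) h1 h2
  rw [← pow_add] at h3
  have h4 := betaP_le (by linarith [betaP_nonneg Φ K, betaP_nonneg Φ L]) h3
  linarith

lemma betaP_bdd (Φ : ∀ N : ℕ, Finset (Finset (Fin N)) → Prop) : BddBelow (Set.range fun n => betaP Φ n / n) := by
  refine ⟨0, ?_⟩
  rintro x ⟨n, rfl⟩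
  exact div_nonneg (betaP_nonneg Φ n) (Nat.cast_nonneg n)


end Pool.Agent.Helper884_Full
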