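import Pool.Agent.Helper884_Full.Fibre
import Pool.Agent.Helper884_Full.Growth

/-!
# Counting the chains with few good elements
-/

set_option autoImplicit false
set_option linter.unusedSectionVars false

namespace Pool.Agent.Helper884_Full

open Finset
open Pool.Agent.Helper884_MultiScale (IsCh IsCh.coarse ent poly_le)

open Classical in
/-- Chains with few good elements. -/
noncomputable def badS {V : Type*} [Fintype V] [DecidableEq V] (n : ℕ)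
    (S : Finset (ℕ → Finset V)) (le : ℕ → ℕ → Bool) (s : ℕ → ℕ)
    (ϑw R : ℕ → ℝ) (u w : Finset V) (γ : ℝ) : Finset (ℕ → Finset V) :=
  S.filter (fun v => ((GoodS n S le s ϑw R u w v).card : ℝ) ≤ γ * (w \ u).card)

theorem bad_count {Φ : ∀ N : ℕ, Finset (Finset (Fin N)) → Prop} {n : ℕ} {le : ℕ → ℕ → Bool}
    (hn : 0 < n) (hle : ∀ a b, le a b → a ≤ b) {K sw : ℕ} (hK : 1 ≤ K) (hsw : sw ≤ K) {c : ℝ}
    (hc : BdP Φ (2 ^ (K - sw)) c) {Λ : ℕ} (hΛ : n * n + 1 ≤ 2 ^ Λ) (Cn : ℕ) :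
    ∃ D : ℝ, 1 ≤ D ∧ ∀ (N : ℕ) (F : Finset (Finset (Fin N))), Φ N F →
      ∀ (u w : Finset (Fin N)) (S : Finset (ℕ → Finset (Fin N))) (p : ℕ → ℕ),
      (∀ v ∈ S, IsCh F (2 ^ K) u w v) → (∀ v ∈ S, ∀ i, (v i).card = p i) →
      ∀ (s : ℕ → ℕ) (ϑw R : ℕ → ℝ) (E τ : ℕ) (ρ η ζ γ : ℝ), Monotone s → s (n + 1) = sw →
      s 0 = 0 → (∀ j, 0 < ϑw j) → (∀ j, 1 / ϑw j ≤ 2 ^ (s j + E)) → 0 < ρ →
      (∀ l, R l = ρ * 2 ^ (s l)) → 0 < η → 2 * n * (3 + K) / (ρ * η) ≤ ζ →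
      2 ^ E * (ζ + 1) ≤ η * 2 ^ τ → ζ ≤ Cn → 0 < (w \ u).card →
      ((badS n S le s ϑw R u w γ).card : ℝ) ≤ D * 2 ^ ((c + Λ + 2 +
        sw * (γ + (1 + 2 * (n * n)) * η) + 2 * s n + τ + n * n * ζ) * ((w \ u).card : ℝ)) := by
  classical
  obtain ⟨D0, hD0, hc⟩ := hc
  set a : ℕ := n * n * 2 ^ K with ha
  have hapos : 0 < a := Nat.mul_pos (Nat.mul_pos hn hn) (Nat.pow_pos (by norm_num))
  have hC1 : (1 : ℝ) ≤ (((Cn + 1) ^ a * a ^ a : ℕ) : ℝ) := by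
    have : 0 < (Cn + 1) ^ a * a ^ a := Nat.mul_pos (Nat.pow_pos (by omega)) (Nat.pow_pos hapos)
    exact_mod_cast this
  refine ⟨D0 * (((Cn + 1) ^ a * a ^ a : ℕ) : ℝ) + 1, ?_, ?_⟩
  · have : 0 ≤ D0 * (((Cn + 1) ^ a * a ^ a : ℕ) : ℝ) := by positivity
    linarith
  intro N F hF u w S p hch hp s ϑw R E τ ρ η ζ γ hs hsn hs0 hϑw hE hρ hR hη hζ hτ hCn hN
  set B := badS n S le s ϑw R u w γ with hB
  have hBS : ∀ v ∈ B, v ∈ S ∧ ((GoodS n S le s ϑw R u w v).card : ℝ) ≤ γ * (w \ u).card := by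
    intro v hv
    rw [hB, badS, mem_filter] at hv
    exact hv
  set nn := (w \ u).card with hnn
  have hKsw : 2 ^ K = 2 ^ (K - sw) * 2 ^ sw := by
    rw [← pow_add]; congr 1; omega
  let κ : (ℕ → Finset (Fin N)) → (ℕ → Finset (Fin N)) := fun v i => v (2 ^ sw * i)
  have himg : ((B.image κ).card : ℝ) ≤ D0 * 2 ^ (c * nn) := by
    apply hc N F hF
    intro q hq
    obtain ⟨v, hv, rfl⟩ := mem_image.1 hq
    have h1 := hch v (hBS v hv).1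
    rw [hKsw] at h1
    exact h1.coarse (Nat.pow_pos (by norm_num))
  set FB : ℝ := (2 ^ nn * ((n * n + 1) ^ nn * (Cn * nn + 1) ^ a)) *
      (((2 ^ sw : ℕ) : ℝ) ^ ((γ + (1 + 2 * (n * n)) * η) * nn) *
        ((2 ^ (2 * s n + τ) : ℕ) : ℝ) ^ nn) * 2 ^ ((n * n * ζ) * nn) with hFB
  have hfib : ∀ q ∈ B.image κ, ((B.filter (fun v => κ v = q)).card : ℝ) ≤ FB := by
    intro q _
    have h1 := fibre_bound (n := n) (S := S) (le := le) (s := s) (ϑw := ϑw) (R := R)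
      hch hp hn hK hs (by rw [hsn]; exact hsw) hs0 hle
      hϑw hE hρ hR hη hζ hτ hCn hN (γ := γ) (B.filter (fun v => κ v = q))
      (fun v hv => (hBS v (mem_filter.1 hv).1).1) q
      (by
        intro v hv i
        rw [hsn]
        exact congrFun (mem_filter.1 hv).2 i)
      (fun v hv => (hBS v (mem_filter.1 hv).1).2)
    rw [hsn] at h1
    exact h1
  have hFB0 : 0 ≤ FB := by rw [hFB]; positivity
  have hBcard : (B.card : ℝ) ≤ D0 * 2 ^ (c * nn) * FB := by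
    calc (B.card : ℝ) = ∑ q ∈ B.image κ, ((B.filter (fun v => κ v = q)).card : ℝ) := by
          rw [Finset.card_eq_sum_card_image κ B]; push_cast; rfl
      _ ≤ ∑ q ∈ B.image κ, FB := sum_le_sum hfib
      _ = ((B.image κ).card : ℝ) * FB := by simp
      _ ≤ D0 * 2 ^ (c * nn) * FB := mul_le_mul_of_nonneg_right himg hFB0
  -- estimates
  have e1 : (2 : ℝ) ^ nn = 2 ^ ((1 : ℝ) * nn) := by rw [one_mul, Real.rpow_natCast]
  have e2 : ((n : ℝ) * n + 1) ^ nn ≤ 2 ^ ((Λ : ℝ) * nn) := by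
    have h1 : (n : ℝ) * n + 1 ≤ 2 ^ Λ := by exact_mod_cast hΛ
    calc ((n : ℝ) * n + 1) ^ nn ≤ (2 ^ Λ) ^ nn := pow_le_pow_left₀ (by positivity) h1 _
      _ = 2 ^ ((Λ : ℝ) * nn) := by
          rw [← pow_mul, ← Real.rpow_natCast]; congr 1; push_cast; ring
  have e3 : ((Cn : ℝ) * nn + 1) ^ a ≤ (((Cn + 1) ^ a * a ^ a : ℕ) : ℝ) * 2 ^ ((1 : ℝ) * nn) := by
    have h1 : (Cn * nn + 1) ^ a ≤ (Cn + 1) ^ a * a ^ a * 2 ^ nn := by
      calc (Cn * nn + 1) ^ a ≤ ((Cn + 1) * (nn + 1)) ^ a := by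
            apply Nat.pow_le_pow_left
            nlinarith
        _ = (Cn + 1) ^ a * (nn + 1) ^ a := by rw [mul_pow]
        _ ≤ (Cn + 1) ^ a * (a ^ a * 2 ^ nn) := Nat.mul_le_mul_left _ (poly_le hapos nn)
        _ = _ := by ring
    rw [one_mul, Real.rpow_natCast]
    exact_mod_cast h1
  have e4 : ((2 ^ sw : ℕ) : ℝ) ^ ((γ + (1 + 2 * (n * n)) * η) * nn)
      = 2 ^ ((sw * (γ + (1 + 2 * (n * n)) * η)) * nn) := by
    rw [Nat.cast_pow, Nat.cast_ofNat, ← Real.rpow_natCast, ← Real.rpow_mul (by norm_num)]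
    congr 1; ring
  have e5 : ((2 ^ (2 * s n + τ) : ℕ) : ℝ) ^ nn = 2 ^ ((2 * s n + τ : ℝ) * nn) := by
    rw [Nat.cast_pow, Nat.cast_ofNat, ← pow_mul, ← Real.rpow_natCast]
    congr 1; push_cast; ring
  have hFBle : FB ≤ (((Cn + 1) ^ a * a ^ a : ℕ) : ℝ) * 2 ^ ((Λ + 2 +
      sw * (γ + (1 + 2 * (n * n)) * η) + 2 * s n + τ + n * n * ζ) * (nn : ℝ)) := by
    have h1 : (2 : ℝ) ^ ((Λ + 2 + sw * (γ + (1 + 2 * (n * n)) * η) + 2 * s n + τ + n * n * ζ)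
        * (nn : ℝ)) = 2 ^ ((1 : ℝ) * nn) * (2 ^ ((Λ : ℝ) * nn) * 2 ^ ((1 : ℝ) * nn)) *
        (2 ^ ((sw * (γ + (1 + 2 * (n * n)) * η)) * nn) * 2 ^ ((2 * s n + τ : ℝ) * nn)) *
        2 ^ ((n * n * ζ) * nn) := by
      rw [← Real.rpow_add (by norm_num), ← Real.rpow_add (by norm_num),
        ← Real.rpow_add (by norm_num), ← Real.rpow_add (by norm_num),
        ← Real.rpow_add (by norm_num)]
      congr 1; ring
    rw [hFB, e1, e4, e5, h1]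
    have h2 : ((n : ℝ) * n + 1) ^ nn * ((Cn : ℝ) * nn + 1) ^ a
        ≤ 2 ^ ((Λ : ℝ) * nn) * ((((Cn + 1) ^ a * a ^ a : ℕ) : ℝ) * 2 ^ ((1 : ℝ) * nn)) :=
      mul_le_mul e2 e3 (by positivity) (by positivity)
    calc _ ≤ (2 ^ ((1 : ℝ) * nn) * (2 ^ ((Λ : ℝ) * nn) *
          ((((Cn + 1) ^ a * a ^ a : ℕ) : ℝ) * 2 ^ ((1 : ℝ) * nn)))) *
        (2 ^ ((sw * (γ + (1 + 2 * (n * n)) * η)) * nn) * 2 ^ ((2 * s n + τ : ℝ) * nn)) *
        2 ^ ((n * n * ζ) * nn) := by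
          apply mul_le_mul_of_nonneg_right _ (by positivity)
          apply mul_le_mul_of_nonneg_right _ (by positivity)
          exact mul_le_mul_of_nonneg_left h2 (by positivity)
      _ = _ := by ring
  have hfinal : (2 : ℝ) ^ ((c + Λ + 2 + sw * (γ + (1 + 2 * (n * n)) * η) + 2 * s n + τ
      + n * n * ζ) * (nn : ℝ)) = 2 ^ (c * nn) * 2 ^ ((Λ + 2 +
      sw * (γ + (1 + 2 * (n * n)) * η) + 2 * s n + τ + n * n * ζ) * (nn : ℝ)) := by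
    rw [← Real.rpow_add (by norm_num)]
    congr 1; ring
  rw [hfinal]
  have hpos2 : (0 : ℝ) ≤ 2 ^ (c * (nn : ℝ)) * 2 ^ ((Λ + 2 +
      sw * (γ + (1 + 2 * (n * n)) * η) + 2 * s n + τ + n * n * ζ) * (nn : ℝ)) := by positivity
  calc (B.card : ℝ) ≤ D0 * 2 ^ (c * nn) * FB := hBcard
    _ ≤ D0 * 2 ^ (c * nn) * ((((Cn + 1) ^ a * a ^ a : ℕ) : ℝ) * 2 ^ ((Λ + 2 +
      sw * (γ + (1 + 2 * (n * n)) * η) + 2 * s n + τ + n * n * ζ) * (nn : ℝ))) :=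
        mul_le_mul_of_nonneg_left hFBle (by positivity)
    _ = (D0 * (((Cn + 1) ^ a * a ^ a : ℕ) : ℝ)) * (2 ^ (c * nn) * 2 ^ ((Λ + 2 +
      sw * (γ + (1 + 2 * (n * n)) * η) + 2 * s n + τ + n * n * ζ) * (nn : ℝ))) := by ring
    _ ≤ _ := by
        apply mul_le_mul_of_nonneg_right _ hpos2
        linarith

end Pool.Agent.Helper884_Full
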