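import Pool.Agent.Helper884_Full.Greedy
import Pool.Agent.Helper884_ChainCount.Count

/-!
# The abstract encoding bound
-/

set_option autoImplicit false
set_option linter.unusedSectionVars false

namespace Pool.Agent.Helper884_Full

open Finset
open Pool.Agent.Helper884_MultiScale (IsCh ent lt_blk blk_le div_eq_of_blk eq_of_div_mod
  ent_eq_of_coarse tree_count)
open Pool.Agent.Helper884_ChainCount (pigeon)

variable {V : Type*} [DecidableEq V] {ι 𝒟 : Type*} [Fintype ι] [DecidableEq ι] [Fintype 𝒟]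
  [DecidableEq 𝒟]

/-- Accumulated catching probability. -/
noncomputable def covA (t : ι → ℕ) (Zf : ι → ℕ → Finset V → 𝒟 → Finset V)
    (lam : ι → ℕ → (ℕ → Finset V) → FD 𝒟) (σ : ι) (v : ℕ → Finset V) (i : ℕ) (x : V) : ℝ :=
  ∑ i' ∈ (range (i + 1)).filter (fun i' => i' / t σ = i / t σ),
    ex (lam σ i' v) (fun D => ind (x ∈ Zf σ i' (v i') D))

open Classical in
/-- Elements which are not caught. -/
noncomputable def GdS (t : ι → ℕ) (Zi : ℕ → Finset V → Finset V)
    (Zf : ι → ℕ → Finset V → 𝒟 → Finset V)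
    (lam : ι → ℕ → (ℕ → Finset V) → FD 𝒟) (R : ι → ℝ) (u w : Finset V) (v : ℕ → Finset V) :
    Finset V :=
  (w \ u).filter (fun x => x ∉ Zi (ent v x) (v (ent v x)) ∧
    ∀ σ, covA t Zf lam σ v (ent v x) x < R σ)

variable {F : Finset (Finset V)} {r s : ℕ} {t : ι → ℕ} {u w : Finset V}
  {Zi : ℕ → Finset V → Finset V}
  {Zf : ι → ℕ → Finset V → 𝒟 → Finset V}

open Classical in
/-- Few elements appear often. -/
lemma markov_card (A : Finset V) (f : V → ℕ) (T : ℕ) (hT : 0 < T) {X : ℝ}
    (h : ∑ x ∈ A, (f x : ℝ) ≤ X * T) : ((A.filter (fun x => T ≤ f x)).card : ℝ) ≤ X := by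
  have hTR : (0 : ℝ) < T := by exact_mod_cast hT
  have h1 : ((A.filter (fun x => T ≤ f x)).card : ℝ) * T ≤ ∑ x ∈ A, (f x : ℝ) := by
    calc ((A.filter (fun x => T ≤ f x)).card : ℝ) * T
        = ∑ x ∈ A.filter (fun x => T ≤ f x), (T : ℝ) := by rw [sum_const, nsmul_eq_mul]
      _ ≤ ∑ x ∈ A.filter (fun x => T ≤ f x), (f x : ℝ) :=
          sum_le_sum (fun x hx => by exact_mod_cast (mem_filter.1 hx).2)
      _ ≤ ∑ x ∈ A, (f x : ℝ) :=
          Finset.sum_le_sum_of_subset_of_nonneg (filter_subset _ _)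
            (fun _ _ _ => Nat.cast_nonneg _)
  exact le_of_mul_le_mul_right (h1.trans h) hTR

lemma sum_App0 (v : ℕ → Finset V) (A : Finset V) :
    ∑ x ∈ A, ((App0 r Zi v x).card : ℝ) ≤ ∑ i ∈ range r, ((Zi i (v i)).card : ℝ) := by
  have h : ∑ x ∈ A, (App0 r Zi v x).card ≤ ∑ i ∈ range r, (Zi i (v i)).card := by
    simp only [App0, Finset.card_filter]
    rw [Finset.sum_comm]
    apply sum_le_sum
    intro i _
    rw [← Finset.card_filter]
    apply card_le_card
    intro x hx
    exact (mem_filter.1 hx).2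
  exact_mod_cast h

lemma sum_App (E : ι → (ℕ → Finset V) → ℕ → Finset 𝒟) (σ : ι) (v : ℕ → Finset V)
    (A : Finset V) :
    ∑ x ∈ A, ((App r Zf E σ v x).card : ℝ)
      ≤ ∑ i ∈ range r, ∑ D ∈ E σ v i, ((Zf σ i (v i) D).card : ℝ) := by
  classical
  have h : ∑ x ∈ A, (App r Zf E σ v x).card
      ≤ ∑ i ∈ range r, ∑ D ∈ E σ v i, (Zf σ i (v i) D).card := by
    calc ∑ x ∈ A, (App r Zf E σ v x).card
        ≤ ∑ x ∈ A, ∑ i ∈ range r, ∑ D ∈ E σ v i, (if x ∈ Zf σ i (v i) D then 1 else 0) := by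
          apply sum_le_sum
          intro x _
          rw [App, Finset.card_filter]
          apply sum_le_sum
          intro i _
          split_ifs with hD
          · obtain ⟨D, hD1, hD2⟩ := hD
            have := Finset.single_le_sum (f := fun D => if x ∈ Zf σ i (v i) D then 1 else 0)
              (fun _ _ => Nat.zero_le _) hD1
            simp only [hD2, if_true] at this
            exact this
          · exact Nat.zero_le _
      _ = ∑ i ∈ range r, ∑ D ∈ E σ v i, ∑ x ∈ A, (if x ∈ Zf σ i (v i) D then 1 else 0) := by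
          rw [Finset.sum_comm]
          apply Finset.sum_congr rfl
          intro i _
          rw [Finset.sum_comm]
      _ ≤ _ := by
          apply sum_le_sum
          intro i _
          apply sum_le_sum
          intro D _
          rw [← Finset.card_filter]
          apply card_le_card
          intro x hx
          exact (mem_filter.1 hx).2
  exact_mod_cast h

open Classical in
/-- The range of labels. -/
noncomputable def labs (s T0 : ℕ) (T t : ι → ℕ) (B : Finset V) (x : V) (cl : Option ι) :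
    Finset (ℕ × ℕ) :=
  if x ∈ B then range s ×ˢ {0} else
    match cl with
    | none => range T0 ×ˢ {0}
    | some σ => range (T σ) ×ˢ range (t σ)

theorem encode_bound (S : Finset (ℕ → Finset V)) (hS : ∀ v ∈ S, IsCh F r u w v) (hs : 0 < s)
    (ht : ∀ σ, 0 < t σ) (q : ℕ → Finset V) (hq : ∀ v ∈ S, ∀ i, v (s * i) = q i)
    (Ds : ι → ℕ → Finset V → Finset 𝒟) (lam : ι → ℕ → (ℕ → Finset V) → FD 𝒟)
    (hZi : ∀ v ∈ S, ∀ i, ∀ x ∈ Zi i (v i), x ∉ v i)
    (hlam : ∀ v ∈ S, ∀ σ i D, (lam σ i v).w D ≠ 0 → D ∈ Ds σ i (v i))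
    (d : ℕ → ℕ) {N : ℝ} (hN : N = ((w \ u).card : ℝ)) (hNpos : 0 < N)
    (hdN : ∑ i ∈ range r, (d i : ℝ) ≤ N)
    {A0 : ℝ} (hA00 : 0 ≤ A0) (hA0 : ∀ v ∈ S, ∀ i < r, ((Zi i (v i)).card : ℝ) ≤ A0 * d i)
    {A : ι → ℝ} (hAn : ∀ σ, 0 ≤ A σ) (hA : ∀ v ∈ S, ∀ σ, ∀ i < r, ∀ D ∈ Ds σ i (v i),
      ((Zf σ i (v i) D).card : ℝ) ≤ A σ * d i)
    (cost : ι → ℕ → ℝ) (hcd : ∀ σ i, (d i : ℝ) ≤ cost σ i)
    (Bn : ι → ℕ → ℕ) (hBn : ∀ v ∈ S, ∀ σ, ∀ i < r, 1 ≤ d i → (Ds σ i (v i)).card ≤ Bn σ i)
    (hBc : ∀ σ, ∀ i < r, 1 ≤ d i → (Bn σ i : ℝ) ≤ 2 ^ (cost σ i))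
    {Zc : ι → ℝ} (hZc : ∀ σ, 0 < Zc σ) (hcost : ∀ σ, ∑ i ∈ range r, cost σ i ≤ Zc σ * N)
    {R : ι → ℝ} (hR : ∀ σ, 0 < R σ) {η : ℝ} (hη : 0 < η)
    {T0 : ℕ} (hT00 : 0 < T0) (hT0 : A0 ≤ η * T0)
    {T : ι → ℕ} (hT0' : ∀ σ, 0 < T σ) (hT : ∀ σ, A σ * (Zc σ / (R σ * η)) ≤ η * T σ)
    {M : ℕ} (hM0 : T0 ≤ M) (hM : ∀ σ, T σ * t σ ≤ M)
    {Cn : ℕ} (hCn : ∀ σ, Zc σ / (R σ * η) ≤ Cn)
    {γ : ℝ} (hγ : ∀ v ∈ S, ((GdS t Zi Zf lam R u w v).card : ℝ) ≤ γ * N) :
    (S.card : ℝ) ≤ (2 ^ (w \ u).card * ((Fintype.card ι + 1) ^ (w \ u).card *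
      (Cn * (w \ u).card + 1) ^ (Fintype.card ι * r))) *
      ((s : ℝ) ^ ((γ + (1 + 2 * Fintype.card ι) * η) * N) * M ^ (w \ u).card) *
      2 ^ ((∑ σ, Zc σ / (R σ * η)) * N) := by
  classical
  have hM1 : 1 ≤ M := le_trans hT00 hM0
  rcases S.eq_empty_or_nonempty with rfl | hSne
  · simp only [card_empty, Nat.cast_zero]; positivity
  -- the incidence relation
  let inc : ι → (ℕ → Finset V) → V → ℕ × 𝒟 → Prop := fun σ v x o =>
    o.1 ≤ ent v x ∧ o.1 / t σ = ent v x / t σ ∧ x ∈ Zf σ o.1 (v o.1) o.2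
  let As : ι → (ℕ → Finset V) → Finset V := fun σ v =>
    (w \ u).filter (fun x => R σ ≤ covA t Zf lam σ v (ent v x) x)
  let Om : ι → (ℕ → Finset V) → Finset (ℕ × 𝒟) := fun σ v =>
    ((range r) ×ˢ (univ : Finset 𝒟)).filter (fun o => 1 ≤ d o.1 ∧ o.2 ∈ Ds σ o.1 (v o.1))
  have hAscard : ∀ σ v, ((As σ v).card : ℝ) ≤ N := by
    intro σ v
    rw [hN]
    exact_mod_cast card_filter_le _ _
  have hgr : ∀ σ (v : ℕ → Finset V), ∃ E : Finset (ℕ × 𝒟), v ∈ S → (E ⊆ Om σ v ∧
      (((As σ v).filter (fun x => ∀ o ∈ E, ¬ inc σ v x o)).card : ℝ) ≤ η * N ∧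
      ∑ o ∈ E, cost σ o.1 ≤ Zc σ * N / (R σ * η)) := by
    intro σ v
    by_cases hv : v ∈ S
    · have hch := hS v hv
      obtain ⟨E, h1, h2, h3⟩ := greedyW (Om σ v) (As σ v) (inc σ v)
        (fun o => (lam σ o.1 v).w o.2) (fun o => cost σ o.1)
        (fun o => (lam σ o.1 v).nn o.2)
        (fun o => le_trans (Nat.cast_nonneg _) (hcd σ o.1)) (R σ) (hR σ) (by
          intro x hx
          rw [mem_filter] at hx
          refine hx.2.trans ?_
          have hxr : ent v x < r := hch.ent_lt_r hx.1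
          have h4 : ∑ o ∈ Om σ v, (lam σ o.1 v).w o.2 * ind (inc σ v x o)
              = ∑ i ∈ range r, ∑ D, (if 1 ≤ d i ∧ D ∈ Ds σ i (v i) then
                (lam σ i v).w D * ind (inc σ v x (i, D)) else 0) := by
            rw [Finset.sum_filter, Finset.sum_product]
          rw [h4]
          unfold covA
          calc _ ≤ ∑ i' ∈ (range (ent v x + 1)).filter (fun i' => i' / t σ = ent v x / t σ),
                ∑ D, (if 1 ≤ d i' ∧ D ∈ Ds σ i' (v i') then
                (lam σ i' v).w D * ind (inc σ v x (i', D)) else 0) := by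
                apply sum_le_sum
                intro i hi
                rw [mem_filter, mem_range] at hi
                unfold ex
                apply sum_le_sum
                intro D _
                beta_reduce
                by_cases hD : (lam σ i v).w D = 0
                · rw [hD, zero_mul]
                  split_ifs <;> simp
                · have h5 := hlam v hv σ i D hD
                  by_cases hx' : x ∈ Zf σ i (v i) D
                  · have h6 := hA v hv σ i (by omega) D h5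
                    have h7 : 1 ≤ d i := by
                      by_contra h0
                      have h8 : d i = 0 := by omega
                      rw [h8, Nat.cast_zero, mul_zero] at h6
                      have h9 : 0 < (Zf σ i (v i) D).card := Finset.card_pos.2 ⟨x, hx'⟩
                      have h10 : (0 : ℝ) < (Zf σ i (v i) D).card := by exact_mod_cast h9
                      linarith
                    rw [if_pos ⟨h7, h5⟩, ind_true hx',
                      ind_true (show inc σ v x (i, D) from ⟨by change i ≤ ent v x; omega, hi.2, hx'⟩)]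
                  · rw [ind_false hx', mul_zero]
                    split_ifs
                    · exact mul_nonneg ((lam σ i v).nn D) (ind_nonneg _)
                    · exact le_rfl
            _ ≤ _ := by
                apply Finset.sum_le_sum_of_subset_of_nonneg
                · intro i hi
                  rw [mem_filter, mem_range] at hi
                  rw [mem_range]; omega
                · intro i _ _
                  apply sum_nonneg
                  intro D _
                  split_ifs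
                  · exact mul_nonneg ((lam σ i v).nn D) (ind_nonneg _)
                  · exact le_rfl) N η (hAscard σ v) hη (Zc σ * N) (mul_pos (hZc σ) hNpos) (by
          refine le_trans ?_ (hcost σ)
          have h4 : ∑ o ∈ Om σ v, (lam σ o.1 v).w o.2 * cost σ o.1
              = ∑ i ∈ range r, ∑ D, (if 1 ≤ d i ∧ D ∈ Ds σ i (v i) then
                (lam σ i v).w D * cost σ i else 0) := by
            rw [Finset.sum_filter, Finset.sum_product]
          rw [h4]
          apply sum_le_sum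
          intro i _
          calc _ ≤ ∑ D, (lam σ i v).w D * cost σ i := by
                apply sum_le_sum
                intro D _
                have h5 : 0 ≤ (lam σ i v).w D * cost σ i :=
                  mul_nonneg ((lam σ i v).nn D) (le_trans (Nat.cast_nonneg _) (hcd σ i))
                split_ifs
                · exact le_rfl
                · exact h5
            _ = cost σ i := by rw [← Finset.sum_mul, (lam σ i v).tot, one_mul])
      exact ⟨E, fun _ => ⟨h1, by convert h2, h3⟩⟩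
    · exact ⟨∅, fun h => absurd h hv⟩
  choose E hE using hgr
  let Es : ι → (ℕ → Finset V) → ℕ → Finset 𝒟 := fun σ v i => univ.filter (fun D => (i, D) ∈ E σ v)
  have hEsum : ∀ σ, ∀ v ∈ S, ∀ f : ℕ → 𝒟 → ℝ,
      ∑ o ∈ E σ v, f o.1 o.2 = ∑ i ∈ range r, ∑ D ∈ Es σ v i, f i D := by
    intro σ v hv f
    have h1 : E σ v = ((range r) ×ˢ (univ : Finset 𝒟)).filter (fun o => o ∈ E σ v) := by
      ext o
      rw [mem_filter]
      constructor
      · intro ho
        exact ⟨(mem_filter.1 ((hE σ v hv).1 ho)).1, ho⟩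
      · intro ho; exact ho.2
    rw [h1, Finset.sum_filter, Finset.sum_product]
    apply Finset.sum_congr rfl
    intro i _
    simp only [Es]
    rw [Finset.sum_filter]
  have hEs1 : ∀ σ, ∀ v ∈ S, ∀ i, Es σ v i ⊆ Ds σ i (v i) := by
    intro σ v hv i D hD
    simp only [Es, mem_filter, mem_univ, true_and] at hD
    exact (mem_filter.1 ((hE σ v hv).1 hD)).2.2
  have hEs2 : ∀ σ, ∀ v ∈ S, ∀ i, (Es σ v i).Nonempty → 1 ≤ d i := by
    intro σ v hv i ⟨D, hD⟩
    simp only [Es, mem_filter, mem_univ, true_and] at hD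
    exact (mem_filter.1 ((hE σ v hv).1 hD)).2.1
  have hEcost : ∀ σ, ∀ v ∈ S, ∑ i ∈ range r, ((Es σ v i).card : ℝ) * cost σ i
      ≤ Zc σ / (R σ * η) * N := by
    intro σ v hv
    have h1 := (hE σ v hv).2.2
    rw [hEsum σ v hv (fun i _ => cost σ i)] at h1
    simp only [sum_const, nsmul_eq_mul] at h1
    refine h1.trans (le_of_eq ?_)
    ring
  have hEcard : ∀ σ, ∀ v ∈ S, ∀ i < r, (Es σ v i).card ≤ Cn * (w \ u).card := by
    intro σ v hv i hi
    have h1 := hEcost σ v hv
    have hterm : ∀ j, ((Es σ v j).card : ℝ) ≤ ((Es σ v j).card : ℝ) * cost σ j := by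
      intro j
      rcases (Es σ v j).eq_empty_or_nonempty with he | hne
      · rw [he]; simp
      · have h2 := hEs2 σ v hv j hne
        have h3 : (1 : ℝ) ≤ cost σ j := le_trans (by exact_mod_cast h2) (hcd σ j)
        exact le_mul_of_one_le_right (Nat.cast_nonneg _) h3
    have h2 : ((Es σ v i).card : ℝ) ≤ ∑ j ∈ range r, ((Es σ v j).card : ℝ) * cost σ j := by
      refine (hterm i).trans ?_
      exact Finset.single_le_sum (f := fun j => ((Es σ v j).card : ℝ) * cost σ j)
        (fun j _ => le_trans (Nat.cast_nonneg _) (hterm j)) (mem_range.2 hi)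
    have h3 : Zc σ / (R σ * η) * N ≤ Cn * N := mul_le_mul_of_nonneg_right (hCn σ) hNpos.le
    have h4 : ((Es σ v i).card : ℝ) ≤ ((Cn * (w \ u).card : ℕ) : ℝ) := by
      push_cast
      rw [← hN]
      linarith
    exact_mod_cast h4
  -- the bad set
  let Gs : (ℕ → Finset V) → Finset V := fun v => GdS t Zi Zf lam R u w v
  let B0 : (ℕ → Finset V) → Finset V := fun v =>
    (w \ u).filter (fun x => T0 ≤ (App0 r Zi v x).card)
  let B1 : ι → (ℕ → Finset V) → Finset V := fun σ v =>
    (As σ v).filter (fun x => ∀ o ∈ E σ v, ¬ inc σ v x o)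
  let B2 : ι → (ℕ → Finset V) → Finset V := fun σ v =>
    (w \ u).filter (fun x => T σ ≤ (App r Zf Es σ v x).card)
  let Bv : (ℕ → Finset V) → Finset V := fun v =>
    Gs v ∪ B0 v ∪ (univ.biUnion (fun σ => B1 σ v)) ∪ (univ.biUnion (fun σ => B2 σ v))
  have hBsub : ∀ v, Bv v ⊆ w \ u := by
    intro v
    apply union_subset
    · apply union_subset
      · apply union_subset
        · exact filter_subset _ _
        · exact filter_subset _ _
      · rw [Finset.biUnion_subset]
        intro σ _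
        exact (filter_subset _ _).trans (filter_subset _ _)
    · rw [Finset.biUnion_subset]
      intro σ _
      exact filter_subset _ _
  have hB0 : ∀ v ∈ S, ((B0 v).card : ℝ) ≤ η * N := by
    intro v hv
    apply markov_card (w \ u) (fun x => (App0 r Zi v x).card) T0 hT00
    calc _ ≤ ∑ i ∈ range r, ((Zi i (v i)).card : ℝ) := sum_App0 v _
      _ ≤ ∑ i ∈ range r, A0 * d i := sum_le_sum (fun i hi => hA0 v hv i (mem_range.1 hi))
      _ = A0 * ∑ i ∈ range r, (d i : ℝ) := by rw [Finset.mul_sum]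
      _ ≤ A0 * N := mul_le_mul_of_nonneg_left hdN hA00
      _ ≤ (η * T0) * N := mul_le_mul_of_nonneg_right hT0 hNpos.le
      _ = η * N * T0 := by ring
  have hB2 : ∀ σ, ∀ v ∈ S, ((B2 σ v).card : ℝ) ≤ η * N := by
    intro σ v hv
    apply markov_card (w \ u) (fun x => (App r Zf Es σ v x).card) (T σ) (hT0' σ)
    calc _ ≤ ∑ i ∈ range r, ∑ D ∈ Es σ v i, ((Zf σ i (v i) D).card : ℝ) := sum_App Es σ v _
      _ ≤ ∑ i ∈ range r, ∑ D ∈ Es σ v i, A σ * cost σ i := by
          apply sum_le_sum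
          intro i hi
          apply sum_le_sum
          intro D hD
          refine (hA v hv σ i (mem_range.1 hi) D (hEs1 σ v hv i hD)).trans ?_
          exact mul_le_mul_of_nonneg_left (hcd σ i) (hAn σ)
      _ = A σ * ∑ i ∈ range r, ((Es σ v i).card : ℝ) * cost σ i := by
          simp only [sum_const, nsmul_eq_mul]
          rw [Finset.mul_sum]
          exact Finset.sum_congr rfl (fun i _ => by ring)
      _ ≤ A σ * (Zc σ / (R σ * η) * N) := mul_le_mul_of_nonneg_left (hEcost σ v hv) (hAn σ)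
      _ = (A σ * (Zc σ / (R σ * η))) * N := by ring
      _ ≤ (η * T σ) * N := mul_le_mul_of_nonneg_right (hT σ) hNpos.le
      _ = η * N * T σ := by ring
  have hBcard : ∀ v ∈ S, ((Bv v).card : ℝ) ≤ (γ + (1 + 2 * Fintype.card ι) * η) * N := by
    intro v hv
    have h1 : ((univ.biUnion (fun σ => B1 σ v)).card : ℝ) ≤ Fintype.card ι * (η * N) := by
      calc ((univ.biUnion (fun σ => B1 σ v)).card : ℝ) ≤ ∑ σ : ι, ((B1 σ v).card : ℝ) := by
            exact_mod_cast card_biUnion_le
        _ ≤ ∑ σ : ι, η * N := sum_le_sum (fun σ _ => (hE σ v hv).2.1)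
        _ = Fintype.card ι * (η * N) := by simp
    have h2 : ((univ.biUnion (fun σ => B2 σ v)).card : ℝ) ≤ Fintype.card ι * (η * N) := by
      calc ((univ.biUnion (fun σ => B2 σ v)).card : ℝ) ≤ ∑ σ : ι, ((B2 σ v).card : ℝ) := by
            exact_mod_cast card_biUnion_le
        _ ≤ ∑ σ : ι, η * N := sum_le_sum (fun σ _ => hB2 σ v hv)
        _ = Fintype.card ι * (η * N) := by simp
    have h3 : ((Bv v).card : ℝ) ≤ ((Gs v).card : ℝ) + (B0 v).card +
        (univ.biUnion (fun σ => B1 σ v)).card + (univ.biUnion (fun σ => B2 σ v)).card := by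
      have h4 : (Bv v).card ≤ (Gs v).card + (B0 v).card +
          (univ.biUnion (fun σ => B1 σ v)).card + (univ.biUnion (fun σ => B2 σ v)).card := by
        refine (card_union_le _ _).trans ?_
        apply Nat.add_le_add_right
        refine (card_union_le _ _).trans ?_
        apply Nat.add_le_add_right
        exact card_union_le _ _
      exact_mod_cast h4
    have h5 := hγ v hv
    have h6 := hB0 v hv
    have h7 : ((Gs v).card : ℝ) ≤ γ * N := h5
    nlinarith
  -- the codes of single elements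
  have hcode : ∀ v ∈ S, ∀ x ∈ w \ u, ∃ cl : Option ι, ∃ lb : ℕ × ℕ,
      lb ∈ labs s T0 T t (Bv v) x cl ∧
      (x ∈ Bv v → ent v x % s = lb.1) ∧
      (x ∉ Bv v → cl = none → x ∈ Zi (ent v x) (v (ent v x)) ∧ (App0 r Zi v x).card = lb.1) ∧
      (x ∉ Bv v → ∀ σ, cl = some σ → ent v x % t σ = lb.2 ∧
        ∃ i ∈ App r Zf Es σ v x, i ≤ ent v x ∧ i / t σ = ent v x / t σ ∧
        ((App r Zf Es σ v x).filter (fun i' => i' < i)).card = lb.1) := by
    intro v hv x hx
    by_cases hxB : x ∈ Bv v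
    · refine ⟨none, (ent v x % s, 0), ?_, fun _ => rfl, fun h => absurd hxB h,
        fun h => absurd hxB h⟩
      simp only [labs, hxB, if_true, mem_product, mem_range, mem_singleton]
      exact ⟨Nat.mod_lt _ hs, trivial⟩
    · have hxG : x ∉ Gs v := fun h => hxB (mem_union_left _ (mem_union_left _ (mem_union_left _ h)))
      have hxB0 : x ∉ B0 v := fun h =>
        hxB (mem_union_left _ (mem_union_left _ (mem_union_right _ h)))
      have hxB1 : ∀ σ, x ∉ B1 σ v := fun σ h =>
        hxB (mem_union_left _ (mem_union_right _ (mem_biUnion.2 ⟨σ, mem_univ _, h⟩)))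
      have hxB2 : ∀ σ, x ∉ B2 σ v := fun σ h =>
        hxB (mem_union_right _ (mem_biUnion.2 ⟨σ, mem_univ _, h⟩))
      by_cases hz : x ∈ Zi (ent v x) (v (ent v x))
      · refine ⟨none, ((App0 r Zi v x).card, 0), ?_, fun h => absurd h hxB,
          fun _ _ => ⟨hz, rfl⟩, fun _ σ h => by cases h⟩
        simp only [labs, hxB, if_false, mem_product, mem_range, mem_singleton]
        refine ⟨?_, trivial⟩
        by_contra hge
        push Not at hge
        exact hxB0 (mem_filter.2 ⟨hx, hge⟩)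
      · have hex : ∃ σ, R σ ≤ covA t Zf lam σ v (ent v x) x := by
          by_contra hno
          push Not at hno
          exact hxG (mem_filter.2 ⟨hx, hz, hno⟩)
        obtain ⟨σ, hσ⟩ := hex
        have hxA : x ∈ As σ v := mem_filter.2 ⟨hx, hσ⟩
        have hcov : ∃ o ∈ E σ v, inc σ v x o := by
          by_contra hno
          push Not at hno
          exact hxB1 σ (mem_filter.2 ⟨hxA, hno⟩)
        obtain ⟨⟨i, D⟩, ho, hinc1, hinc2, hinc3⟩ := hcov
        simp only at hinc1 hinc2 hinc3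
        have hiApp : i ∈ App r Zf Es σ v x := by
          rw [App, mem_filter, mem_range]
          refine ⟨lt_of_le_of_lt hinc1 ((hS v hv).ent_lt_r hx), D, ?_, hinc3⟩
          simp only [Es, mem_filter, mem_univ, true_and]
          exact ho
        refine ⟨some σ, (((App r Zf Es σ v x).filter (fun i' => i' < i)).card, ent v x % t σ), ?_,
          fun h => absurd h hxB, fun _ h => (by cases h), ?_⟩
        · simp only [labs, hxB, if_false, mem_product, mem_range]
          refine ⟨?_, Nat.mod_lt _ (ht σ)⟩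
          have h1 : ((App r Zf Es σ v x).filter (fun i' => i' < i)).card
              < (App r Zf Es σ v x).card := by
            apply Finset.card_lt_card
            rw [Finset.ssubset_iff_of_subset (filter_subset _ _)]
            exact ⟨i, hiApp, by simp⟩
          have h2 : (App r Zf Es σ v x).card < T σ := by
            by_contra hge
            push Not at hge
            exact hxB2 σ (mem_filter.2 ⟨hx, hge⟩)
          omega
        · intro _ σ' hσ'
          have : σ = σ' := Option.some.inj hσ'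
          subst this
          exact ⟨rfl, i, hiApp, hinc1, hinc2, rfl⟩
  have hcode' : ∀ (v : ℕ → Finset V) (x : V), ∃ z : Option ι × (ℕ × ℕ), v ∈ S → x ∈ w \ u →
      z.2 ∈ labs s T0 T t (Bv v) x z.1 ∧
      (x ∈ Bv v → ent v x % s = z.2.1) ∧
      (x ∉ Bv v → z.1 = none → x ∈ Zi (ent v x) (v (ent v x)) ∧ (App0 r Zi v x).card = z.2.1) ∧
      (x ∉ Bv v → ∀ σ, z.1 = some σ → ent v x % t σ = z.2.2 ∧
        ∃ i ∈ App r Zf Es σ v x, i ≤ ent v x ∧ i / t σ = ent v x / t σ ∧
        ((App r Zf Es σ v x).filter (fun i' => i' < i)).card = z.2.1) := by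
    intro v x
    by_cases h : v ∈ S ∧ x ∈ w \ u
    · obtain ⟨cl, lb, h1⟩ := hcode v h.1 x h.2
      exact ⟨(cl, lb), fun _ _ => h1⟩
    · exact ⟨(none, (0, 0)), fun h1 h2 => absurd ⟨h1, h2⟩ h⟩
  choose cd hcd' using hcode'
  -- first pigeonhole
  let code1 : (ℕ → Finset V) → Finset V × (({x // x ∈ w \ u} → Option ι) × (ι × Fin r → ℕ)) :=
    fun v => (Bv v, (fun x => (cd v x.1).1), fun z => (Es z.1 v z.2).card)
  obtain ⟨v₀, hv₀⟩ := hSne
  have hcode1 : ∀ v ∈ S, code1 v ∈ (w \ u).powerset ×ˢ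
      ((univ : Finset ({x // x ∈ w \ u} → Option ι)) ×ˢ
        Fintype.piFinset (fun _ : ι × Fin r => range (Cn * (w \ u).card + 1))) := by
    intro v hv
    simp only [code1, mem_product, mem_powerset, mem_univ, true_and, Fintype.mem_piFinset,
      mem_range]
    refine ⟨hBsub v, ?_⟩
    intro z
    have := hEcard z.1 v hv z.2 z.2.2
    omega
  obtain ⟨⟨B, cls', cc⟩, -, hcard1⟩ := pigeon S _ code1 hcode1 ⟨code1 v₀, hcode1 v₀ hv₀⟩
  set S1 := S.filter (fun v => code1 v = (B, cls', cc)) with hS1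
  have hS1' : ∀ v ∈ S1, v ∈ S ∧ Bv v = B ∧ (∀ x (hx : x ∈ w \ u), (cd v x).1 = cls' ⟨x, hx⟩) ∧
      ∀ σ i (hi : i < r), (Es σ v i).card = cc (σ, ⟨i, hi⟩) := by
    intro v hv
    rw [hS1, mem_filter] at hv
    simp only [code1, Prod.mk.injEq] at hv
    obtain ⟨h1, h2, h3, h4⟩ := hv
    refine ⟨h1, h2, fun x hx => congrFun h3 ⟨x, hx⟩, fun σ i hi => congrFun h4 (σ, ⟨i, hi⟩)⟩
  have hS1ne : S1.Nonempty := by
    rw [← Finset.card_pos]
    by_contra h0
    have h0' : S1.card = 0 := by omega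
    rw [h0', mul_zero] at hcard1
    have : 0 < S.card := Finset.card_pos.2 ⟨v₀, hv₀⟩
    omega
  have hcard1' : S.card ≤ (2 ^ (w \ u).card * ((Fintype.card ι + 1) ^ (w \ u).card *
      (Cn * (w \ u).card + 1) ^ (Fintype.card ι * r))) * S1.card := by
    refine le_trans hcard1 (Nat.mul_le_mul_right _ (le_of_eq ?_))
    rw [card_product, card_powerset, card_product, Fintype.card_piFinset]
    simp
  -- second pigeonhole
  let cls : V → Option ι := fun x => if h : x ∈ w \ u then cls' ⟨x, h⟩ else none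
  let code2 : (ℕ → Finset V) → ({x // x ∈ w \ u} → ℕ × ℕ) := fun v x => (cd v x.1).2
  have hcode2 : ∀ v ∈ S1, code2 v ∈
      Fintype.piFinset (fun x : {x // x ∈ w \ u} => labs s T0 T t B x.1 (cls x.1)) := by
    intro v hv
    obtain ⟨h1, h2, h3, h4⟩ := hS1' v hv
    rw [Fintype.mem_piFinset]
    intro x
    have h5 := (hcd' v x.1 h1 x.2).1
    rw [h2, h3 x.1 x.2] at h5
    simp only [code2, cls, x.2, dif_pos]
    exact h5
  obtain ⟨v₁, hv₁⟩ := hS1ne
  obtain ⟨lab', -, hcard2⟩ := pigeon S1 _ code2 hcode2 ⟨code2 v₁, hcode2 v₁ hv₁⟩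
  set S2 := S1.filter (fun v => code2 v = lab') with hS2
  have hS2' : ∀ v ∈ S2, v ∈ S1 ∧ ∀ x (hx : x ∈ w \ u), (cd v x).2 = lab' ⟨x, hx⟩ := by
    intro v hv
    rw [hS2, mem_filter] at hv
    exact ⟨hv.1, fun x hx => congrFun hv.2 ⟨x, hx⟩⟩
  have hS2S : ∀ v ∈ S2, v ∈ S := fun v hv => (hS1' v (hS2' v hv).1).1
  let lab : V → ℕ × ℕ := fun x => if h : x ∈ w \ u then lab' ⟨x, h⟩ else (0, 0)
  have hlabcard : ∀ x, (labs s T0 T t B x (cls x)).card ≤ (if x ∈ B then s else 1) * M := by
    intro x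
    simp only [labs]
    split_ifs with h1
    · rw [card_product, card_range, card_singleton, mul_one]
      exact Nat.le_mul_of_pos_right _ hM1
    · rw [one_mul]
      rcases cls x with _ | σ
      · simp only [card_product, card_range, card_singleton, mul_one]
        exact hM0
      · simp only [card_product, card_range]
        exact hM σ
  have hcardpi : (Fintype.piFinset (fun x : {x // x ∈ w \ u} =>
      labs s T0 T t B x.1 (cls x.1))).card ≤ s ^ B.card * M ^ (w \ u).card := by
    rw [Fintype.card_piFinset]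
    rw [Finset.prod_coe_sort (w \ u) (fun x => (labs s T0 T t B x (cls x)).card)]
    calc ∏ x ∈ w \ u, (labs s T0 T t B x (cls x)).card
        ≤ ∏ x ∈ w \ u, ((if x ∈ B then s else 1) * M) :=
          Finset.prod_le_prod (fun _ _ => Nat.zero_le _) (fun x _ => hlabcard x)
      _ = s ^ ((w \ u).filter (fun x => x ∈ B)).card * M ^ (w \ u).card := by
          rw [Finset.prod_mul_distrib, Finset.prod_const, Finset.prod_ite]
          simp
      _ ≤ s ^ B.card * M ^ (w \ u).card := by
          apply Nat.mul_le_mul_right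
          apply Nat.pow_le_pow_right hs
          apply card_le_card
          intro x hx
          exact (mem_filter.1 hx).2
  have hcard3 : S1.card ≤ s ^ B.card * M ^ (w \ u).card * S2.card :=
    le_trans hcard2 (Nat.mul_le_mul_right _ hcardpi)
  -- the decoding bound
  let cf : ι → ℕ → ℕ := fun σ i => if h : i < r then cc (σ, ⟨i, h⟩) else 0
  have hcore := core_count2 (F := F) (r := r) (s := s) (t := t) (u := u) (w := w) (Zi := Zi)
    (Zf := Zf) (E := Es) (B := B) (cls := cls) (lab := lab) S2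
    (fun v hv => hS v (hS2S v hv)) hs q (fun v hv => hq v (hS2S v hv))
    (fun v hv => hZi v (hS2S v hv))
    (by
      intro v hv
      obtain ⟨hv1, hlabv⟩ := hS2' v hv
      obtain ⟨hvS, hvB, hvc, hvE⟩ := hS1' v hv1
      refine ⟨?_, ?_, ?_⟩
      · intro x hx hxB
        have h1 := hcd' v x hvS hx
        rw [hvB] at h1
        simp only [lab, hx, dif_pos]
        rw [← hlabv x hx]
        exact h1.2.1 hxB
      · intro x hx hxB hcl
        have h1 := hcd' v x hvS hx
        rw [hvB] at h1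
        simp only [cls, hx, dif_pos] at hcl
        rw [← hvc x hx] at hcl
        simp only [lab, hx, dif_pos]
        rw [← hlabv x hx]
        exact h1.2.2.1 hxB hcl
      · intro x hx hxB σ hcl
        have h1 := hcd' v x hvS hx
        rw [hvB] at h1
        simp only [cls, hx, dif_pos] at hcl
        rw [← hvc x hx] at hcl
        simp only [lab, hx, dif_pos]
        rw [← hlabv x hx]
        exact h1.2.2.2 hxB σ hcl)
    Ds (fun v hv σ i => hEs1 σ v (hS2S v hv) i) cf
    (by
      intro v hv σ i hi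
      simp only [cf, hi, dif_pos]
      exact (hS1' v (hS2' v hv).1).2.2.2 σ i hi) Bn
    (by
      intro v hv σ i hi hne
      apply hBn v (hS2S v hv) σ i hi
      apply hEs2 σ v (hS2S v hv) i
      rw [← Finset.card_pos]
      simp only [cf, hi, dif_pos] at hne
      rw [(hS1' v (hS2' v hv).1).2.2.2 σ i hi]
      omega)
  -- real estimates
  obtain ⟨hv₁S, hv₁B, hv₁c, hv₁E⟩ := hS1' v₁ hv₁
  have hcf : ∀ σ, ∀ i < r, (cf σ i : ℝ) = ((Es σ v₁ i).card : ℝ) := by
    intro σ i hi
    simp only [cf, hi, dif_pos]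
    rw [hv₁E σ i hi]
  have hprod : ((∏ i ∈ range r, ∏ σ, Bn σ i ^ cf σ i : ℕ) : ℝ)
      ≤ 2 ^ ((∑ σ, Zc σ / (R σ * η)) * N) := by
    push_cast
    calc ∏ i ∈ range r, ∏ σ, (Bn σ i : ℝ) ^ cf σ i
        ≤ ∏ i ∈ range r, ∏ σ, (2 : ℝ) ^ (((Es σ v₁ i).card : ℝ) * cost σ i) := by
          apply Finset.prod_le_prod (fun i _ => Finset.prod_nonneg (fun σ _ => by positivity))
          intro i hi
          rw [mem_range] at hi
          apply Finset.prod_le_prod (fun σ _ => by positivity)
          intro σ _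
          by_cases h0 : cf σ i = 0
          · have h1 := hcf σ i hi
            rw [h0] at h1 ⊢
            rw [← h1]
            simp
          · have h1 : 1 ≤ d i := by
              apply hEs2 σ v₁ hv₁S i
              rw [← Finset.card_pos]
              have h2 := hcf σ i hi
              have h3 : cf σ i = (Es σ v₁ i).card := by exact_mod_cast h2
              omega
            calc (Bn σ i : ℝ) ^ cf σ i ≤ (2 ^ cost σ i) ^ cf σ i :=
                  pow_le_pow_left₀ (Nat.cast_nonneg _) (hBc σ i hi h1) _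
              _ = 2 ^ (((Es σ v₁ i).card : ℝ) * cost σ i) := by
                  rw [← hcf σ i hi, ← Real.rpow_natCast, ← Real.rpow_mul (by norm_num), mul_comm]
      _ = 2 ^ (∑ i ∈ range r, ∑ σ, ((Es σ v₁ i).card : ℝ) * cost σ i) := by
          rw [Real.rpow_sum_of_pos (by norm_num : (0 : ℝ) < 2)]
          apply Finset.prod_congr rfl
          intro i _
          rw [Real.rpow_sum_of_pos (by norm_num : (0 : ℝ) < 2)]
      _ ≤ 2 ^ ((∑ σ, Zc σ / (R σ * η)) * N) := by
          apply Real.rpow_le_rpow_of_exponent_le (by norm_num)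
          rw [Finset.sum_comm, Finset.sum_mul]
          exact sum_le_sum (fun σ _ => hEcost σ v₁ hv₁S)
  have hBreal : ((s ^ B.card : ℕ) : ℝ) ≤ (s : ℝ) ^ ((γ + (1 + 2 * Fintype.card ι) * η) * N) := by
    rw [Nat.cast_pow, ← Real.rpow_natCast]
    apply Real.rpow_le_rpow_of_exponent_le
    · exact_mod_cast hs
    · rw [← hv₁B]; exact hBcard v₁ hv₁S
  have hS2card : (S2.card : ℝ) ≤ 2 ^ ((∑ σ, Zc σ / (R σ * η)) * N) := by
    refine le_trans ?_ hprod
    exact_mod_cast hcore
  obtain ⟨c1, hc1⟩ : ∃ c1 : ℕ, c1 = 2 ^ (w \ u).card * ((Fintype.card ι + 1) ^ (w \ u).card *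
      (Cn * (w \ u).card + 1) ^ (Fintype.card ι * r)) := ⟨_, rfl⟩
  have hc1R : (c1 : ℝ) = (2 ^ (w \ u).card * ((Fintype.card ι + 1) ^ (w \ u).card *
      (Cn * (w \ u).card + 1) ^ (Fintype.card ι * r))) := by
    rw [hc1]; push_cast; rfl
  rw [← hc1] at hcard1'
  rw [← hc1R]
  obtain ⟨X, hX⟩ : ∃ X : ℝ, X = (s : ℝ) ^ ((γ + (1 + 2 * Fintype.card ι) * η) * N) := ⟨_, rfl⟩
  obtain ⟨Y, hY⟩ : ∃ Y : ℝ, Y = (2 : ℝ) ^ ((∑ σ, Zc σ / (R σ * η)) * N) := ⟨_, rfl⟩
  rw [← hX, ← hY]
  rw [← hX] at hBreal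
  rw [← hY] at hS2card
  have hX0 : 0 ≤ X := le_trans (Nat.cast_nonneg _) hBreal
  have hM0' : (0 : ℝ) ≤ (M : ℝ) ^ (w \ u).card := pow_nonneg (Nat.cast_nonneg _) _
  have h1 : (S.card : ℝ) ≤ c1 * (S1.card : ℝ) := by exact_mod_cast hcard1'
  have h2 : (S1.card : ℝ) ≤ ((s ^ B.card : ℕ) : ℝ) * (M : ℝ) ^ (w \ u).card * (S2.card : ℝ) := by
    exact_mod_cast hcard3
  have h3 : (S1.card : ℝ) ≤ X * (M : ℝ) ^ (w \ u).card * Y := by
    refine h2.trans ?_
    exact mul_le_mul (mul_le_mul_of_nonneg_right hBreal hM0') hS2card (Nat.cast_nonneg _)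
      (mul_nonneg hX0 hM0')
  calc (S.card : ℝ) ≤ c1 * (S1.card : ℝ) := h1
    _ ≤ c1 * (X * (M : ℝ) ^ (w \ u).card * Y) := mul_le_mul_of_nonneg_left h3 (Nat.cast_nonneg _)
    _ = c1 * (X * (M : ℝ) ^ (w \ u).card) * Y := by rw [mul_assoc (c1 : ℝ)]

end Pool.Agent.Helper884_Full
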