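import Pool.Agent.Helper884_Full.Global

/-!
# The total error and the contradiction
-/

set_option autoImplicit false
set_option linter.unusedSectionVars false

namespace Pool.Agent.Helper884_Full

open Finset
open Pool.Agent.Helper884_MultiScale (IsCh ent lt_blk blk_le blk_end_le div_eq_of_blk)

variable {V : Type*} [Fintype V] [DecidableEq V] {n : ℕ}
variable {S : Finset (ℕ → Finset V)} {le : ℕ → ℕ → Bool} {s : ℕ → ℕ} {ϑ ϑw : ℕ → ℝ}

lemma card_diff {F : Finset (Finset V)} {r : ℕ} {u w : Finset V} {v : ℕ → Finset V}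
    (hv : IsCh F r u w v) {p : ℕ → ℕ} (hp : ∀ i, (v i).card = p i) {i j : ℕ} (hij : i ≤ j) :
    ((v j \ v i).card : ℝ) = (p j : ℝ) - p i := by
  have h1 : v i ⊆ v j := hv.1 hij
  rw [card_sdiff_of_subset h1, Nat.cast_sub (card_le_card h1), hp, hp]

lemma p_mono {F : Finset (Finset V)} {r : ℕ} {u w : Finset V} {v : ℕ → Finset V}
    (hv : IsCh F r u w v) {p : ℕ → ℕ} (hp : ∀ i, (v i).card = p i) :
    Monotone (fun i => (p i : ℝ)) := by
  intro i j hij
  have := card_le_card (hv.1 hij)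
  rw [hp, hp] at this
  change (p i : ℝ) ≤ p j
  exact_mod_cast this

lemma p_total {F : Finset (Finset V)} {r : ℕ} {u w : Finset V} {v : ℕ → Finset V}
    (hv : IsCh F r u w v) {p : ℕ → ℕ} (hp : ∀ i, (v i).card = p i) :
    (p r : ℝ) - p 0 = ((w \ u).card : ℝ) := by
  rw [← card_diff hv hp (Nat.zero_le r), hv.2.1, hv.2.2.1 r le_rfl]

theorem err_sum {F : Finset (Finset V)} {K : ℕ} {u w : Finset V}
    (hS : Closed S) (hch : ∀ v ∈ S, IsCh F (2 ^ K) u w v)
    {p : ℕ → ℕ} (hp : ∀ v ∈ S, ∀ i, (v i).card = p i)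
    (hs : Monotone s) (hsK : s (n + 1) ≤ K) (hs0 : s 0 = 0)
    (hle : ∀ a b, le a b → a ≤ b) (htrans : ∀ a b c, le a b → le b c → le a c)
    (hϑ : ∀ j, 0 < ϑ j) (hϑw : ∀ j, 0 < ϑw j) {R : ℕ → ℝ} (hR : ∀ l, 0 ≤ R l) {c1 c2 δ : ℝ}
    (h2 : ∀ j < n, ϑ j / ϑw j ≤ c2) (h1 : ∀ l < n, ϑ l * R l ≤ c1)
    (h1' : ∀ l < n, ϑ (l + 1) * 2 ^ (s (l + 1)) ≤ c1) (hc1 : 0 ≤ c1)
    (hδ : ∀ k, ∀ j < n, ∑ i ∈ range (2 ^ K), (caught n S le i (tm s i) k j (ϑ j) (tm s i (j + 1))
      - caught n S le i (tm s i) k j (ϑw j) (tm s i (n + 1))) ≤ δ * ((w \ u).card * S.card)) :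
    ∑ i ∈ range (2 ^ K), Err n S le i (tm s i) ϑ ϑw (NC n S le s ϑw R i)
      ≤ n * (n * (δ + c2) + n * c1 + n * c1) * ((w \ u).card * S.card) := by
  rcases S.eq_empty_or_nonempty with rfl | ⟨v₀, hv₀⟩
  · simp [Err]
  have hmono : ∀ v ∈ S, Monotone v := fun v hv => (hch v hv).1
  set N : ℝ := ((w \ u).card : ℝ) with hN
  have hN0 : 0 ≤ N := Nat.cast_nonneg _
  have hSc : (0 : ℝ) ≤ S.card := Nat.cast_nonneg _
  have hpm := p_mono (hch v₀ hv₀) (hp v₀ hv₀)
  have hpt := p_total (hch v₀ hv₀) (hp v₀ hv₀)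
  let d : ℕ → ℝ := fun i => (p (i + 1) : ℝ) - p i
  have hd : ∀ i, ∀ v ∈ S, ((v (tm s i 0) \ v i).card : ℝ) ≤ d i := by
    intro i v hv
    have h3 : tm s i 0 = i + 1 := by simp [tm, hs0]
    rw [h3, card_diff (hch v hv) (hp v hv) (by omega)]
  have hd0 : ∀ i, 0 ≤ d i := by
    intro i
    have : (p i : ℝ) ≤ p (i + 1) := hpm (by omega)
    simp only [d]; linarith
  have hdsum : ∑ i ∈ range (2 ^ K), d i = N := by
    simp only [d]
    rw [Finset.sum_range_sub (fun i => (p i : ℝ)), hpt]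
  -- the three kinds of errors
  have hst : ∀ k, ∀ j < n, ∑ i ∈ range (2 ^ K), ∑ v ∈ S, ex (KK n S le i (tm s i) n v)
      (fun c => ∑ x, ind (stE n S le i (tm s i) ϑ ϑw k j v c x)) ≤ (δ + c2) * (N * S.card) := by
    intro k j hj
    calc _ ≤ ∑ i ∈ range (2 ^ K), ((caught n S le i (tm s i) k j (ϑ j) (tm s i (j + 1))
          - caught n S le i (tm s i) k j (ϑw j) (tm s i (n + 1))) + c2 * d i * S.card) := by
          apply sum_le_sum
          intro i _
          have h3 := st_ineq (le := le) hS hmono (tm_mono hs i) (le_tm s i 0) hle hϑ hϑw (hd i) k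
            (j := j) (by omega)
          have h4 : ϑ j / ϑw j * d i * S.card ≤ c2 * d i * S.card := by
            apply mul_le_mul_of_nonneg_right _ hSc
            exact mul_le_mul_of_nonneg_right (h2 j hj) (hd0 i)
          linarith
      _ = ∑ i ∈ range (2 ^ K), (caught n S le i (tm s i) k j (ϑ j) (tm s i (j + 1))
          - caught n S le i (tm s i) k j (ϑw j) (tm s i (n + 1))) + c2 * N * S.card := by
          rw [Finset.sum_add_distrib, ← hdsum, Finset.mul_sum, Finset.sum_mul]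
      _ ≤ (δ + c2) * (N * S.card) := by
          have := hδ k j hj
          linarith
  have hpE : ∀ k, ∀ l < n, ∑ i ∈ range (2 ^ K), ∑ v ∈ S, ex (KK n S le i (tm s i) n v)
      (fun c => ∑ x, ind (pE n S le i (tm s i) ϑ ϑw (NC n S le s ϑw R i) k l v c x))
      ≤ c1 * (N * S.card) := by
    intro k l hl
    calc _ ≤ ∑ i ∈ range (2 ^ K), (ϑ l * ∑ v ∈ S, ∑ x, ind (x ∈ v (tm s i (l + 1)) ∧ x ∉ v i ∧
          NC n S le s ϑw R i l k v x) * qq n S le i (tm s i) ϑw l k v x) := by
          apply sum_le_sum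
          intro i _
          exact p_ineq hS hmono (tm_mono hs i) (le_tm s i 0) hle htrans hϑ
            (NC n S le s ϑw R i) k hl (NC_dep hs hl k i)
      _ = ϑ l * ∑ v ∈ S, ∑ x, ∑ i ∈ range (2 ^ K), ind (x ∈ v (tm s i (l + 1)) ∧ x ∉ v i ∧
          NC n S le s ϑw R i l k v x) * qq n S le i (tm s i) ϑw l k v x := by
          rw [← Finset.mul_sum, Finset.sum_comm]
          congr 1
          apply Finset.sum_congr rfl
          intro v _
          rw [Finset.sum_comm]
      _ ≤ ϑ l * ∑ v ∈ S, ∑ x, R l * ind (x ∈ w \ u) := by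
          apply mul_le_mul_of_nonneg_left _ (hϑ l).le
          apply sum_le_sum
          intro v hv
          apply sum_le_sum
          intro x _
          exact sum_cov_le (hch v hv) (hR l) k x
      _ = (ϑ l * R l) * (N * S.card) := by
          simp only [← Finset.mul_sum, ← card_eq_sum_ind, sum_const, nsmul_eq_mul]
          ring
      _ ≤ c1 * (N * S.card) := mul_le_mul_of_nonneg_right (h1 l hl) (by positivity)
  have hfE : ∀ k : Fin n, ∀ l : Fin n, ¬ le k l → ∑ i ∈ range (2 ^ K), ∑ v ∈ S,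
      ex (KK n S le i (tm s i) n v) (fun c => ∑ x, ind (fE n S le i (tm s i) ϑ k l v c x))
      ≤ c1 * (N * S.card) := by
    intro k l hkl
    have hl := l.2
    calc _ ≤ ∑ i ∈ range (2 ^ K), (ϑ (l + 1) * ((p (be (s (l + 1)) i) : ℝ) - p i) * S.card) := by
          apply sum_le_sum
          intro i _
          exact f_ineq hS hmono (tm_mono hs i) (le_tm s i 0) hle htrans hϑ k l hkl (by
            intro v hv
            rw [card_diff (hch v hv) (hp v hv) (le_tm s i _)]
            exact le_rfl)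
      _ = ϑ (l + 1) * (∑ i ∈ range (2 ^ K), ((p (be (s (l + 1)) i) : ℝ) - p i)) * S.card := by
          rw [Finset.mul_sum, Finset.sum_mul]
      _ ≤ ϑ (l + 1) * (2 ^ (s (l + 1)) * N) * S.card := by
          apply mul_le_mul_of_nonneg_right _ hSc
          apply mul_le_mul_of_nonneg_left _ (hϑ _).le
          have h3 := sum_be hpm (m := s (l + 1)) (K := K) ((hs (by omega)).trans hsK)
          rw [hpt] at h3
          exact h3
      _ = (ϑ (l + 1) * 2 ^ (s (l + 1))) * (N * S.card) := by ring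
      _ ≤ c1 * (N * S.card) := mul_le_mul_of_nonneg_right (h1' l hl) (by positivity)
  -- the total
  unfold Err
  rw [Finset.sum_comm]
  calc _ ≤ ∑ k : Fin n, (∑ j ∈ range n, (δ + c2) * (N * S.card) +
        ∑ l ∈ range n, c1 * (N * S.card) + ∑ l : Fin n, c1 * (N * S.card)) := by
        apply sum_le_sum
        intro k _
        rw [Finset.sum_add_distrib, Finset.sum_add_distrib]
        apply add_le_add
        · apply add_le_add
          · rw [Finset.sum_comm]
            exact sum_le_sum (fun j hj => hst k j (mem_range.1 hj))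
          · rw [Finset.sum_comm]
            exact sum_le_sum (fun l hl => hpE k l (mem_range.1 hl))
        · rw [Finset.sum_comm]
          apply sum_le_sum
          intro l _
          by_cases hkl : le k l
          · simp only [hkl, if_true, sum_const_zero]
            positivity
          · simp only [hkl]
            exact hfE k l hkl
    _ = n * (n * (δ + c2) + n * c1 + n * c1) * (N * S.card) := by
        simp only [sum_const, card_univ, Fintype.card_fin, card_range, nsmul_eq_mul]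
        ring

/-- Too many good elements are impossible. -/
theorem good_contra {F : Finset (Finset V)} {K : ℕ} {u w : Finset V}
    (hS : Closed S) (hch : ∀ v ∈ S, IsCh F (2 ^ K) u w v)
    {p : ℕ → ℕ} (hp : ∀ v ∈ S, ∀ i, (v i).card = p i)
    (hs : Monotone s) (hsK : s (n + 1) ≤ K) (hs0 : s 0 = 0) (hn : 0 < n)
    (hle : ∀ a b, le a b → a ≤ b) (htrans : ∀ a b c, le a b → le b c → le a c)
    (hrefl : ∀ a, le a a) (hfree : NoCopy n le F)
    (hϑ : ∀ j, 0 < ϑ j) (hϑw : ∀ j, 0 < ϑw j) (hϑn : ϑw n = ϑ n)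
    {R : ℕ → ℝ} (hR : ∀ l, 0 ≤ R l) {c1 c2 δ φ : ℝ}
    (h2 : ∀ j < n, ϑ j / ϑw j ≤ c2) (h1 : ∀ l < n, ϑ l * R l ≤ c1)
    (h1' : ∀ l < n, ϑ (l + 1) * 2 ^ (s (l + 1)) ≤ c1) (hc1 : 0 ≤ c1)
    (hδ : ∀ k, ∀ j < n, ∑ i ∈ range (2 ^ K), (caught n S le i (tm s i) k j (ϑ j) (tm s i (j + 1))
      - caught n S le i (tm s i) k j (ϑw j) (tm s i (n + 1))) ≤ δ * ((w \ u).card * S.card))
    (hφ : 0 ≤ φ) (hsmall : n * (n * (δ + c2) + n * c1 + n * c1) < φ ^ n)
    (hSne : S.Nonempty) (hN : 0 < (w \ u).card)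
    (hgood : φ * ((w \ u).card * S.card) ≤ ∑ v ∈ S, ∑ i ∈ range (2 ^ K),
      ∑ x, ind (x ∈ v (i + 1) ∧ x ∉ v i ∧ Gd n S le s ϑw R i v x)) : False := by
  classical
  obtain ⟨v₀, hv₀⟩ := hSne
  have hmono : ∀ v ∈ S, Monotone v := fun v hv => (hch v hv).1
  set N : ℝ := ((w \ u).card : ℝ) with hNdef
  have hNpos : 0 < N := by rw [hNdef]; exact_mod_cast hN
  have hSc : (0 : ℝ) < S.card := by exact_mod_cast Finset.card_pos.2 ⟨v₀, hv₀⟩
  have hpm := p_mono (hch v₀ hv₀) (hp v₀ hv₀)
  have hpt := p_total (hch v₀ hv₀) (hp v₀ hv₀)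
  let d : ℕ → ℝ := fun i => (p (i + 1) : ℝ) - p i
  have h0 : ∀ i, tm s i 0 = i + 1 := fun i => by simp [tm, hs0]
  have hd : ∀ i, ∀ v ∈ S, ((v (tm s i 0) \ v i).card : ℝ) ≤ d i := by
    intro i v hv
    rw [h0, card_diff (hch v hv) (hp v hv) (by omega)]
  have hd0 : ∀ i, 0 ≤ d i := by
    intro i
    have : (p i : ℝ) ≤ p (i + 1) := hpm (by omega)
    simp only [d]; linarith
  have hdsum : ∑ i ∈ range (2 ^ K), d i = N := by
    simp only [d]
    rw [Finset.sum_range_sub (fun i => (p i : ℝ)), hpt]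
  let g : ℕ → (ℕ → Finset V) → ℝ := fun i v => gdE S i (tm s i) (Gd n S le s ϑw R i) v
  have hg0 : ∀ i v, 0 ≤ g i v := fun i v =>
    ex_nonneg (fun _ _ => sum_nonneg (fun _ _ => ind_nonneg _))
  have hgd : ∀ i, ∀ v ∈ S, g i v ≤ d i := by
    intro i v hv
    apply ex_le_const
    intro a ha
    obtain ⟨v', hv', h3, -, h5⟩ := Q_supp ⟨v, hv, rfl, rfl⟩ ha
    have h6 := hd i v' hv'
    rw [h3, h5, card_eq_sum_ind] at h6
    refine le_trans (sum_le_sum (fun x _ => ind_mono ?_)) h6
    intro h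
    exact mem_sdiff.2 ⟨h.1, h.2.1⟩
  -- the local inequalities
  have hloc : ∀ i, ∑ v ∈ S, (g i v) ^ n
      ≤ (d i) ^ (n - 1) * Err n S le i (tm s i) ϑ ϑw (NC n S le s ϑw R i) := by
    intro i
    apply local_main (i := i) (e := tm s i) hmono (tm_mono hs i) hle hrefl
      (fun v hv j => (hch v hv).2.2.2 j) hfree hϑn
    · intro v x hx
      exact hx.1
    · intro v x hx l hl k
      exact hx.2 l hl k
    · exact hd i
    · exact hd0 i
  -- the weights
  let W : ℝ := N * S.card
  have hW : 0 < W := mul_pos hNpos hSc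
  let wt : ℕ × (ℕ → Finset V) → ℝ := fun z => d z.1 / W
  let y : ℕ × (ℕ → Finset V) → ℝ := fun z => g z.1 z.2 / d z.1
  have hwt : ∑ z ∈ range (2 ^ K) ×ˢ S, wt z = 1 := by
    rw [Finset.sum_product]
    simp only [wt, sum_const, nsmul_eq_mul]
    rw [← Finset.mul_sum, ← Finset.sum_div, hdsum]
    simp only [W]
    field_simp
  have hjen := Real.pow_arith_mean_le_arith_mean_pow (range (2 ^ K) ×ˢ S) wt y
    (fun z _ => div_nonneg (hd0 _) hW.le) hwt
    (fun z hz => div_nonneg (hg0 _ _) (hd0 _)) n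
  have hwy : ∀ z ∈ range (2 ^ K) ×ˢ S, wt z * y z = g z.1 z.2 / W := by
    intro z hz
    rw [mem_product] at hz
    simp only [wt, y]
    by_cases h3 : d z.1 = 0
    · have h4 : g z.1 z.2 = 0 := le_antisymm (by have := hgd z.1 z.2 hz.2; linarith) (hg0 _ _)
      rw [h3, h4]; simp
    · field_simp
  have hwyn : ∀ z ∈ range (2 ^ K) ×ˢ S, wt z * y z ^ n ≤ (g z.1 z.2) ^ n / (d z.1) ^ (n - 1) / W := by
    intro z hz
    rw [mem_product] at hz
    simp only [wt, y]
    by_cases h3 : d z.1 = 0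
    · rw [h3]
      simp only [zero_div, zero_mul]
      exact div_nonneg (div_nonneg (pow_nonneg (hg0 _ _) _) (pow_nonneg le_rfl _)) hW.le
    · apply le_of_eq
      have h4 : (d z.1) ^ n = (d z.1) ^ (n - 1) * d z.1 := by
        rw [← pow_succ]; congr 1; omega
      rw [div_pow, h4]
      field_simp
  have hlow : φ ≤ ∑ z ∈ range (2 ^ K) ×ˢ S, wt z * y z := by
    rw [Finset.sum_congr rfl hwy, ← Finset.sum_div, Finset.sum_product, le_div_iff₀ hW]
    refine le_trans hgood (le_of_eq ?_)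
    rw [Finset.sum_comm]
    apply Finset.sum_congr rfl
    intro i _
    have h3 := sum_gdE hS (tm_mono hs i) (le_tm s i 0) (Gd n S le s ϑw R i) (Gd_dep hs i)
    simp only [h0] at h3
    exact h3.symm
  have hup : ∑ z ∈ range (2 ^ K) ×ˢ S, wt z * y z ^ n
      ≤ n * (n * (δ + c2) + n * c1 + n * c1) := by
    calc _ ≤ ∑ z ∈ range (2 ^ K) ×ˢ S, (g z.1 z.2) ^ n / (d z.1) ^ (n - 1) / W :=
          sum_le_sum hwyn
      _ = ∑ i ∈ range (2 ^ K), (∑ v ∈ S, (g i v) ^ n) / (d i) ^ (n - 1) / W := by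
          rw [Finset.sum_product]
          apply Finset.sum_congr rfl
          intro i _
          simp only [← Finset.sum_div]
      _ ≤ ∑ i ∈ range (2 ^ K), Err n S le i (tm s i) ϑ ϑw (NC n S le s ϑw R i) / W := by
          apply sum_le_sum
          intro i _
          apply div_le_div_of_nonneg_right _ hW.le
          have hErr0 : 0 ≤ Err n S le i (tm s i) ϑ ϑw (NC n S le s ϑw R i) := by
            unfold Err
            apply sum_nonneg
            intro k _
            apply add_nonneg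
            · apply add_nonneg
              · exact sum_nonneg (fun j _ => sum_nonneg (fun v _ => ex_nonneg (fun c _ =>
                  sum_nonneg (fun x _ => ind_nonneg _))))
              · exact sum_nonneg (fun j _ => sum_nonneg (fun v _ => ex_nonneg (fun c _ =>
                  sum_nonneg (fun x _ => ind_nonneg _))))
            · apply sum_nonneg
              intro l _
              split_ifs
              · exact le_rfl
              · exact sum_nonneg (fun v _ => ex_nonneg (fun c _ =>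
                  sum_nonneg (fun x _ => ind_nonneg _)))
          by_cases h3 : (d i) ^ (n - 1) = 0
          · rw [h3, div_zero]; exact hErr0
          · have h4 : 0 < (d i) ^ (n - 1) := lt_of_le_of_ne (pow_nonneg (hd0 i) _) (Ne.symm h3)
            rw [div_le_iff₀ h4, mul_comm]
            exact hloc i
      _ = (∑ i ∈ range (2 ^ K), Err n S le i (tm s i) ϑ ϑw (NC n S le s ϑw R i)) / W := by
          rw [Finset.sum_div]
      _ ≤ n * (n * (δ + c2) + n * c1 + n * c1) := by
          rw [div_le_iff₀ hW]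
          exact err_sum hS hch hp hs hsK hs0 hle htrans hϑ hϑw hR h2 h1 h1' hc1 hδ
  have hfin : φ ^ n ≤ n * (n * (δ + c2) + n * c1 + n * c1) :=
    (pow_le_pow_left₀ hφ hlow n).trans (hjen.trans hup)
  linarith

end Pool.Agent.Helper884_Full
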