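import Mathlib

/-!
# Finite distributions
-/

set_option autoImplicit false
set_option linter.unusedSectionVars false

namespace Pool.Agent.Helper884_Full

open Finset

/-- A probability distribution on a finite type. -/
structure FD (α : Type*) [Fintype α] where
  /-- weights -/
  w : α → ℝ
  nn : ∀ a, 0 ≤ w a
  tot : ∑ a, w a = 1

/-- Expectation. -/
noncomputable def ex {α : Type*} [Fintype α] (μ : FD α) (f : α → ℝ) : ℝ := ∑ a, μ.w a * f a

section basic

variable {α β γ : Type*} [Fintype α] [Fintype β] [Fintype γ]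

lemma ex_congr {μ : FD α} {f g : α → ℝ} (h : ∀ a, μ.w a ≠ 0 → f a = g a) : ex μ f = ex μ g := by
  unfold ex
  apply Finset.sum_congr rfl
  intro a _
  by_cases ha : μ.w a = 0
  · rw [ha, zero_mul, zero_mul]
  · rw [h a ha]

lemma ex_mono {μ : FD α} {f g : α → ℝ} (h : ∀ a, μ.w a ≠ 0 → f a ≤ g a) : ex μ f ≤ ex μ g := by
  unfold ex
  apply Finset.sum_le_sum
  intro a _
  by_cases ha : μ.w a = 0
  · rw [ha, zero_mul, zero_mul]
  · exact mul_le_mul_of_nonneg_left (h a ha) (μ.nn a)

@[simp] lemma ex_const (μ : FD α) (c : ℝ) : ex μ (fun _ => c) = c := by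
  unfold ex
  rw [← Finset.sum_mul, μ.tot, one_mul]

lemma ex_nonneg {μ : FD α} {f : α → ℝ} (h : ∀ a, μ.w a ≠ 0 → 0 ≤ f a) : 0 ≤ ex μ f := by
  have := ex_mono (μ := μ) (f := fun _ => 0) (g := f) h
  simpa using this

lemma ex_le_const {μ : FD α} {f : α → ℝ} {c : ℝ} (h : ∀ a, μ.w a ≠ 0 → f a ≤ c) : ex μ f ≤ c := by
  have := ex_mono (μ := μ) (f := f) (g := fun _ => c) h
  simpa using this

lemma ex_add (μ : FD α) (f g : α → ℝ) : ex μ (fun a => f a + g a) = ex μ f + ex μ g := by
  unfold ex
  rw [← Finset.sum_add_distrib]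
  exact Finset.sum_congr rfl (fun a _ => by ring)

lemma ex_sub (μ : FD α) (f g : α → ℝ) : ex μ (fun a => f a - g a) = ex μ f - ex μ g := by
  unfold ex
  rw [← Finset.sum_sub_distrib]
  exact Finset.sum_congr rfl (fun a _ => by ring)

lemma ex_smul (μ : FD α) (c : ℝ) (f : α → ℝ) : ex μ (fun a => c * f a) = c * ex μ f := by
  unfold ex
  rw [Finset.mul_sum]
  exact Finset.sum_congr rfl (fun a _ => by ring)

lemma ex_mul_const (μ : FD α) (c : ℝ) (f : α → ℝ) : ex μ (fun a => f a * c) = ex μ f * c := by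
  unfold ex
  rw [Finset.sum_mul]
  exact Finset.sum_congr rfl (fun a _ => by ring)

lemma ex_sum {κ : Type*} (μ : FD α) (s : Finset κ) (f : κ → α → ℝ) :
    ex μ (fun a => ∑ k ∈ s, f k a) = ∑ k ∈ s, ex μ (f k) := by
  unfold ex
  rw [Finset.sum_comm]
  exact Finset.sum_congr rfl (fun a _ => by rw [Finset.mul_sum])

variable [DecidableEq α] [DecidableEq β] [DecidableEq γ]

/-- Point mass. -/
noncomputable def dirac (a : α) : FD α where
  w := fun b => if b = a then 1 else 0
  nn := fun b => by split_ifs <;> norm_num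
  tot := by simp

@[simp] lemma ex_dirac (a : α) (f : α → ℝ) : ex (dirac a) f = f a := by
  simp [ex, dirac]

lemma dirac_supp {a b : α} (h : (dirac a).w b ≠ 0) : b = a := by
  by_contra hne
  apply h
  simp [dirac, hne]

/-- Mixture. -/
noncomputable def bnd (μ : FD α) (κ : α → FD β) : FD β where
  w := fun b => ∑ a, μ.w a * (κ a).w b
  nn := fun b => Finset.sum_nonneg (fun a _ => mul_nonneg (μ.nn a) ((κ a).nn b))
  tot := by
    rw [Finset.sum_comm]
    simp_rw [← Finset.mul_sum, (κ _).tot, mul_one]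
    exact μ.tot

omit [DecidableEq α] [DecidableEq β] in
lemma ex_bnd (μ : FD α) (κ : α → FD β) (f : β → ℝ) :
    ex (bnd μ κ) f = ex μ (fun a => ex (κ a) f) := by
  unfold ex bnd
  simp only [Finset.sum_mul, Finset.mul_sum]
  rw [Finset.sum_comm]
  exact Finset.sum_congr rfl (fun a _ => Finset.sum_congr rfl (fun b _ => by ring))

omit [DecidableEq α] [DecidableEq β] in
lemma bnd_supp {μ : FD α} {κ : α → FD β} {b : β} (h : (bnd μ κ).w b ≠ 0) :
    ∃ a, μ.w a ≠ 0 ∧ (κ a).w b ≠ 0 := by
  obtain ⟨a, _, ha⟩ := Finset.exists_ne_zero_of_sum_ne_zero h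
  exact ⟨a, left_ne_zero_of_mul ha, right_ne_zero_of_mul ha⟩

omit [DecidableEq α] [DecidableEq β] in
lemma supp_bnd {μ : FD α} {κ : α → FD β} {a : α} {b : β} (ha : μ.w a ≠ 0)
    (hb : (κ a).w b ≠ 0) : (bnd μ κ).w b ≠ 0 := by
  have h1 : 0 < μ.w a := lt_of_le_of_ne (μ.nn a) (Ne.symm ha)
  have h2 : 0 < (κ a).w b := lt_of_le_of_ne ((κ a).nn b) (Ne.symm hb)
  have h3 : 0 < ∑ a, μ.w a * (κ a).w b :=
    Finset.sum_pos' (fun a _ => mul_nonneg (μ.nn a) ((κ a).nn b)) ⟨a, mem_univ _, mul_pos h1 h2⟩
  exact h3.ne'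

/-- Push forward. -/
noncomputable def mp (f : α → β) (μ : FD α) : FD β := bnd μ (fun a => dirac (f a))

omit [DecidableEq α] in
@[simp] lemma ex_mp (f : α → β) (μ : FD α) (g : β → ℝ) : ex (mp f μ) g = ex μ (fun a => g (f a)) := by
  simp [mp, ex_bnd]

omit [DecidableEq α] in
lemma mp_supp {f : α → β} {μ : FD α} {b : β} (h : (mp f μ).w b ≠ 0) :
    ∃ a, μ.w a ≠ 0 ∧ b = f a := by
  obtain ⟨a, ha, hb⟩ := bnd_supp h
  exact ⟨a, ha, dirac_supp hb⟩

omit [DecidableEq α] in
lemma supp_mp {f : α → β} {μ : FD α} {a : α} (h : μ.w a ≠ 0) : (mp f μ).w (f a) ≠ 0 := by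
  apply supp_bnd h
  simp [dirac]

/-- The probability that `g = b`. -/
noncomputable def prb (J : FD γ) (g : γ → β) (b : β) : ℝ := ex J (fun c => if g c = b then 1 else 0)

omit [Fintype β] [DecidableEq γ] in
lemma prb_nonneg (J : FD γ) (g : γ → β) (b : β) : 0 ≤ prb J g b :=
  ex_nonneg (fun a _ => by split_ifs <;> norm_num)

omit [Fintype β] [DecidableEq γ] in
lemma prb_pos {J : FD γ} {g : γ → β} {c : γ} (hc : J.w c ≠ 0) : 0 < prb J g (g c) := by
  unfold prb ex
  apply Finset.sum_pos'
  · intro a _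
    apply mul_nonneg (J.nn a)
    dsimp only
    split_ifs <;> norm_num
  · refine ⟨c, mem_univ _, ?_⟩
    simp only [if_true, mul_one]
    exact lt_of_le_of_ne (J.nn c) (Ne.symm hc)

/-- Conditional distribution given `g = b`. -/
noncomputable def cnd (J : FD γ) (g : γ → β) (b : β) : FD γ where
  w := fun c => if prb J g b = 0 then J.w c else (if g c = b then J.w c / prb J g b else 0)
  nn := fun c => by
    split_ifs
    · exact J.nn c
    · exact div_nonneg (J.nn c) (prb_nonneg J g b)
    · exact le_rfl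
  tot := by
    by_cases h : prb J g b = 0
    · simp only [h, if_true]; exact J.tot
    · simp only [h, if_false]
      have h1 : ∀ c, (if g c = b then J.w c / prb J g b else 0)
          = (J.w c * (if g c = b then 1 else 0)) / prb J g b := by
        intro c; split_ifs <;> simp
      simp only [h1]
      rw [← Finset.sum_div]
      exact div_self h

omit [Fintype β] [DecidableEq γ] in
lemma cnd_supp {J : FD γ} {g : γ → β} {b : β} {c : γ} (h : (cnd J g b).w c ≠ 0) :
    J.w c ≠ 0 := by
  intro h0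
  apply h
  simp only [cnd, h0]
  split_ifs <;> simp

omit [Fintype β] [DecidableEq γ] in
lemma cnd_supp' {J : FD γ} {g : γ → β} {c₀ c : γ} (h₀ : J.w c₀ ≠ 0)
    (h : (cnd J g (g c₀)).w c ≠ 0) : g c = g c₀ := by
  have h1 : prb J g (g c₀) ≠ 0 := (prb_pos h₀).ne'
  by_contra hne
  apply h
  simp [cnd, h1, hne]

omit [DecidableEq γ] in
/-- The tower property. -/
lemma tower (J : FD γ) (g : γ → β) (φ : γ → ℝ) (Ψ : β → ℝ) :
    ex J (fun c => φ c * Ψ (g c)) = ex J (fun c => ex (cnd J g (g c)) φ * Ψ (g c)) := by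
  have h1 : ∀ c, J.w c ≠ 0 → ex (cnd J g (g c)) φ
      = (∑ c', J.w c' * (if g c' = g c then 1 else 0) * φ c') / prb J g (g c) := by
    intro c hc
    have h0 : prb J g (g c) ≠ 0 := (prb_pos hc).ne'
    simp only [ex, cnd, h0, if_false]
    rw [Finset.sum_div]
    apply Finset.sum_congr rfl
    intro c' _
    split_ifs <;> ring
  have h2 : ex J (fun c => ex (cnd J g (g c)) φ * Ψ (g c))
      = ∑ b, (∑ c', J.w c' * (if g c' = b then 1 else 0) * φ c') * Ψ b := by
    rw [ex_congr (g := fun c => (∑ c', J.w c' * (if g c' = g c then 1 else 0) * φ c')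
      / prb J g (g c) * Ψ (g c)) (fun c hc => by rw [h1 c hc])]
    unfold ex
    have h3 : ∀ c, J.w c * ((∑ c', J.w c' * (if g c' = g c then 1 else 0) * φ c')
        / prb J g (g c) * Ψ (g c)) = ∑ b, (if g c = b then
          J.w c * ((∑ c', J.w c' * (if g c' = b then 1 else 0) * φ c') / prb J g b * Ψ b) else 0) := by
      intro c
      simp
    simp only [h3]
    rw [Finset.sum_comm]
    apply Finset.sum_congr rfl
    intro b _
    by_cases hb : prb J g b = 0
    · have h4 : ∀ c', J.w c' * (if g c' = b then 1 else 0) = 0 := by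
        have h5 : ∑ c', J.w c' * (if g c' = b then (1 : ℝ) else 0) = 0 := hb
        have h6 := (Finset.sum_eq_zero_iff_of_nonneg (fun c' _ => mul_nonneg (J.nn c')
          (by split_ifs <;> norm_num))).1 h5
        intro c'
        exact h6 c' (mem_univ _)
      simp only [h4, zero_mul, Finset.sum_const_zero, zero_div, mul_zero, ite_self]
    · have h7 : ∀ c, (if g c = b then J.w c * ((∑ c', J.w c' * (if g c' = b then 1 else 0) * φ c')
          / prb J g b * Ψ b) else 0) = (J.w c * (if g c = b then 1 else 0)) *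
            ((∑ c', J.w c' * (if g c' = b then 1 else 0) * φ c') / prb J g b * Ψ b) := by
        intro c; split_ifs <;> ring
      simp only [h7]
      rw [← Finset.sum_mul]
      change prb J g b * _ = _
      field_simp
  rw [h2]
  simp only [Finset.sum_mul]
  rw [Finset.sum_comm]
  unfold ex
  apply Finset.sum_congr rfl
  intro c _
  rw [Finset.sum_eq_single (g c)]
  · simp; ring
  · intro b _ hb
    simp [Ne.symm hb]
  · intro h; exact absurd (mem_univ _) h

/-- The law of `f` on a finite set with the uniform distribution. -/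
noncomputable def unif {Ω : Type*} (A : Finset Ω) (f : Ω → α) (a₀ : α) : FD α where
  w := fun a => if A.card = 0 then (if a = a₀ then 1 else 0) else
    ((A.filter (fun ω => f ω = a)).card : ℝ) / A.card
  nn := fun a => by
    split_ifs
    · norm_num
    · norm_num
    · positivity
  tot := by
    by_cases h : A.card = 0
    · simp [h]
    · simp only [h, if_false]
      rw [← Finset.sum_div]
      have h1 : ∑ a, ((A.filter (fun ω => f ω = a)).card : ℝ) = A.card := by
        have := Finset.card_eq_sum_card_fiberwise (f := f) (s := A) (t := univ)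
          (fun _ _ => mem_coe.2 (mem_univ _))
        rw [this]; push_cast; rfl
      rw [h1]
      apply div_self
      exact_mod_cast h

lemma ex_unif {Ω : Type*} {A : Finset Ω} (f : Ω → α) (a₀ : α) (h : A.Nonempty) (g : α → ℝ) :
    ex (unif A f a₀) g = (∑ ω ∈ A, g (f ω)) / A.card := by
  have h0 : A.card ≠ 0 := (Finset.card_pos.2 h).ne'
  simp only [ex, unif, h0, if_false]
  have h1 : ∀ a, ((A.filter (fun ω => f ω = a)).card : ℝ) / A.card * g a
      = (∑ ω ∈ A, if f ω = a then g a else 0) / A.card := by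
    intro a
    rw [← Finset.sum_filter, Finset.sum_const, nsmul_eq_mul]
    ring
  simp only [h1]
  rw [← Finset.sum_div, Finset.sum_comm]
  congr 1
  apply Finset.sum_congr rfl
  intro ω _
  simp

lemma unif_supp {Ω : Type*} {A : Finset Ω} {f : Ω → α} {a₀ : α} (hA : A.Nonempty) {a : α}
    (h : (unif A f a₀).w a ≠ 0) : ∃ ω ∈ A, f ω = a := by
  have h0 : A.card ≠ 0 := (Finset.card_pos.2 hA).ne'
  by_contra hno
  push Not at hno
  apply h
  simp only [unif, h0, if_false]
  rw [Finset.filter_false_of_mem (fun ω hω => hno ω hω)]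
  simp

lemma supp_unif {Ω : Type*} {A : Finset Ω} {f : Ω → α} {a₀ : α} {ω : Ω} (h : ω ∈ A) :
    (unif A f a₀).w (f ω) ≠ 0 := by
  have h0 : A.card ≠ 0 := (Finset.card_pos.2 ⟨ω, h⟩).ne'
  simp only [unif, h0, if_false]
  have h1 : 0 < (A.filter (fun ω' => f ω' = f ω)).card :=
    Finset.card_pos.2 ⟨ω, mem_filter.2 ⟨h, rfl⟩⟩
  positivity

end basic

section iid

variable {α : Type*} [Fintype α] [DecidableEq α] {n : ℕ}

/-- Independent copies. -/
noncomputable def iid (n : ℕ) (μ : FD α) : FD (Fin n → α) where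
  w := fun a => ∏ k, μ.w (a k)
  nn := fun a => Finset.prod_nonneg (fun k _ => μ.nn _)
  tot := by
    have h := Finset.prod_univ_sum (fun _ : Fin n => (univ : Finset α)) (fun _ a => μ.w a)
    rw [Fintype.piFinset_univ] at h
    rw [← h]
    simp [μ.tot]

lemma ex_iid_prod (μ : FD α) (f : α → ℝ) : ex (iid n μ) (fun a => ∏ k, f (a k)) = (ex μ f) ^ n := by
  have h := Finset.prod_univ_sum (fun _ : Fin n => (univ : Finset α)) (fun _ a => μ.w a * f a)
  rw [Fintype.piFinset_univ] at h
  simp only [ex, iid]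
  rw [Finset.prod_const, card_univ, Fintype.card_fin] at h
  rw [h]
  apply Finset.sum_congr rfl
  intro a _
  rw [Finset.prod_mul_distrib]

omit [DecidableEq α] in
lemma iid_supp {μ : FD α} {a : Fin n → α} (h : (iid n μ).w a ≠ 0) (k : Fin n) :
    μ.w (a k) ≠ 0 := by
  intro h0
  apply h
  exact Finset.prod_eq_zero (mem_univ k) h0

/-- Resampling one coordinate. -/
lemma iid_resample (μ : FD α) (k : Fin n) (G : (Fin n → α) → ℝ) :
    ex (iid n μ) G = ex (iid n μ) (fun a => ex μ (fun z => G (Function.update a k z))) := by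
  have h1 : ex (iid n μ) (fun a => ex μ (fun z => G (Function.update a k z)))
      = ∑ az : (Fin n → α) × α, ((∏ j, μ.w (az.1 j)) * μ.w az.2) * G (Function.update az.1 k az.2) := by
    rw [Fintype.sum_prod_type]
    simp only [ex, iid]
    apply Finset.sum_congr rfl
    intro a _
    rw [Finset.mul_sum]
    exact Finset.sum_congr rfl (fun z _ => by ring)
  have h2 : ex (iid n μ) G
      = ∑ az : (Fin n → α) × α, ((∏ j, μ.w (az.1 j)) * μ.w az.2) * G az.1 := by
    rw [Fintype.sum_prod_type]
    simp only [ex, iid]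
    apply Finset.sum_congr rfl
    intro a _
    rw [← Finset.sum_mul, ← Finset.mul_sum, μ.tot, mul_one]
  rw [h1, h2]
  let e : (Fin n → α) × α ≃ (Fin n → α) × α :=
    { toFun := fun az => (Function.update az.1 k az.2, az.1 k)
      invFun := fun az => (Function.update az.1 k az.2, az.1 k)
      left_inv := by
        intro az
        simp
      right_inv := by
        intro az
        simp }
  rw [← Equiv.sum_comp e]
  apply Finset.sum_congr rfl
  intro az _
  have h3 : (∏ j, μ.w (az.1 j)) * μ.w az.2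
      = (∏ j, μ.w (Function.update az.1 k az.2 j)) * μ.w (az.1 k) := by
    rw [← Finset.mul_prod_erase univ _ (mem_univ k)]
    rw [← Finset.mul_prod_erase univ (fun j => μ.w (Function.update az.1 k az.2 j)) (mem_univ k)]
    rw [Function.update_self]
    have h4 : ∏ j ∈ univ.erase k, μ.w (Function.update az.1 k az.2 j)
        = ∏ j ∈ univ.erase k, μ.w (az.1 j) := by
      apply Finset.prod_congr rfl
      intro j hj
      rw [Function.update_of_ne (Finset.ne_of_mem_erase hj)]
    rw [h4]; ring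
  simp only [e, Equiv.coe_fn_mk]
  rw [h3]

lemma ex_iid_coord (μ : FD α) (k : Fin n) (f : α → ℝ) :
    ex (iid n μ) (fun a => f (a k)) = ex μ f := by
  rw [iid_resample μ k]
  simp

end iid

end Pool.Agent.Helper884_Full
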