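import Pool.Agent.Helper884_Full.Encode
import Pool.Agent.Helper884_Full.Choose

/-!
# The encoding bound for one fibre
-/

set_option autoImplicit false
set_option linter.unusedSectionVars false

namespace Pool.Agent.Helper884_Full

open Finset
open Pool.Agent.Helper884_MultiScale (IsCh ent lt_blk blk_le div_eq_of_blk)

section opts

variable {V : Type*} [DecidableEq V]

/-- Candidates for one coordinate. -/
def opts (w p : Finset V) (m : ℕ) : Finset (Finset V) :=
  w.powerset.filter (fun z => z = ∅ ∨ (p ⊆ z ∧ z.card ≤ p.card + m))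

lemma mem_opts {w p z : Finset V} {m : ℕ} :
    z ∈ opts w p m ↔ z ⊆ w ∧ (z = ∅ ∨ (p ⊆ z ∧ z.card ≤ p.card + m)) := by
  simp [opts]

lemma opts_card {w p : Finset V} {m r : ℕ} (hr : 0 < r) :
    ((opts w p m).card : ℝ) ≤ 2 * ((r : ℝ) ^ m * (1 / r + 1) ^ (w \ p).card) := by
  have hrR : (1 : ℝ) ≤ r := by exact_mod_cast hr
  have h1 : opts w p m ⊆ {∅} ∪ ((w \ p).powerset.filter (fun y => y.card ≤ m)).image
      (fun y => y ∪ p) := by
    intro z hz
    rw [mem_opts] at hz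
    rw [mem_union, mem_singleton, mem_image]
    rcases hz.2 with h | ⟨h2, h3⟩
    · exact Or.inl h
    · right
      refine ⟨z \ p, ?_, sdiff_union_of_subset h2⟩
      rw [mem_filter, mem_powerset]
      refine ⟨sdiff_subset_sdiff hz.1 (Subset.refl _), ?_⟩
      rw [card_sdiff_of_subset h2]
      omega
  have h2 : (opts w p m).card ≤ 1 + ((w \ p).powerset.filter (fun y => y.card ≤ m)).card := by
    refine (card_le_card h1).trans ((card_union_le _ _).trans ?_)
    rw [card_singleton]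
    exact Nat.add_le_add_left card_image_le _
  have h3 : (((w \ p).powerset.filter (fun y => y.card ≤ m)).card : ℝ)
      ≤ (r : ℝ) ^ m * (1 / r + 1) ^ (w \ p).card := by
    rw [← Finset.sum_pow_mul_eq_add_pow, Finset.mul_sum]
    calc (((w \ p).powerset.filter (fun y => y.card ≤ m)).card : ℝ)
        = ∑ y ∈ (w \ p).powerset.filter (fun y => y.card ≤ m), (1 : ℝ) := by simp
      _ ≤ ∑ y ∈ (w \ p).powerset.filter (fun y => y.card ≤ m),
          (r : ℝ) ^ m * ((1 / r) ^ y.card * 1 ^ ((w \ p).card - y.card)) := by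
          apply sum_le_sum
          intro y hy
          rw [mem_filter] at hy
          rw [one_pow, mul_one, one_div, inv_pow, ← div_eq_mul_inv]
          rw [one_le_div (by positivity)]
          exact pow_le_pow_right₀ hrR hy.2
      _ ≤ _ := by
          apply Finset.sum_le_sum_of_subset_of_nonneg (filter_subset _ _)
          intro y _ _
          positivity
  have h4 : (1 : ℝ) ≤ (r : ℝ) ^ m * (1 / r + 1) ^ (w \ p).card := by
    apply one_le_mul_of_one_le_of_one_le (one_le_pow₀ hrR)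
    apply one_le_pow₀
    have : (0 : ℝ) ≤ 1 / r := by positivity
    linarith
  have h5 : ((opts w p m).card : ℝ) ≤ 1 + (((w \ p).powerset.filter (fun y => y.card ≤ m)).card : ℝ) := by
    exact_mod_cast h2
  linarith

lemma base_le {r : ℕ} (hr : 0 < r) : (1 / (r : ℝ) + 1) ≤ 2 ^ ((2 : ℝ) / r) := by
  have hrR : (0 : ℝ) < r := by exact_mod_cast hr
  have h1 : (1 / (r : ℝ) + 1) ≤ Real.exp (1 / r) := Real.add_one_le_exp _
  have h2 : Real.exp (1 / r) ≤ 2 ^ ((2 : ℝ) / r) := by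
    have h3 : (2 : ℝ) ^ ((2 : ℝ) / r) = Real.exp (Real.log 2 * (2 / r)) := by
      rw [Real.rpow_def_of_pos (by norm_num)]
    rw [h3]
    apply Real.exp_le_exp.2
    have h4 : (0.6931471803 : ℝ) < Real.log 2 := Real.log_two_gt_d9
    have h5 : (1 : ℝ) / r = (1 / 2) * (2 / r) := by field_simp
    rw [h5]
    apply mul_le_mul_of_nonneg_right _ (by positivity)
    linarith
  exact h1.trans h2

/-- Exponential form. -/
lemma opts_card' {w p : Finset V} {m K : ℕ} {N : ℝ} (hN : ((w \ p).card : ℝ) ≤ N) :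
    ((opts w p m).card : ℝ) ≤ 2 ^ ((1 : ℝ) + m * K + 2 * N / 2 ^ K) := by
  have hr : 0 < 2 ^ K := Nat.pow_pos (by norm_num)
  refine (opts_card (w := w) (p := p) (m := m) hr).trans ?_
  have h1 : (1 / (((2 ^ K : ℕ)) : ℝ) + 1) ^ (w \ p).card ≤ 2 ^ (2 * N / 2 ^ K) := by
    have h2 := base_le hr
    calc (1 / (((2 ^ K : ℕ)) : ℝ) + 1) ^ (w \ p).card
        ≤ (2 ^ ((2 : ℝ) / ((2 ^ K : ℕ) : ℝ))) ^ (w \ p).card :=
          pow_le_pow_left₀ (by positivity) h2 _
      _ = 2 ^ ((2 : ℝ) / 2 ^ K * (w \ p).card) := by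
          rw [← Real.rpow_natCast, ← Real.rpow_mul (by norm_num)]
          push_cast
          rfl
      _ ≤ 2 ^ (2 * N / 2 ^ K) := by
          apply Real.rpow_le_rpow_of_exponent_le (by norm_num)
          rw [mul_div_right_comm]
          exact mul_le_mul_of_nonneg_left hN (by positivity)
  have h3 : (((2 ^ K : ℕ) : ℝ)) ^ m = 2 ^ ((m : ℝ) * K) := by
    push_cast
    rw [← pow_mul, ← Real.rpow_natCast]
    congr 1
    push_cast
    ring
  rw [h3, Real.rpow_add (by norm_num), Real.rpow_add (by norm_num), Real.rpow_one, mul_assoc]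
  apply mul_le_mul_of_nonneg_left _ (by norm_num)
  exact mul_le_mul_of_nonneg_left h1 (by positivity)

end opts

variable {V : Type*} [Fintype V] [DecidableEq V] {n : ℕ}
variable {S : Finset (ℕ → Finset V)} {le : ℕ → ℕ → Bool} {s : ℕ → ℕ} {ϑw R : ℕ → ℝ}

/-- Possible conditioning data. -/
def Dset (n : ℕ) (w p : Finset V) (m : ℕ) : Finset (Cf n V) :=
  (Fintype.piFinset (fun _ : Fin n => opts w p m)) ×ˢ
    (Fintype.piFinset (fun _ : Fin n => opts w p m))

lemma Dset_card {w p : Finset V} {m K : ℕ} {N : ℝ} (hN : ((w \ p).card : ℝ) ≤ N) :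
    ((Dset n w p m).card : ℝ) ≤ 2 ^ (2 * n * ((1 : ℝ) + m * K + 2 * N / 2 ^ K)) := by
  have h1 : (Dset n w p m).card = (opts w p m).card ^ (2 * n) := by
    rw [Dset, card_product, Fintype.card_piFinset]
    simp only [prod_const, card_univ, Fintype.card_fin]
    ring
  rw [h1]
  push_cast
  calc ((opts w p m).card : ℝ) ^ (2 * n)
      ≤ (2 ^ ((1 : ℝ) + m * K + 2 * N / 2 ^ K)) ^ (2 * n) :=
        pow_le_pow_left₀ (Nat.cast_nonneg _) (opts_card' hN) _
    _ = _ := by
        rw [← Real.rpow_natCast, ← Real.rpow_mul (by norm_num)]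
        congr 1
        push_cast
        ring

lemma rho_Dset (hmono : ∀ v ∈ S, Monotone v) (hle : ∀ a b, le a b → a ≤ b)
    (hs : Monotone s) {p : ℕ → ℕ} (hp : ∀ v ∈ S, ∀ i, (v i).card = p i)
    {w : Finset V} (hw : ∀ v ∈ S, ∀ i, v i ⊆ w) {v : ℕ → Finset V} (hv : v ∈ S)
    {i l : ℕ} (k : Fin n) {D : Cf n V}
    (hD : (mp (rho le k) (Lam n S le i (tm s i) l (v i) (v (tm s i (l + 1))))).w D ≠ 0) :
    D ∈ Dset n w (v i) (p (tm s i l) - p i) := by
  obtain ⟨c, hc, rfl⟩ := mp_supp hD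
  have hspt := Lam_supp hmono (tm_mono hs i) hle l _ _ c ⟨v, hv, rfl, rfl⟩ hc
  have hres := Lam_res l hc
  have key : ∀ z, ∀ T, i ≤ T → T ≤ tm s i l → (∃ v' ∈ S, v' i = v i ∧ v' T = z) →
      z ∈ opts w (v i) (p (tm s i l) - p i) := by
    intro z T hiT hT ⟨v', hv', h1, h2⟩
    rw [mem_opts, ← h2]
    refine ⟨hw v' hv' _, Or.inr ⟨?_, ?_⟩⟩
    · rw [← h1]; exact hmono v' hv' hiT
    · rw [hp v' hv', hp v hv]
      have h3 : p T ≤ p (tm s i l) := by
        rw [← hp v hv, ← hp v hv]; exact card_le_card (hmono v hv hT)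
      omega
  have hemp : (∅ : Finset V) ∈ opts w (v i) (p (tm s i l) - p i) := by
    rw [mem_opts]; exact ⟨empty_subset _, Or.inl rfl⟩
  rw [Dset, mem_product, Fintype.mem_piFinset, Fintype.mem_piFinset]
  constructor
  · intro k'
    simp only [rho]
    split_ifs
    · exact hemp
    · exact key _ (tm s i 0) (le_tm s i 0) (tm_mono hs i (Nat.zero_le l)) (hspt.1 k').1
  · intro j
    simp only [rho]
    split_ifs
    · exact hemp
    · rcases Nat.lt_or_ge (j : ℕ) l with hjl | hjl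
      · exact key _ (tm s i (j + 1)) (le_tm s i _) (tm_mono hs i hjl) (hspt.2 j hjl).1
      · have h1 : c.2 j = ∅ := by
          rw [← hres]
          simp only [res]
          rw [if_neg (by omega)]
        rw [h1]; exact hemp

open Classical in
/-- Good elements of a chain. -/
noncomputable def GoodS (n : ℕ) (S : Finset (ℕ → Finset V)) (le : ℕ → ℕ → Bool) (s : ℕ → ℕ)
    (ϑw R : ℕ → ℝ) (u w : Finset V) (v : ℕ → Finset V) : Finset V :=
  (w \ u).filter (fun x => Gd n S le s ϑw R (ent v x) v x)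

lemma mem_GoodS {u w : Finset V} {v : ℕ → Finset V} {x : V} :
    x ∈ GoodS n S le s ϑw R u w v ↔ x ∈ w \ u ∧ Gd n S le s ϑw R (ent v x) v x := by
  simp [GoodS]

theorem fibre_bound {F : Finset (Finset V)} {K : ℕ} {u w : Finset V}
    (hch : ∀ v ∈ S, IsCh F (2 ^ K) u w v)
    {p : ℕ → ℕ} (hp : ∀ v ∈ S, ∀ i, (v i).card = p i) (hn : 0 < n) (hK : 1 ≤ K)
    (hs : Monotone s) (hsK : s (n + 1) ≤ K) (hs0 : s 0 = 0)
    (hle : ∀ a b, le a b → a ≤ b)
    (hϑw : ∀ j, 0 < ϑw j) {E : ℕ} (hE : ∀ j, 1 / ϑw j ≤ 2 ^ (s j + E))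
    {ρ : ℝ} (hρ : 0 < ρ) (hR : ∀ l, R l = ρ * 2 ^ (s l)) {η : ℝ} (hη : 0 < η)
    {ζ : ℝ} (hζ : 2 * n * (3 + K) / (ρ * η) ≤ ζ) {τ : ℕ}
    (hτ : 2 ^ E * (ζ + 1) ≤ η * 2 ^ τ) {Cn : ℕ} (hCn : ζ ≤ Cn)
    (hN : 0 < (w \ u).card) {γ : ℝ}
    (S' : Finset (ℕ → Finset V)) (hS' : S' ⊆ S) (q : ℕ → Finset V)
    (hq : ∀ v ∈ S', ∀ i, v (2 ^ (s (n + 1)) * i) = q i)
    (hγ : ∀ v ∈ S', ((GoodS n S le s ϑw R u w v).card : ℝ) ≤ γ * (w \ u).card) :
    (S'.card : ℝ) ≤ (2 ^ (w \ u).card * ((n * n + 1) ^ (w \ u).card *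
      (Cn * (w \ u).card + 1) ^ (n * n * 2 ^ K))) *
      (((2 ^ (s (n + 1)) : ℕ) : ℝ) ^ ((γ + (1 + 2 * (n * n)) * η) * (w \ u).card) *
        ((2 ^ (2 * s n + τ) : ℕ) : ℝ) ^ (w \ u).card) *
      2 ^ ((n * n * ζ) * (w \ u).card) := by
  classical
  rcases S'.eq_empty_or_nonempty with rfl | ⟨v₀, hv₀⟩
  · simp only [card_empty, Nat.cast_zero]; positivity
  have hv₀S : v₀ ∈ S := hS' hv₀
  have hmono : ∀ v ∈ S, Monotone v := fun v hv => (hch v hv).1
  have hnR : (1 : ℝ) ≤ n := by exact_mod_cast hn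
  have hKR : (1 : ℝ) ≤ K := by exact_mod_cast hK
  set N : ℝ := ((w \ u).card : ℝ) with hNdef
  have hNpos : 0 < N := by rw [hNdef]; exact_mod_cast hN
  have hpm := p_mono (hch v₀ hv₀S) (hp v₀ hv₀S)
  have hpt := p_total (hch v₀ hv₀S) (hp v₀ hv₀S)
  have hpmN : ∀ i j, i ≤ j → p i ≤ p j := by
    intro i j hij
    have : (p i : ℝ) ≤ p j := hpm hij
    exact_mod_cast this
  have hζ0 : 0 < ζ := lt_of_lt_of_le (by positivity) hζ
  have h0 : ∀ i, tm s i 0 = i + 1 := fun i => by simp [tm, hs0]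
  let top : ℕ → Finset V := fun i => q (i / 2 ^ (s (n + 1)) + 1)
  have htop : ∀ v ∈ S', ∀ i, v (tm s i (n + 1)) = top i := by
    intro v hv i
    simp only [top, tm, be]
    rw [← hq v hv, Nat.mul_succ]
  let Zi : ℕ → Finset V → Finset V := fun i pp =>
    Z0 S i (tm s i 0) (tm s i (n + 1)) (ϑw 0) pp (top i)
  let Zf : Fin n × Fin n → ℕ → Finset V → Cf n V → Finset V := fun σ i pp D =>
    Zn n S le i (tm s i) σ.2 (σ.1 + 1) (ϑw (σ.1 + 1)) (tm s i (n + 1)) pp (top i) D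
  let lam : Fin n × Fin n → ℕ → (ℕ → Finset V) → FD (Cf n V) := fun σ i v =>
    mp (rho le σ.2) (Lam n S le i (tm s i) σ.1 (v i) (v (tm s i (σ.1 + 1))))
  let Ds : Fin n × Fin n → ℕ → Finset V → Finset (Cf n V) := fun σ i pp =>
    Dset n w pp (p (tm s i σ.1) - p i)
  let d : ℕ → ℕ := fun i => p (i + 1) - p i
  have hdR : ∀ i, (d i : ℝ) = (p (i + 1) : ℝ) - p i := by
    intro i
    simp only [d]
    rw [Nat.cast_sub (hpmN i (i + 1) (by omega))]
  have hd : ∀ i, ∀ v ∈ S, ((v (tm s i 0) \ v i).card : ℝ) ≤ d i := by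
    intro i v hv
    rw [h0, card_diff (hch v hv) (hp v hv) (by omega), hdR]
  let cost : Fin n × Fin n → ℕ → ℝ := fun σ i =>
    2 * n * ((d i : ℝ) + ((p (tm s i σ.1) - p i : ℕ) : ℝ) * K + 2 * N / 2 ^ K)
  let Bn : Fin n × Fin n → ℕ → ℕ := fun σ i => ⌊(2 : ℝ) ^ (cost σ i)⌋₊
  have hcovA : ∀ v ∈ S', ∀ σ : Fin n × Fin n, ∀ i x,
      covA (fun σ => 2 ^ (s ((σ.1 : ℕ) + 1))) Zf lam σ v i x
        = cov n S le s ϑw σ.1 σ.2 v i x := by
    intro v hv σ i x
    unfold covA cov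
    apply Finset.sum_congr rfl
    intro i' _
    simp only [lam, Zf, ex_mp, qq]
    rw [htop v hv]
  have hGd : ∀ v ∈ S', GdS (fun σ : Fin n × Fin n => 2 ^ (s ((σ.1 : ℕ) + 1))) Zi Zf lam
      (fun σ => R σ.1) u w v = GoodS n S le s ϑw R u w v := by
    intro v hv
    ext x
    rw [mem_GoodS]
    simp only [GdS, mem_filter, Gd]
    apply and_congr_right
    intro _
    simp only [Zi]
    rw [htop v hv]
    apply and_congr_right
    intro _
    constructor
    · intro h l hl k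
      have h1 := h (⟨l, hl⟩, k)
      rw [hcovA v hv] at h1
      exact h1
    · intro h σ
      rw [hcovA v hv]
      exact h σ.1 σ.1.2 σ.2
  have hcastcard : (Fintype.card (Fin n × Fin n)) = n * n := by simp
  have hR0 : ∀ l, 0 < R l := by intro l; rw [hR]; positivity
  have hsum : ∀ l, s l ≤ K → ∑ i ∈ range (2 ^ K), ((p (tm s i l) - p i : ℕ) : ℝ) ≤ 2 ^ (s l) * N := by
    intro l hl
    have h1 := sum_be hpm (m := s l) (K := K) hl
    rw [hpt] at h1
    refine le_trans (le_of_eq ?_) h1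
    apply Finset.sum_congr rfl
    intro i _
    rw [Nat.cast_sub (hpmN _ _ (le_tm s i l))]
    rfl
  have hdsum : ∑ i ∈ range (2 ^ K), (d i : ℝ) = N := by
    simp only [hdR]
    rw [Finset.sum_range_sub (fun i => (p i : ℝ)), hpt]
  have hζσ : ∀ σ : Fin n × Fin n,
      (2 * n * (3 + K * 2 ^ (s (σ.1 : ℕ)))) / (R σ.1 * η) ≤ ζ := by
    intro σ
    refine le_trans ?_ hζ
    rw [hR, div_le_div_iff₀ (by positivity) (by positivity)]
    have h2 : (1 : ℝ) ≤ 2 ^ (s (σ.1 : ℕ)) := one_le_pow₀ (by norm_num)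
    have h3 : (3 : ℝ) + K * 2 ^ (s (σ.1 : ℕ)) ≤ (3 + K) * 2 ^ (s (σ.1 : ℕ)) := by nlinarith
    calc 2 * n * (3 + K * 2 ^ (s (σ.1 : ℕ))) * (ρ * η)
        ≤ 2 * n * ((3 + K) * 2 ^ (s (σ.1 : ℕ))) * (ρ * η) := by
          apply mul_le_mul_of_nonneg_right _ (by positivity)
          exact mul_le_mul_of_nonneg_left h3 (by positivity)
      _ = 2 * n * (3 + K) * (ρ * 2 ^ (s (σ.1 : ℕ)) * η) := by ring
  have hmain := encode_bound (F := F) (r := 2 ^ K) (s := 2 ^ (s (n + 1)))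
    (t := fun σ : Fin n × Fin n => 2 ^ (s ((σ.1 : ℕ) + 1))) (u := u) (w := w) (Zi := Zi) (Zf := Zf)
    S' (fun v hv => hch v (hS' hv)) (Nat.pow_pos (by norm_num))
    (fun σ => Nat.pow_pos (by norm_num)) q hq Ds lam
    (by
      intro v hv i x hx
      simp only [Zi, Z0, mem_filter] at hx
      exact hx.2.1)
    (by
      intro v hv σ i D hD
      exact rho_Dset hmono hle hs hp (fun v hv i => (hch v hv).sub i) (hS' hv) σ.2 hD)
    d hNdef hNpos hdsum.le
    (A0 := 1 / ϑw 0) (by have := hϑw 0; positivity)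
    (by
      intro v hv i _
      simp only [Zi]
      rw [← htop v hv i]
      have h1 := Z0_card (hd i) (hS' hv) (ϑw 0) (T := tm s i (n + 1))
      rw [div_mul_eq_mul_div, one_mul, le_div_iff₀ (hϑw 0), mul_comm]
      exact h1)
    (A := fun σ => 1 / ϑw (σ.1 + 1)) (fun σ => by have := hϑw ((σ.1 : ℕ) + 1); positivity)
    (by
      intro v hv σ i _ D _
      simp only [Zf]
      rw [← htop v hv i]
      have hσ := σ.1.2
      have h1 := Zn_card hmono (tm_mono hs i) hle (j := σ.1 + 1) (T := tm s i (n + 1))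
        (tm_mono hs i (by omega)) (hd i) (hS' hv) σ.2 (ϑw (σ.1 + 1)) D
      rw [div_mul_eq_mul_div, one_mul, le_div_iff₀ (hϑw _), mul_comm]
      exact h1)
    cost
    (by
      intro σ i
      simp only [cost]
      have h1 : (0 : ℝ) ≤ ((p (tm s i σ.1) - p i : ℕ) : ℝ) * K := by positivity
      have h2 : (0 : ℝ) ≤ 2 * N / 2 ^ K := by positivity
      have h3 : (0 : ℝ) ≤ d i := Nat.cast_nonneg _
      nlinarith)
    Bn
    (by
      intro v hv σ i _ hdi
      apply Nat.le_floor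
      simp only [Ds]
      have hle' : ((w \ v i).card : ℝ) ≤ N := by
        rw [hNdef]
        exact_mod_cast card_le_card (sdiff_subset_sdiff (Subset.refl w) ((hch v (hS' hv)).sup i))
      refine (Dset_card (n := n) (m := p (tm s i σ.1) - p i) (K := K) hle').trans ?_
      apply Real.rpow_le_rpow_of_exponent_le (by norm_num)
      simp only [cost]
      apply mul_le_mul_of_nonneg_left _ (by positivity)
      have h1 : (1 : ℝ) ≤ d i := by exact_mod_cast hdi
      linarith)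
    (by
      intro σ i _ _
      exact Nat.floor_le (by positivity))
    (Zc := fun σ => 2 * n * (3 + K * 2 ^ (s (σ.1 : ℕ)))) (fun σ => by positivity)
    (by
      intro σ
      simp only [cost]
      rw [← Finset.mul_sum, Finset.sum_add_distrib, Finset.sum_add_distrib, hdsum,
        ← Finset.sum_mul, sum_const, card_range, nsmul_eq_mul]
      have hσ := σ.1.2
      have h1 := hsum σ.1 ((hs (by omega)).trans hsK)
      have h2 : ((2 ^ K : ℕ) : ℝ) * (2 * N / 2 ^ K) = 2 * N := by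
        push_cast; field_simp
      rw [h2]
      have h3 : (∑ i ∈ range (2 ^ K), ((p (tm s i σ.1) - p i : ℕ) : ℝ)) * K
          ≤ (2 ^ (s (σ.1 : ℕ)) * N) * K := mul_le_mul_of_nonneg_right h1 (by positivity)
      calc 2 * (n : ℝ) * (N + (∑ i ∈ range (2 ^ K), ((p (tm s i σ.1) - p i : ℕ) : ℝ)) * K + 2 * N)
          ≤ 2 * n * (N + (2 ^ (s (σ.1 : ℕ)) * N) * K + 2 * N) := by
            apply mul_le_mul_of_nonneg_left _ (by positivity)
            linarith
        _ = 2 * n * (3 + K * 2 ^ (s (σ.1 : ℕ))) * N := by ring)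
    (R := fun σ => R σ.1) (fun σ => hR0 _) hη
    (T0 := 2 ^ τ) (Nat.pow_pos (by norm_num))
    (by
      have h1 := hE 0
      rw [hs0, Nat.zero_add] at h1
      push_cast
      refine h1.trans (le_trans ?_ hτ)
      have h2 : (0 : ℝ) < 2 ^ E := by positivity
      nlinarith)
    (T := fun σ => 2 ^ (s ((σ.1 : ℕ) + 1) + τ)) (fun σ => Nat.pow_pos (by norm_num))
    (by
      intro σ
      have h1 := hE ((σ.1 : ℕ) + 1)
      push_cast
      calc 1 / ϑw (σ.1 + 1) * ((2 * n * (3 + K * 2 ^ (s (σ.1 : ℕ)))) / (R σ.1 * η))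
          ≤ 2 ^ (s (σ.1 + 1) + E) * ζ := by
            apply mul_le_mul h1 (hζσ σ) _ (by positivity)
            have := hR0 σ.1
            positivity
        _ = 2 ^ (s ((σ.1 : ℕ) + 1)) * (2 ^ E * ζ) := by rw [pow_add]; ring
        _ ≤ 2 ^ (s ((σ.1 : ℕ) + 1)) * (η * 2 ^ τ) := by
            apply mul_le_mul_of_nonneg_left _ (by positivity)
            have h2 : (0 : ℝ) < 2 ^ E := by positivity
            nlinarith
        _ = η * 2 ^ (s ((σ.1 : ℕ) + 1) + τ) := by rw [pow_add]; ring)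
    (M := 2 ^ (2 * s n + τ))
    (Nat.pow_le_pow_right (by norm_num) (by omega))
    (by
      intro σ
      rw [← pow_add]
      apply Nat.pow_le_pow_right (by norm_num)
      have hσ := σ.1.2
      have h1 : s ((σ.1 : ℕ) + 1) ≤ s n := hs (by omega)
      omega)
    (Cn := Cn) (fun σ => (hζσ σ).trans hCn)
    (γ := γ)
    (by
      intro v hv
      rw [hGd v hv]
      exact hγ v hv)
  rw [hcastcard] at hmain
  refine hmain.trans ?_
  have hlast : (2 : ℝ) ^ ((∑ σ : Fin n × Fin n,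
      (2 * n * (3 + K * 2 ^ (s (σ.1 : ℕ)))) / (R σ.1 * η)) * N) ≤ 2 ^ ((n * n * ζ) * N) := by
    apply Real.rpow_le_rpow_of_exponent_le (by norm_num)
    apply mul_le_mul_of_nonneg_right _ hNpos.le
    calc _ ≤ ∑ σ : Fin n × Fin n, ζ := sum_le_sum (fun σ _ => hζσ σ)
      _ = n * n * ζ := by simp
  have hcast : (((n * n : ℕ) : ℝ)) = (n : ℝ) * n := by push_cast; rfl
  rw [hcast]
  exact mul_le_mul_of_nonneg_left hlast (by positivity)

end Pool.Agent.Helper884_Full
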