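import Pool.Agent.Helper884_Full.Combine
import Pool.Agent.Helper884_MultiScale.Growth

/-!
# Summing over the times
-/

set_option autoImplicit false
set_option linter.unusedSectionVars false

namespace Pool.Agent.Helper884_Full

open Finset
open Pool.Agent.Helper884_MultiScale (IsCh ent lt_blk blk_le blk_end_le div_eq_of_blk)

/-- End of the block of length `2 ^ m` containing `i`. -/
def be (m i : ℕ) : ℕ := 2 ^ m * (i / 2 ^ m) + 2 ^ m

lemma lt_be (m i : ℕ) : i < be m i := lt_blk (Nat.pow_pos (by norm_num)) i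

lemma be_mono {m m' : ℕ} (h : m ≤ m') (i : ℕ) : be m i ≤ be m' i := by
  apply blk_end_le (c := 2 ^ (m' - m)) (Nat.pow_pos (by norm_num))
  rw [← pow_add]; congr 1; omega

lemma div_of_div {m m' : ℕ} (h : m ≤ m') {i i' : ℕ} (hd : i' / 2 ^ m = i / 2 ^ m) :
    i' / 2 ^ m' = i / 2 ^ m' := by
  have h1 : 2 ^ m' = 2 ^ m * 2 ^ (m' - m) := by rw [← pow_add]; congr 1; omega
  rw [h1, ← Nat.div_div_eq_div_mul, ← Nat.div_div_eq_div_mul, hd]

lemma be_congr {m m' : ℕ} (h : m ≤ m') {i i' : ℕ} (hd : i' / 2 ^ m = i / 2 ^ m) :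
    be m' i' = be m' i := by
  unfold be; rw [div_of_div h hd]

@[simp] lemma be_zero (i : ℕ) : be 0 i = i + 1 := by simp [be]

/-- The times attached to `i`. -/
def tm (s : ℕ → ℕ) (i : ℕ) : ℕ → ℕ := fun j => be (s j) i

lemma tm_mono {s : ℕ → ℕ} (hs : Monotone s) (i : ℕ) : Monotone (tm s i) :=
  fun _ _ h => be_mono (hs h) i

lemma le_tm (s : ℕ → ℕ) (i j : ℕ) : i ≤ tm s i j := (lt_be (s j) i).le

variable {V : Type*} [Fintype V] [DecidableEq V] {n : ℕ}
variable {S : Finset (ℕ → Finset V)} {le : ℕ → ℕ → Bool} {s : ℕ → ℕ} {ϑ ϑw : ℕ → ℝ}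

/-- Accumulated catching probability in the current block. -/
noncomputable def cov (n : ℕ) (S : Finset (ℕ → Finset V)) (le : ℕ → ℕ → Bool) (s : ℕ → ℕ)
    (ϑw : ℕ → ℝ) (l : ℕ) (k : Fin n) (v : ℕ → Finset V) (i : ℕ) (x : V) : ℝ :=
  ∑ i' ∈ (range (i + 1)).filter (fun i' => i' / 2 ^ (s (l + 1)) = i / 2 ^ (s (l + 1))),
    qq n S le i' (tm s i') ϑw l k v x

/-- Good elements at time `i`. -/
def Gd (n : ℕ) (S : Finset (ℕ → Finset V)) (le : ℕ → ℕ → Bool) (s : ℕ → ℕ)
    (ϑw R : ℕ → ℝ) (i : ℕ) (v : ℕ → Finset V) (x : V) : Prop :=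
  x ∉ Z0 S i (tm s i 0) (tm s i (n + 1)) (ϑw 0) (v i) (v (tm s i (n + 1))) ∧
    ∀ l < n, ∀ k, cov n S le s ϑw l k v i x < R l

/-- Not covered. -/
def NC (n : ℕ) (S : Finset (ℕ → Finset V)) (le : ℕ → ℕ → Bool) (s : ℕ → ℕ)
    (ϑw R : ℕ → ℝ) (i : ℕ) : ℕ → Fin n → (ℕ → Finset V) → V → Prop :=
  fun l k v x => cov n S le s ϑw l k v i x < R l

lemma qq_nonneg (l : ℕ) (k : Fin n) (v : ℕ → Finset V) (i : ℕ) (x : V) :
    0 ≤ qq n S le i (tm s i) ϑw l k v x := ex_nonneg (fun _ _ => ind_nonneg _)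

lemma qq_dep (hs : Monotone s) {l : ℕ} (hl : l < n) (k : Fin n) {i i' : ℕ} (hi' : i' ≤ i)
    (hd : i' / 2 ^ (s (l + 1)) = i / 2 ^ (s (l + 1))) {v v' : ℕ → Finset V}
    (h : ∀ j, j ≤ i ∨ tm s i (l + 1) ≤ j → v j = v' j) (x : V) :
    qq n S le i' (tm s i') ϑw l k v x = qq n S le i' (tm s i') ϑw l k v' x := by
  unfold qq
  have h1 : tm s i' (l + 1) = tm s i (l + 1) := be_congr le_rfl hd
  have h2 : tm s i' (n + 1) = tm s i (n + 1) := be_congr (hs (by omega)) hd
  have h3 : tm s i (l + 1) ≤ tm s i (n + 1) := tm_mono hs i (by omega)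
  rw [h1, h2, h i' (Or.inl hi'), h _ (Or.inr le_rfl), h _ (Or.inr h3)]

lemma cov_dep (hs : Monotone s) {l : ℕ} (hl : l < n) (k : Fin n) (i : ℕ) :
    Dep i (tm s i (l + 1)) (fun v => cov n S le s ϑw l k v i) := by
  intro v v' h
  funext x
  unfold cov
  apply Finset.sum_congr rfl
  intro i' hi'
  rw [mem_filter, mem_range] at hi'
  exact qq_dep hs hl k (by omega) hi'.2 h x

lemma NC_dep {R : ℕ → ℝ} (hs : Monotone s) {l : ℕ} (hl : l < n) (k : Fin n) (i : ℕ) :
    Dep i (tm s i (l + 1)) (NC n S le s ϑw R i l k) := by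
  intro v v' h
  have h1 := cov_dep (S := S) (le := le) (ϑw := ϑw) hs hl k i v v' h
  funext x
  have h2 := congrFun h1 x
  simp only at h2
  unfold NC
  rw [h2]

lemma Gd_dep {R : ℕ → ℝ} (hs : Monotone s) (i : ℕ) :
    Dep i (tm s i 1) (Gd n S le s ϑw R i) := by
  intro v v' h
  funext x
  unfold Gd
  have hn1 : tm s i 1 ≤ tm s i (n + 1) := tm_mono hs i (by omega)
  rw [h i (Or.inl le_rfl), h _ (Or.inr hn1)]
  apply propext
  apply and_congr_right
  intro _
  apply forall_congr'; intro l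
  apply forall_congr'; intro hl
  apply forall_congr'; intro k
  have h1 := congrFun ((cov_dep (S := S) (le := le) (ϑw := ϑw) hs hl k i).mono
    (tm_mono hs i (by omega : 1 ≤ l + 1)) v v' h) x
  simp only at h1
  rw [h1]

/-- The sum over the times of the uncovered catching probabilities. -/
lemma sum_cov_le {r : ℕ} {u w : Finset V} {F : Finset (Finset V)} {v : ℕ → Finset V}
    (hv : IsCh F r u w v) {R : ℕ → ℝ} {l : ℕ} (hR : 0 ≤ R l) (k : Fin n) (x : V) :
    ∑ i ∈ range r, ind (x ∈ v (tm s i (l + 1)) ∧ x ∉ v i ∧ NC n S le s ϑw R i l k v x) *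
      qq n S le i (tm s i) ϑw l k v x ≤ R l * ind (x ∈ w \ u) := by
  by_cases hx : x ∈ w \ u
  · rw [ind_true hx, mul_one]
    classical
    set A := (range r).filter (fun i => x ∈ v (tm s i (l + 1)) ∧ x ∉ v i ∧
      NC n S le s ϑw R i l k v x) with hA
    have h1 : ∑ i ∈ range r, ind (x ∈ v (tm s i (l + 1)) ∧ x ∉ v i ∧
        NC n S le s ϑw R i l k v x) * qq n S le i (tm s i) ϑw l k v x
        = ∑ i ∈ A, qq n S le i (tm s i) ϑw l k v x := by
      rw [hA, Finset.sum_filter]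
      apply Finset.sum_congr rfl
      intro i _
      by_cases h : x ∈ v (tm s i (l + 1)) ∧ x ∉ v i ∧ NC n S le s ϑw R i l k v x
      · rw [ind_true h, if_pos h, one_mul]
      · rw [ind_false h, if_neg h, zero_mul]
    rw [h1]
    rcases A.eq_empty_or_nonempty with he | hne
    · rw [he, sum_empty]; exact hR
    · have hmax := A.max'_mem hne
      set im := A.max' hne with him
      rw [hA, mem_filter] at hmax
      have hent : ∀ i ∈ A, i / 2 ^ (s (l + 1)) = ent v x / 2 ^ (s (l + 1)) := by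
        intro i hi
        rw [hA, mem_filter] at hi
        have h2 := hv.le_ent hx hi.2.2.1
        have h3 := hv.ent_lt hx hi.2.1
        exact (div_eq_of_blk (Nat.pow_pos (by norm_num)) ((blk_le _ i).trans h2) h3).symm
      have h4 : im ∈ A := by rw [hA, mem_filter]; exact hmax
      refine le_trans ?_ (hmax.2.2.2 : cov n S le s ϑw l k v im x < R l).le
      unfold cov
      apply Finset.sum_le_sum_of_subset_of_nonneg
      · intro i hi
        rw [mem_filter, mem_range]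
        refine ⟨?_, ?_⟩
        · have := A.le_max' i hi
          rw [← him] at this
          omega
        · rw [hent i hi, hent im h4]
      · intro i _ _
        exact qq_nonneg l k v i x
  · rw [ind_false hx, mul_zero]
    apply le_of_eq
    apply Finset.sum_eq_zero
    intro i _
    rw [ind_false, zero_mul]
    rintro ⟨h1, h2, _⟩
    apply hx
    rw [mem_sdiff]
    exact ⟨hv.sub _ h1, fun h => h2 (hv.sup _ h)⟩

/-- Blocks sums of the sizes. -/
lemma sum_be {p : ℕ → ℝ} (hp : Monotone p) {m K : ℕ} (hm : m ≤ K) :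
    ∑ i ∈ range (2 ^ K), (p (be m i) - p i) ≤ 2 ^ m * (p (2 ^ K) - p 0) := by
  have h2m : 0 < 2 ^ m := Nat.pow_pos (by norm_num)
  have key : ∀ Rr : ℕ, ∑ i ∈ range (2 ^ m * Rr), (p (be m i) - p i)
      ≤ 2 ^ m * (p (2 ^ m * Rr) - p 0) := by
    intro Rr
    induction Rr with
    | zero => simp
    | succ Rr ih =>
      rw [Nat.mul_succ, Finset.sum_range_add]
      have h1 : ∑ b ∈ range (2 ^ m), (p (be m (2 ^ m * Rr + b)) - p (2 ^ m * Rr + b))
          ≤ ∑ b ∈ range (2 ^ m), (p (2 ^ m * Rr + 2 ^ m) - p (2 ^ m * Rr)) := by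
        apply sum_le_sum
        intro b hb
        rw [mem_range] at hb
        have h2 : be m (2 ^ m * Rr + b) = 2 ^ m * Rr + 2 ^ m := by
          unfold be
          rw [Nat.mul_add_div h2m, Nat.div_eq_of_lt hb, add_zero]
        rw [h2]
        have h3 : p (2 ^ m * Rr) ≤ p (2 ^ m * Rr + b) := hp (by omega)
        linarith
      rw [sum_const, card_range, nsmul_eq_mul] at h1
      push_cast at h1
      linarith
  have h4 : 2 ^ K = 2 ^ m * 2 ^ (K - m) := by rw [← pow_add]; congr 1; omega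
  rw [h4]
  exact key _

end Pool.Agent.Helper884_Full
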