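import Pool.Agent.Helper884_Full.Zones
import Pool.Agent.Helper884_MultiScale.Growth

/-!
# Fractional greedy covering and decoding
-/

set_option autoImplicit false
set_option linter.unusedSectionVars false

namespace Pool.Agent.Helper884_Full

open Finset
open Pool.Agent.Helper884_MultiScale (IsCh ent lt_blk blk_le div_eq_of_blk eq_of_div_mod
  ent_eq_of_coarse tree_count)

open Classical in
/-- Greedy choice with fractional weights. -/
lemma greedyW {X Ω : Type*} (Om : Finset Ω) (A : Finset X)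
    (inc : X → Ω → Prop) (ω cost : Ω → ℝ) (hω : ∀ o, 0 ≤ ω o) (hcost : ∀ o, 0 ≤ cost o)
    (R : ℝ) (hR : 0 < R) (hA : ∀ x ∈ A, R ≤ ∑ o ∈ Om, ω o * ind (inc x o))
    (n η : ℝ) (hn : (A.card : ℝ) ≤ n) (hη : 0 < η) (Z : ℝ) (hZ : 0 < Z)
    (hZ' : ∑ o ∈ Om, ω o * cost o ≤ Z) :
    ∃ E ⊆ Om, ((A.filter (fun x => ∀ o ∈ E, ¬ inc x o)).card : ℝ) ≤ η * n ∧
      ∑ o ∈ E, cost o ≤ Z / (R * η) := by
  have hn0 : 0 ≤ n := le_trans (Nat.cast_nonneg _) hn
  rcases hn0.eq_or_lt with hn1 | hnpos
  · refine ⟨∅, by simp, ?_, ?_⟩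
    · have h1 : ((A.filter (fun x => ∀ o ∈ (∅ : Finset Ω), ¬ inc x o)).card : ℝ) ≤ A.card := by
        exact_mod_cast card_filter_le _ _
      have h2 : η * n = 0 := by rw [← hn1]; ring
      rw [h2]; linarith
    · simp only [sum_empty]; positivity
  let U : Finset Ω → Finset X := fun E => A.filter (fun x => ∀ o ∈ E, ¬ inc x o)
  let ψ : Finset Ω → ℝ := fun E => Z * ((U E).card : ℝ) + R * η * n * ∑ o ∈ E, cost o
  obtain ⟨E, hE, hmin⟩ := Om.powerset.exists_min_image ψ ⟨∅, by simp⟩
  rw [mem_powerset] at hE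
  refine ⟨E, hE, ?_, ?_⟩
  · have hstep : ∀ o ∈ Om, Z * ∑ x ∈ U E, ind (inc x o) ≤ R * η * n * cost o := by
      intro o ho
      have h1 := hmin (insert o E) (by rw [mem_powerset]; exact insert_subset ho hE)
      have h2 : ((U (insert o E)).card : ℝ) = ((U E).card : ℝ) - ∑ x ∈ U E, ind (inc x o) := by
        have h3 : U (insert o E) = (U E).filter (fun x => ¬ inc x o) := by
          ext x
          simp only [U, mem_filter, mem_insert, forall_eq_or_imp]
          tauto
        have h4 : ∑ x ∈ U E, ind (inc x o) = (((U E).filter (fun x => inc x o)).card : ℝ) := by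
          rw [Finset.card_filter]
          push_cast
          apply Finset.sum_congr rfl
          intro x _
          by_cases h : inc x o
          · simp [ind, h]
          · simp [ind, h]
        have h5 := Finset.card_filter_add_card_filter_not (s := U E) (fun x => inc x o)
        have h6 : ((((U E).filter (fun x => inc x o)).card : ℝ)
            + (((U E).filter (fun x => ¬ inc x o)).card : ℝ)) = ((U E).card : ℝ) := by
          exact_mod_cast h5
        rw [h3, h4]
        linarith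
      have h6 : ∑ j ∈ insert o E, cost j ≤ cost o + ∑ j ∈ E, cost j := by
        by_cases hoE : o ∈ E
        · rw [Finset.insert_eq_of_mem hoE]
          linarith [hcost o]
        · rw [Finset.sum_insert hoE]
      have h7 : R * η * n * ∑ j ∈ insert o E, cost j
          ≤ R * η * n * (cost o + ∑ j ∈ E, cost j) :=
        mul_le_mul_of_nonneg_left h6 (by positivity)
      simp only [ψ] at h1
      rw [h2] at h1
      nlinarith
    have hsum : Z * ∑ x ∈ U E, ∑ o ∈ Om, ω o * ind (inc x o) ≤ R * η * n * Z := by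
      calc Z * ∑ x ∈ U E, ∑ o ∈ Om, ω o * ind (inc x o)
          = ∑ o ∈ Om, ω o * (Z * ∑ x ∈ U E, ind (inc x o)) := by
            rw [Finset.sum_comm, Finset.mul_sum]
            apply Finset.sum_congr rfl
            intro o _
            rw [← Finset.mul_sum]; ring
        _ ≤ ∑ o ∈ Om, ω o * (R * η * n * cost o) :=
            sum_le_sum (fun o ho => mul_le_mul_of_nonneg_left (hstep o ho) (hω o))
        _ = R * η * n * ∑ o ∈ Om, ω o * cost o := by
            rw [Finset.mul_sum]
            exact Finset.sum_congr rfl (fun o _ => by ring)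
        _ ≤ R * η * n * Z := mul_le_mul_of_nonneg_left hZ' (by positivity)
    have hlow : R * ((U E).card : ℝ) ≤ ∑ x ∈ U E, ∑ o ∈ Om, ω o * ind (inc x o) := by
      calc R * ((U E).card : ℝ) = ∑ x ∈ U E, R := by simp [mul_comm]
        _ ≤ _ := sum_le_sum (fun x hx => hA x (mem_filter.1 hx).1)
    have h8 : Z * (R * ((U E).card : ℝ)) ≤ Z * (R * (η * n)) := by
      calc Z * (R * ((U E).card : ℝ)) ≤ Z * ∑ x ∈ U E, ∑ o ∈ Om, ω o * ind (inc x o) :=
            mul_le_mul_of_nonneg_left hlow hZ.le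
        _ ≤ R * η * n * Z := hsum
        _ = Z * (R * (η * n)) := by ring
    exact le_of_mul_le_mul_left (le_of_mul_le_mul_left h8 hZ) hR
  · have h1 := hmin ∅ (by simp)
    simp only [ψ, sum_empty, mul_zero, add_zero] at h1
    have h2 : R * η * n * ∑ o ∈ E, cost o ≤ Z * n := by
      have h3 : ((U ∅).card : ℝ) ≤ A.card := by exact_mod_cast card_filter_le _ _
      have h4 : Z * ((U ∅).card : ℝ) ≤ Z * n := mul_le_mul_of_nonneg_left (h3.trans hn) hZ.le
      have h5 : 0 ≤ Z * ((U E).card : ℝ) := by positivity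
      linarith
    rw [le_div_iff₀ (by positivity)]
    have h5 : n * ((∑ o ∈ E, cost o) * (R * η)) ≤ n * Z := by linarith
    exact le_of_mul_le_mul_left h5 hnpos

/-- Elements of a finite set are determined by their rank. -/
lemma eq_of_rank {A : Finset ℕ} {a b : ℕ} (ha : a ∈ A) (hb : b ∈ A)
    (h : (A.filter (fun i => i < a)).card = (A.filter (fun i => i < b)).card) : a = b := by
  by_contra hne
  rcases Nat.lt_or_gt_of_ne hne with hlt | hlt
  · have : A.filter (fun i => i < a) ⊂ A.filter (fun i => i < b) := by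
      rw [Finset.ssubset_iff_of_subset]
      · exact ⟨a, mem_filter.2 ⟨ha, hlt⟩, by simp⟩
      · intro i hi
        rw [mem_filter] at hi ⊢
        exact ⟨hi.1, hi.2.trans hlt⟩
    exact absurd h (Finset.card_lt_card this).ne
  · have : A.filter (fun i => i < b) ⊂ A.filter (fun i => i < a) := by
      rw [Finset.ssubset_iff_of_subset]
      · exact ⟨b, mem_filter.2 ⟨hb, hlt⟩, by simp⟩
      · intro i hi
        rw [mem_filter] at hi ⊢
        exact ⟨hi.1, hi.2.trans hlt⟩
    exact absurd h.symm (Finset.card_lt_card this).ne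

section decode

variable {V : Type*} [DecidableEq V] {ι 𝒟 : Type*}

/-- Appearances of `x` in the initial zones. -/
def App0 (r : ℕ) (Zi : ℕ → Finset V → Finset V) (v : ℕ → Finset V) (x : V) : Finset ℕ :=
  (range r).filter (fun i => x ∈ Zi i (v i))

open Classical in
/-- Appearances of `x` in the announced zones. -/
noncomputable def App (r : ℕ) (Zf : ι → ℕ → Finset V → 𝒟 → Finset V)
    (E : ι → (ℕ → Finset V) → ℕ → Finset 𝒟) (σ : ι) (v : ℕ → Finset V) (x : V) : Finset ℕ :=
  (range r).filter (fun i => ∃ D ∈ E σ v i, x ∈ Zf σ i (v i) D)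

/-- The codes of two chains agree. -/
structure SameCode (r s : ℕ) (t : ι → ℕ) (u w : Finset V) (Zi : ℕ → Finset V → Finset V)
    (Zf : ι → ℕ → Finset V → 𝒟 → Finset V) (E : ι → (ℕ → Finset V) → ℕ → Finset 𝒟)
    (B : Finset V) (cls : V → Option ι) (lab : V → ℕ × ℕ) (v : ℕ → Finset V) : Prop where
  bad : ∀ x ∈ w \ u, x ∈ B → ent v x % s = (lab x).1
  zero : ∀ x ∈ w \ u, x ∉ B → cls x = none →
    x ∈ Zi (ent v x) (v (ent v x)) ∧ (App0 r Zi v x).card = (lab x).1
  ann : ∀ x ∈ w \ u, x ∉ B → ∀ σ, cls x = some σ → ent v x % t σ = (lab x).2 ∧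
    ∃ i ∈ App r Zf E σ v x, i ≤ ent v x ∧ i / t σ = ent v x / t σ ∧
      ((App r Zf E σ v x).filter (fun i' => i' < i)).card = (lab x).1

variable {F : Finset (Finset V)} {r s : ℕ} {t : ι → ℕ} {u w : Finset V}
  {Zi : ℕ → Finset V → Finset V}
  {Zf : ι → ℕ → Finset V → 𝒟 → Finset V} {E : ι → (ℕ → Finset V) → ℕ → Finset 𝒟}
  {B : Finset V} {cls : V → Option ι} {lab : V → ℕ × ℕ} {v v' : ℕ → Finset V}

lemma half_decode2 (h : IsCh F r u w v) (h' : IsCh F r u w v') (hs : 0 < s)
    (hq : ∀ i, v (s * i) = v' (s * i))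
    (hZi : ∀ i, ∀ x ∈ Zi i (v i), x ∉ v i) (hZi' : ∀ i, ∀ x ∈ Zi i (v' i), x ∉ v' i)
    (hc : SameCode r s t u w Zi Zf E B cls lab v) (hc' : SameCode r s t u w Zi Zf E B cls lab v')
    (i₀ : ℕ) (heq : ∀ i ≤ i₀, v i = v' i) (hE : ∀ i ≤ i₀, ∀ σ, E σ v i = E σ v' i) :
    v (i₀ + 1) ⊆ v' (i₀ + 1) := by
  classical
  intro x hx
  by_cases hxi : x ∈ v i₀
  · rw [heq i₀ le_rfl] at hxi
    exact h'.1 (by omega) hxi
  have hxwu : x ∈ w \ u := by
    rw [mem_sdiff]
    exact ⟨h.sub _ hx, fun hxu => hxi (h.sup _ hxu)⟩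
  have hent : ent v x = i₀ := by
    have h1 := h.le_ent hxwu hxi
    have h2 := h.ent_lt hxwu hx
    omega
  suffices hsuff : ent v' x = i₀ by
    have := h'.ent_mem hxwu
    rwa [hsuff] at this
  by_cases hxB : x ∈ B
  · have := ent_eq_of_coarse h h' hs hq hxwu (by rw [hc.bad x hxwu hxB, hc'.bad x hxwu hxB])
    rw [← this, hent]
  rcases hcl : cls x with _ | σ
  · obtain ⟨h1, h2⟩ := hc.zero x hxwu hxB hcl
    obtain ⟨h1', h2'⟩ := hc'.zero x hxwu hxB hcl
    have hsub : App0 r Zi v x ⊆ App0 r Zi v' x := by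
      intro i hi
      rw [App0, mem_filter] at hi ⊢
      refine ⟨hi.1, ?_⟩
      have h3 := h.le_ent hxwu (hZi i x hi.2)
      rw [hent] at h3
      rw [← heq i h3]
      exact hi.2
    have hEq : App0 r Zi v x = App0 r Zi v' x := by
      apply Finset.eq_of_subset_of_card_le hsub
      rw [h2, h2']
    have h3 : ent v' x ∈ App0 r Zi v' x := mem_filter.2 ⟨mem_range.2 (h'.ent_lt_r hxwu), h1'⟩
    have h4 : ent v x ∈ App0 r Zi v x := mem_filter.2 ⟨mem_range.2 (h.ent_lt_r hxwu), h1⟩
    rw [← hEq, App0, mem_filter] at h3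
    rw [hEq, App0, mem_filter] at h4
    have h5 := h.le_ent hxwu (hZi _ x h3.2)
    have h6 := h'.le_ent hxwu (hZi' _ x h4.2)
    omega
  · obtain ⟨h1, i, hi, h2, h3, h4⟩ := hc.ann x hxwu hxB σ hcl
    obtain ⟨h1', i', hi', h2', h3', h4'⟩ := hc'.ann x hxwu hxB σ hcl
    rw [hent] at h2
    have hiff : ∀ j ≤ i₀, (j ∈ App r Zf E σ v x ↔ j ∈ App r Zf E σ v' x) := by
      intro j hj
      simp only [App, mem_filter]
      rw [heq j hj, hE j hj σ]
    have hi2 : i ∈ App r Zf E σ v' x := (hiff i h2).1 hi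
    have hrank : ((App r Zf E σ v' x).filter (fun j => j < i)).card
        = ((App r Zf E σ v' x).filter (fun j => j < i')).card := by
      rw [h4', ← h4]
      congr 1
      ext j
      simp only [mem_filter]
      constructor
      · rintro ⟨h5, h6⟩
        exact ⟨(hiff j (by omega)).2 h5, h6⟩
      · rintro ⟨h5, h6⟩
        exact ⟨(hiff j (by omega)).1 h5, h6⟩
    have hii : i = i' := eq_of_rank hi2 hi' hrank
    have : ent v' x = ent v x := by
      apply eq_of_div_mod (s := t σ)
      · rw [← h3', ← h3, hii]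
      · rw [h1, h1']
    rw [this, hent]

/-- Counting chains with a given code. -/
lemma core_count2 [Fintype ι] [DecidableEq ι] [DecidableEq 𝒟]
    (S : Finset (ℕ → Finset V)) (hS : ∀ v ∈ S, IsCh F r u w v)
    (hs : 0 < s) (q : ℕ → Finset V) (hq : ∀ v ∈ S, ∀ i, v (s * i) = q i)
    (hZi : ∀ v ∈ S, ∀ i, ∀ x ∈ Zi i (v i), x ∉ v i)
    (hc : ∀ v ∈ S, SameCode r s t u w Zi Zf E B cls lab v)
    (Ds : ι → ℕ → Finset V → Finset 𝒟) (hE : ∀ v ∈ S, ∀ σ i, E σ v i ⊆ Ds σ i (v i))
    (cc : ι → ℕ → ℕ) (hcc : ∀ v ∈ S, ∀ σ, ∀ i < r, (E σ v i).card = cc σ i)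
    (Bn : ι → ℕ → ℕ) (hBn : ∀ v ∈ S, ∀ σ, ∀ i < r, cc σ i ≠ 0 → (Ds σ i (v i)).card ≤ Bn σ i) :
    S.card ≤ ∏ i ∈ range r, ∏ σ, Bn σ i ^ cc σ i := by
  classical
  have hdec : ∀ v ∈ S, ∀ v' ∈ S, ∀ i,
      (∀ i' < i, (v' i', fun σ => E σ v' i') = (v i', fun σ => E σ v i')) → v' i = v i := by
    intro v hv v' hv' i hi
    rcases Nat.eq_zero_or_pos i with rfl | hpos
    · rw [(hS v hv).2.1, (hS v' hv').2.1]
    · obtain ⟨i₀, rfl⟩ : ∃ j, i = j + 1 := ⟨i - 1, by omega⟩
      have heq : ∀ i ≤ i₀, v i = v' i := by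
        intro i h
        exact (congrArg Prod.fst (hi i (by omega))).symm
      have hEE : ∀ i ≤ i₀, ∀ σ, E σ v i = E σ v' i := by
        intro i h σ
        exact (congrFun (congrArg Prod.snd (hi i (by omega))) σ).symm
      apply Finset.Subset.antisymm
      · exact half_decode2 (hS v' hv') (hS v hv) hs
          (fun i => by rw [hq v hv, hq v' hv']) (hZi v' hv') (hZi v hv) (hc v' hv') (hc v hv)
          i₀ (fun i h => (heq i h).symm) (fun i h σ => (hEE i h σ).symm)
      · exact half_decode2 (hS v hv) (hS v' hv') hs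
          (fun i => by rw [hq v hv, hq v' hv']) (hZi v hv) (hZi v' hv') (hc v hv) (hc v' hv')
          i₀ heq hEE
  apply tree_count r S (fun v i => (v i, fun σ => E σ v i))
  · intro i hi v hv
    calc _ ≤ (({v i} : Finset (Finset V)) ×ˢ
          Fintype.piFinset (fun σ => powersetCard (cc σ i) (Ds σ i (v i)))).card := by
          apply card_le_card
          intro y hy
          rw [mem_image] at hy
          obtain ⟨v', hv', rfl⟩ := hy
          rw [mem_filter] at hv'
          have h1 := hdec v hv v' hv'.1 i hv'.2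
          rw [mem_product]
          refine ⟨by simp [h1], ?_⟩
          rw [Fintype.mem_piFinset]
          intro σ
          rw [mem_powersetCard]
          refine ⟨?_, hcc v' hv'.1 σ i hi⟩
          have h2 := hE v' hv'.1 σ i
          rw [h1] at h2
          exact h2
      _ = ∏ σ, ((Ds σ i (v i)).card).choose (cc σ i) := by
          rw [card_product, card_singleton, one_mul, Fintype.card_piFinset]
          simp
      _ ≤ ∏ σ, Bn σ i ^ cc σ i := by
          apply Finset.prod_le_prod (fun _ _ => Nat.zero_le _)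
          intro σ _
          by_cases h0 : cc σ i = 0
          · rw [h0]; simp
          · exact (Nat.choose_le_pow _ _).trans (Nat.pow_le_pow_left (hBn v hv σ i hi h0) _)
  · intro v hv v' hv' h
    funext i
    rcases Nat.lt_or_ge i r with hi | hi
    · exact congrArg Prod.fst (h i hi)
    · rw [(hS v hv).2.2.1 i hi, (hS v' hv').2.2.1 i hi]

end decode

end Pool.Agent.Helper884_Full
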