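import Pool.Agent.Helper884_Full.Zones

/-!
# The inequalities at one time
-/

set_option autoImplicit false
set_option linter.unusedSectionVars false

namespace Pool.Agent.Helper884_Full

open Finset

variable {V : Type*} [Fintype V] [DecidableEq V] {n : ℕ}
variable {S : Finset (ℕ → Finset V)} {le : ℕ → ℕ → Bool} {i : ℕ} {e : ℕ → ℕ}

lemma res_res {j l : ℕ} (hjl : j ≤ l) (c : Cf n V) : res j (res l c) = res j c := by
  unfold res
  congr 1
  funext m
  dsimp only
  split_ifs with h1 h2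
  · rfl
  · omega
  · rfl

lemma DD_res (k : Fin n) {j l : ℕ} (hjl : j ≤ l + 1) (c : Cf n V) :
    DD le k j (res l c) = DD le k j c := by
  cases j with
  | zero => rfl
  | succ j =>
    simp only [DD]
    rw [res_res (by omega)]

/-- The escape event. -/
noncomputable def stE (n : ℕ) (S : Finset (ℕ → Finset V)) (le : ℕ → ℕ → Bool) (i : ℕ)
    (e : ℕ → ℕ) (ϑ ϑw : ℕ → ℝ) (k : Fin n) (j : ℕ) (v : ℕ → Finset V) (c : Cf n V) (x : V) : Prop :=
  x ∈ c.1 k ∧
    x ∈ Zn n S le i e k j (ϑ j) (e (j + 1)) (v i) (v (e (j + 1))) (DD le k j c) ∧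
    x ∉ Zn n S le i e k j (ϑw j) (e (n + 1)) (v i) (v (e (n + 1))) (DD le k j c)

/-- The step event. -/
noncomputable def pE (n : ℕ) (S : Finset (ℕ → Finset V)) (le : ℕ → ℕ → Bool) (i : ℕ)
    (e : ℕ → ℕ) (ϑ ϑw : ℕ → ℝ) (nc : ℕ → Fin n → (ℕ → Finset V) → V → Prop)
    (k : Fin n) (l : ℕ) (v : ℕ → Finset V) (c : Cf n V) (x : V) : Prop :=
  x ∈ c.1 k ∧ nc l k v x ∧
    x ∉ Zn n S le i e k l (ϑ l) (e (l + 1)) (v i) (v (e (l + 1))) (DD le k l c) ∧
    x ∈ Zn n S le i e k (l + 1) (ϑw (l + 1)) (e (n + 1)) (v i) (v (e (n + 1))) (DD le k (l + 1) c)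

/-- The final event. -/
noncomputable def fE (n : ℕ) (S : Finset (ℕ → Finset V)) (le : ℕ → ℕ → Bool) (i : ℕ)
    (e : ℕ → ℕ) (ϑ : ℕ → ℝ) (k : Fin n) (l : Fin n) (v : ℕ → Finset V) (c : Cf n V) (x : V) :
    Prop :=
  x ∈ c.1 k ∧ x ∉ v i ∧ x ∈ c.2 l ∧
    x ∉ Zn n S le i e k (l + 1) (ϑ (l + 1)) (e (l + 2)) (v i) (v (e (l + 2)))
      (DD le k (l + 1) c)

/-- The catching probability at level `l + 1`. -/
noncomputable def qq (n : ℕ) (S : Finset (ℕ → Finset V)) (le : ℕ → ℕ → Bool) (i : ℕ)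
    (e : ℕ → ℕ) (ϑw : ℕ → ℝ) (l : ℕ) (k : Fin n) (v : ℕ → Finset V) (x : V) : ℝ :=
  ex (Lam n S le i e l (v i) (v (e (l + 1)))) (fun c =>
    ind (x ∈ Zn n S le i e k (l + 1) (ϑw (l + 1)) (e (n + 1)) (v i) (v (e (n + 1))) (rho le k c)))

section ineqs

variable (hS : Closed S) (hmono : ∀ v ∈ S, Monotone v) (he : Monotone e) (hi : i ≤ e 0)
  (hle : ∀ a b, le a b → a ≤ b) (htrans : ∀ a b c, le a b → le b c → le a c)

include hS hmono he hi hle in
lemma st_ineq {ϑ ϑw : ℕ → ℝ} (hϑ : ∀ j, 0 < ϑ j) (hϑw : ∀ j, 0 < ϑw j) {d : ℝ}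
    (hd : ∀ v ∈ S, ((v (e 0) \ v i).card : ℝ) ≤ d) (k : Fin n) {j : ℕ} (hj : j ≤ n) :
    ∑ v ∈ S, ex (KK n S le i e n v) (fun c => ∑ x, ind (stE n S le i e ϑ ϑw k j v c x))
      ≤ caught n S le i e k j (ϑ j) (e (j + 1)) - caught n S le i e k j (ϑw j) (e (n + 1))
        + ϑ j / ϑw j * d * S.card := by
  have hj1 : e j ≤ e (j + 1) := he (by omega)
  have hjn : e (j + 1) ≤ e (n + 1) := he (by omega)
  have h1 := KK_ker (n := n) (le := le) hS he hi k (j := j) (N := n) (by omega)
    (fun v a D => ∑ x, ind (x ∈ a ∧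
      x ∈ Zn n S le i e k j (ϑ j) (e (j + 1)) (v i) (v (e (j + 1))) D ∧
      x ∉ Zn n S le i e k j (ϑw j) (e (n + 1)) (v i) (v (e (n + 1))) D)) (by
      intro v v' hv
      simp only
      rw [hv i (Or.inl le_rfl), hv (e (j + 1)) (Or.inr hj1), hv (e (n + 1)) (Or.inr (hj1.trans hjn))])
    (by
      intro hj0 v v' hv
      subst hj0
      simp only
      rw [hv i (Or.inl le_rfl), hv (e (0 + 1)) (Or.inr le_rfl), hv (e (n + 1)) (Or.inr hjn)])
  have h2 := stab hS hmono he hi hle k (j := j) (T := e (j + 1)) (T' := e (n + 1)) hj1 hjn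
    (hϑ j) (hϑw j) hd
  exact h1.trans_le h2

include hS hmono he hi hle htrans in
lemma p_ineq {ϑ ϑw : ℕ → ℝ} (hϑ : ∀ j, 0 < ϑ j)
    (nc : ℕ → Fin n → (ℕ → Finset V) → V → Prop)
    (k : Fin n) {l : ℕ} (hl : l < n) (hnc : Dep i (e (l + 1)) (nc l k)) :
    ∑ v ∈ S, ex (KK n S le i e n v) (fun c => ∑ x, ind (pE n S le i e ϑ ϑw nc k l v c x))
      ≤ ϑ l * ∑ v ∈ S, ∑ x, ind (x ∈ v (e (l + 1)) ∧ x ∉ v i ∧ nc l k v x) *
          qq n S le i e ϑw l k v x := by
  have hln : e (l + 1) ≤ e (n + 1) := he (by omega)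
  let F : (ℕ → Finset V) → Cf n V → ℝ := fun v c => ∑ x, ind (x ∈ c.1 k ∧ nc l k v x ∧
    x ∉ Zn n S le i e k l (ϑ l) (e (l + 1)) (v i) (v (e (l + 1))) (DD le k l c) ∧
    x ∈ Zn n S le i e k (l + 1) (ϑw (l + 1)) (e (n + 1)) (v i) (v (e (n + 1))) (rho le k c))
  have h1 : ∀ v, ex (KK n S le i e n v) (fun c => ∑ x, ind (pE n S le i e ϑ ϑw nc k l v c x))
      = ex (KK n S le i e l v) (F v) := by
    intro v
    rw [← KK_res (S := S) (le := le) (i := i) (e := e) (j := l) (l := n) (by omega) v (F v)]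
    apply ex_congr
    intro c _
    simp only [F, pE]
    rw [DD_res k (by omega)]
    rfl
  simp only [h1]
  rw [KK_markov hS he hi l F (by
    intro v v' hv
    simp only [F]
    rw [hnc v v' hv, hv i (Or.inl le_rfl), hv (e (l + 1)) (Or.inr le_rfl),
      hv (e (n + 1)) (Or.inr hln)]), Finset.mul_sum]
  apply sum_le_sum
  intro v hv
  simp only [F]
  rw [ex_sum, Finset.mul_sum]
  apply sum_le_sum
  intro x _
  by_cases hx : x ∈ v (e (l + 1)) ∧ x ∉ v i ∧ nc l k v x
  · rw [ind_true hx, one_mul]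
    have h2 := step_ineq (S := S) (i := i) (e := e) htrans k l (hϑ l).le (v i) (v (e (l + 1))) x hx.2.1
      (fun D => ind (x ∈ Zn n S le i e k (l + 1) (ϑw (l + 1)) (e (n + 1)) (v i) (v (e (n + 1))) D))
      (fun D => ind_nonneg _)
    refine le_trans (le_of_eq ?_) h2
    apply ex_congr
    intro c _
    rw [ind_and, ind_and, ind_and, ind_true hx.2.2, one_mul]
  · rw [ind_false hx, zero_mul, mul_zero]
    apply le_of_eq
    rw [← ex_const (Lam n S le i e l (v i) (v (e (l + 1)))) (0 : ℝ)]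
    apply ex_congr
    intro c hc
    apply ind_false
    rintro ⟨h3, h4, h5, h6⟩
    apply hx
    refine ⟨?_, notMem_of_Zn h6, h4⟩
    exact ((Lam_supp hmono he hle l _ _ c ⟨v, hv, rfl, rfl⟩ hc).1 k).2 h3

include hS hmono he hi hle htrans in
lemma f_ineq {ϑ : ℕ → ℝ} (hϑ : ∀ j, 0 < ϑ j) (k : Fin n) (l : Fin n) (hkl : ¬ le k l) {m : ℝ}
    (hm : ∀ v ∈ S, ((v (e (l + 1)) \ v i).card : ℝ) ≤ m) :
    ∑ v ∈ S, ex (KK n S le i e n v) (fun c => ∑ x, ind (fE n S le i e ϑ k l v c x))
      ≤ ϑ (l + 1) * m * S.card := by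
  let F : (ℕ → Finset V) → Cf n V → ℝ := fun v c => ∑ x, ind (x ∈ c.1 k ∧ x ∉ v i ∧ x ∈ c.2 l ∧
    x ∉ Zn n S le i e k (l + 1) (ϑ (l + 1)) (e (l + 2)) (v i) (v (e (l + 2)))
      (DD le k (l + 1) c))
  have h1 : ∀ v, ex (KK n S le i e n v) (fun c => ∑ x, ind (fE n S le i e ϑ k l v c x))
      = ex (KK n S le i e (l + 1) v) (F v) := by
    intro v
    have hl := l.2
    rw [← KK_res (S := S) (le := le) (i := i) (e := e) (j := l + 1) (l := n) (by omega) v (F v)]
    apply ex_congr
    intro c _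
    simp only [F, fE]
    rw [DD_res k (by omega)]
    have h2 : (res ((l : ℕ) + 1) c).2 l = c.2 l := by simp [res]
    rw [h2]
    rfl
  simp only [h1]
  rw [KK_markov hS he hi (l + 1) F (by
    intro v v' hv
    simp only [F]
    rw [hv i (Or.inl le_rfl), hv (e (l + 2)) (Or.inr le_rfl)])]
  calc _ ≤ ∑ v ∈ S, ϑ (l + 1) * m := by
        apply sum_le_sum
        intro v hv
        simp only [F]
        rw [ex_sum]
        calc _ ≤ ∑ x, ϑ (l + 1) * ex (Lam n S le i e (l + 1) (v i) (v (e (l + 1 + 1))))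
              (fun c => ind (x ∈ c.2 l \ v i)) := by
              apply sum_le_sum
              intro x _
              by_cases hx : x ∉ v i
              · have h2 := step_ineq (S := S) (i := i) (e := e) htrans k (l + 1)
                  (hϑ (l + 1)).le (v i) (v (e (l + 1 + 1))) x hx
                  (fun D => ind (x ∈ D.2 l)) (fun D => ind_nonneg _)
                refine le_trans (le_of_eq ?_) (h2.trans (le_of_eq ?_))
                · apply ex_congr
                  intro c _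
                  rw [ind_and, ind_and, ind_true hx, one_mul, ind_and]
                  have h3 : (rho le k c).2 l = c.2 l := by simp [rho, hkl]
                  rw [h3]
                  ring
                · congr 1
                  apply ex_congr
                  intro c _
                  have h3 : (rho le k c).2 l = c.2 l := by simp [rho, hkl]
                  rw [h3]
                  apply ind_congr
                  rw [mem_sdiff]
                  tauto
              · have h3 : ∀ c : Cf n V, ind (x ∈ c.1 k ∧ x ∉ v i ∧ x ∈ c.2 l ∧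
                    x ∉ Zn n S le i e k (l + 1) (ϑ (l + 1)) (e (l + 2)) (v i) (v (e (l + 2)))
                      (DD le k (l + 1) c)) = 0 := by
                  intro c
                  apply ind_false
                  rintro ⟨_, h4, _⟩
                  exact hx h4
                simp only [h3]
                rw [ex_const]
                exact mul_nonneg (hϑ _).le (ex_nonneg (fun c _ => ind_nonneg _))
          _ = ϑ (l + 1) * ex (Lam n S le i e (l + 1) (v i) (v (e (l + 1 + 1))))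
              (fun c => ((c.2 l \ v i).card : ℝ)) := by
              rw [← Finset.mul_sum, ← ex_sum]
              congr 1
              apply ex_congr
              intro c _
              rw [card_eq_sum_ind]
          _ ≤ ϑ (l + 1) * m := by
              apply mul_le_mul_of_nonneg_left _ (hϑ _).le
              apply ex_le_const
              intro c hc
              obtain ⟨⟨v', hv', h4, h5⟩, -⟩ :=
                (Lam_supp hmono he hle (l + 1) _ _ c ⟨v, hv, rfl, rfl⟩ hc).2 l (by omega)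
              rw [← h5, ← h4]
              exact hm v' hv'
    _ = ϑ (l + 1) * m * S.card := by rw [sum_const, nsmul_eq_mul]; ring

end ineqs

end Pool.Agent.Helper884_Full
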