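import Pool.Agent.Helper884_Full.Count

/-!
# The growth exponent vanishes
-/

set_option autoImplicit false
set_option linter.unusedSectionVars false

namespace Pool.Agent.Helper884_Full

open Finset
open Pool.Agent.Helper884_MultiScale (IsCh IsCh.coarse ent poly_le)
open Pool.Agent.Helper884_ChainCount (pigeon)

section allChains

variable {V : Type*} [Fintype V] [DecidableEq V]

lemma chains_finite (F : Finset (Finset V)) (r : ℕ) (u w : Finset V) (p : ℕ → ℕ) :
    {v : ℕ → Finset V | IsCh F r u w v ∧ ∀ i, (v i).card = p i}.Finite := by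
  let ext : (Fin r → Finset V) → (ℕ → Finset V) := fun g i => if h : i < r then g ⟨i, h⟩ else w
  apply (Set.finite_range ext).subset
  rintro v ⟨hv, _⟩
  refine ⟨fun i => v i, ?_⟩
  funext i
  simp only [ext]
  split_ifs with h
  · rfl
  · exact (hv.2.2.1 i (by omega)).symm

/-- All chains with given data. -/
noncomputable def allCh (F : Finset (Finset V)) (r : ℕ) (u w : Finset V) (p : ℕ → ℕ) :
    Finset (ℕ → Finset V) := (chains_finite F r u w p).toFinset

lemma mem_allCh {F : Finset (Finset V)} {r : ℕ} {u w : Finset V} {p : ℕ → ℕ}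
    {v : ℕ → Finset V} : v ∈ allCh F r u w p ↔ IsCh F r u w v ∧ ∀ i, (v i).card = p i := by
  simp [allCh]

lemma allCh_closed (F : Finset (Finset V)) (r : ℕ) (u w : Finset V) (p : ℕ → ℕ) :
    Closed (allCh F r u w p) := by
  intro v hv v' hv' a b hab ha hb
  rw [mem_allCh] at hv hv' ⊢
  obtain ⟨⟨hm, h0, hr, hF⟩, hp⟩ := hv
  obtain ⟨⟨hm', h0', hr', hF'⟩, hp'⟩ := hv'
  refine ⟨⟨?_, ?_, ?_, ?_⟩, ?_⟩
  · intro i j hij
    simp only [splice]
    split_ifs with h1 h2 h2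
    · exact hm' hij
    · have h3 : b < j := by omega
      exact (hm' h1.2).trans (hb ▸ hm h3.le)
    · have h3 : i < a := by omega
      exact (hm h3.le).trans (ha ▸ hm' h2.1)
    · exact hm hij
  · simp only [splice]
    split_ifs
    · exact h0'
    · exact h0
  · intro i hi
    simp only [splice]
    split_ifs
    · exact hr' i hi
    · exact hr i hi
  · intro i
    simp only [splice]
    split_ifs
    · exact hF' i
    · exact hF i
  · intro i
    simp only [splice]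
    split_ifs
    · exact hp' i
    · exact hp i

end allChains

section goodSum

variable {V : Type*} [Fintype V] [DecidableEq V] {n : ℕ}
variable {S : Finset (ℕ → Finset V)} {le : ℕ → ℕ → Bool} {s : ℕ → ℕ} {ϑw R : ℕ → ℝ}

lemma good_sum {F : Finset (Finset V)} {r : ℕ} {u w : Finset V} {v : ℕ → Finset V}
    (hv : IsCh F r u w v) : ((GoodS n S le s ϑw R u w v).card : ℝ) ≤
      ∑ i ∈ range r, ∑ x, ind (x ∈ v (i + 1) ∧ x ∉ v i ∧ Gd n S le s ϑw R i v x) := by
  rw [Finset.sum_comm, card_eq_sum_ind]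
  apply sum_le_sum
  intro x _
  by_cases hx : x ∈ GoodS n S le s ϑw R u w v
  · rw [ind_true hx]
    rw [mem_GoodS] at hx
    have h1 := Finset.single_le_sum
      (f := fun i => ind (x ∈ v (i + 1) ∧ x ∉ v i ∧ Gd n S le s ϑw R i v x))
      (fun i _ => ind_nonneg _) (mem_range.2 (hv.ent_lt_r hx.1))
    simp only [ind_true (show x ∈ v (ent v x + 1) ∧ x ∉ v (ent v x) ∧
      Gd n S le s ϑw R (ent v x) v x from ⟨hv.ent_mem hx.1, hv.ent_notMem hx.1, hx.2⟩)] at h1
    exact h1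
  · rw [ind_false hx]
    exact sum_nonneg (fun _ _ => ind_nonneg _)

end goodSum

/-- The scales. -/
def kap0 (L B : ℕ) : ℕ → ℕ := fun q => if q = 0 then 0 else L * B ^ q

lemma kap0_mono {L B : ℕ} (hB : 0 < B) : Monotone (kap0 L B) := by
  intro q q' h
  simp only [kap0]
  split_ifs with h1 h2 h2
  · exact le_rfl
  · exact Nat.zero_le _
  · omega
  · exact Nat.mul_le_mul_left _ (Nat.pow_le_pow_right hB h)

/-- Bound for the chains with a fixed profile. -/
theorem profile_bound {n : ℕ} {le : ℕ → ℕ → Bool} (hn : 0 < n)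
    (hle : ∀ a b, le a b → a ≤ b) (htrans : ∀ a b c, le a b → le b c → le a c)
    (hrefl : ∀ a, le a a) {μ : ℝ} (hμ : 0 < μ)
    {g C1 C2 Qm B L K τ Cn Λ : ℕ} {ρ η ζ ε : ℝ} (hg : 0 < g) (hQm : Qm = 1 + LL g n)
    (hB : 2 ≤ B) (hBμ : 32 ≤ B * μ) (hL : 0 < L) (hK : K = L * B ^ (Qm + 1))
    (hη : 0 < η) (hη2 : (1 + 2 * ((n : ℝ) * n)) * η ≤ μ / 16) (hρ : 0 < ρ)
    (hζ : 2 * n * (3 + K) / (ρ * η) ≤ ζ) (hζ2 : n * n * ζ ≤ μ * L / 16)
    (hτ : 2 ^ (C1 + Qm * C2) * (ζ + 1) ≤ η * 2 ^ τ) (hτ2 : (τ : ℝ) ≤ μ * L / 8)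
    (hCn : ζ ≤ Cn) (hΛ : n * n + 1 ≤ 2 ^ Λ) (hΛ2 : (Λ : ℝ) + 4 ≤ μ * L / 8)
    (hε : 0 ≤ ε) (hε2 : ε * K ≤ μ * L / 16)
    (hsmall : n * (n * ((n / g + 2 * n / 2 ^ C2) + 1 / 2 ^ C2) + n * ((ρ + 1) / 2 ^ C1)
      + n * ((ρ + 1) / 2 ^ C1)) < (μ / 4) ^ n)
    (hbd : ∀ sw, sw + L ≤ K → BdP (fun _ F => NoCopy n le F) (2 ^ (K - sw))
      ((μ + ε) * ((K - sw : ℕ) : ℝ))) :
    ∃ D : ℝ, 0 < D ∧ ∀ (N : ℕ) (F : Finset (Finset (Fin N))), NoCopy n le F →
      ∀ (u w : Finset (Fin N)) (p : ℕ → ℕ),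
        ((allCh F (2 ^ K) u w p).card : ℝ) ≤ D * 2 ^ ((μ * K - 2) * ((w \ u).card : ℝ)) := by
  classical
  set Φ : ∀ N : ℕ, Finset (Finset (Fin N)) → Prop := fun _ F => NoCopy n le F with hΦ
  have hBpow : ∀ q, 0 < B ^ q := fun q => Nat.pow_pos (by omega)
  have hK1 : 1 ≤ K := by
    rw [hK]; exact Nat.mul_pos hL (hBpow _)
  have hKR : (1 : ℝ) ≤ K := by exact_mod_cast hK1
  have hLR : (1 : ℝ) ≤ L := by exact_mod_cast hL
  have hswL : ∀ q ≤ Qm, L * B ^ q + L ≤ K := by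
    intro q hq
    have h1 : B ^ q ≤ B ^ Qm := Nat.pow_le_pow_right (by omega) hq
    have h2 : B ^ Qm * 2 ≤ B ^ Qm * B := Nat.mul_le_mul_left _ hB
    have h3 : B ^ (Qm + 1) = B ^ Qm * B := pow_succ _ _
    have h4 := hBpow Qm
    calc L * B ^ q + L = L * (B ^ q + 1) := by ring
      _ ≤ L * B ^ (Qm + 1) := Nat.mul_le_mul_left _ (by omega)
      _ = K := hK.symm
  have hDex : ∀ q, q ≤ Qm → _ := fun q hq =>
    bad_count (Φ := Φ) (le := le) hn hle hK1 (sw := L * B ^ q) (by have := hswL q hq; omega)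
      (hbd (L * B ^ q) (hswL q hq)) hΛ Cn
  choose! D hD1 hD2 using hDex
  have hDpos : ∀ q ∈ range (Qm + 1), 0 ≤ D q := by
    intro q hq
    have := hD1 q (by rw [mem_range] at hq; omega)
    linarith
  have hDle : ∀ q ≤ Qm, D q ≤ ∑ q ∈ range (Qm + 1), D q := fun q hq =>
    Finset.single_le_sum (f := D) hDpos (mem_range.2 (by omega))
  have hDsum1 : 1 ≤ ∑ q ∈ range (Qm + 1), D q := (hD1 0 (Nat.zero_le _)).trans (hDle 0 (Nat.zero_le _))
  refine ⟨2 * ∑ q ∈ range (Qm + 1), D q, by linarith, ?_⟩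
  intro N F hF u w p
  set S := allCh F (2 ^ K) u w p with hS
  by_contra hbig
  push Not at hbig
  have hch : ∀ v ∈ S, IsCh F (2 ^ K) u w v := fun v hv => (mem_allCh.1 hv).1
  have hp : ∀ v ∈ S, ∀ i, (v i).card = p i := fun v hv => (mem_allCh.1 hv).2
  have hScl : Closed S := allCh_closed F _ u w p
  rcases Nat.eq_zero_or_pos (w \ u).card with hN0 | hNpos
  · -- trivial case
    have h1 : S.card ≤ 1 := by
      rw [Finset.card_le_one]
      have hwu : w ⊆ u := by
        rw [Finset.card_eq_zero, Finset.sdiff_eq_empty_iff_subset] at hN0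
        exact hN0
      have h2 : ∀ v ∈ S, ∀ i, v i = u := fun v hv i =>
        Finset.Subset.antisymm (((hch v hv).sub i).trans hwu) ((hch v hv).sup i)
      intro v hv v' hv'
      funext i
      rw [h2 v hv i, h2 v' hv' i]
    rw [hN0, Nat.cast_zero, mul_zero, Real.rpow_zero, mul_one] at hbig
    have h2 : (S.card : ℝ) ≤ 1 := by exact_mod_cast h1
    linarith
  set nn : ℝ := ((w \ u).card : ℝ) with hnn
  have hnnpos : 0 < nn := by rw [hnn]; exact_mod_cast hNpos
  obtain ⟨σ, hσ0, hσ, hσn, hδ⟩ := choose_scales (n := n) (le := le) hScl hch hp (kap0 L B)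
    (kap0_mono (by omega)) (by simp [kap0]) hle hg C1 C2 Qm
  set s : ℕ → ℕ := fun m => kap0 L B (σ m) with hs
  have hsm : Monotone s := (kap0_mono (by omega)).comp hσ.monotone
  have hs0 : s 0 = 0 := by simp [hs, hσ0, kap0]
  have hqw1 : 1 ≤ σ (n + 1) := by
    have := hσ.le_apply (x := n + 1)
    omega
  have hqwQ : σ (n + 1) ≤ Qm := by rw [hQm]; exact hσn
  have hsw : s (n + 1) = L * B ^ σ (n + 1) := by
    simp only [hs, kap0]
    rw [if_neg (by omega)]
  have hsK : s (n + 1) ≤ K := by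
    rw [hsw]; have := hswL _ hqwQ; omega
  -- the parameters
  let ϑ : ℕ → ℝ := fun j => thr C1 C2 Qm (s j) (σ (j + 1))
  let ϑw : ℕ → ℝ := fun j => thr C1 C2 Qm (s j) (σ (n + 1))
  let R : ℕ → ℝ := fun l => ρ * 2 ^ (s l)
  have hR0 : ∀ l, 0 ≤ R l := fun l => by simp only [R]; positivity
  have hbad := hD2 (σ (n + 1)) hqwQ N F hF u w S p hch hp s ϑw R (C1 + Qm * C2) τ ρ η ζ (μ / 2)
    hsm hsw hs0 (fun j => thr_pos _ _ _ _ _)
    (fun j => by
      have := thr_inv_le C1 C2 Qm (s j) (σ (n + 1))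
      rw [add_assoc] at this
      exact this) hρ (fun l => rfl) hη hζ hτ hCn hNpos
  rw [← hnn] at hbad
  -- the exponent
  have hW : (L : ℝ) ≤ ((L * B ^ σ (n + 1) : ℕ) : ℝ) := by
    exact_mod_cast Nat.le_mul_of_pos_right _ (hBpow _)
  set W : ℝ := ((L * B ^ σ (n + 1) : ℕ) : ℝ) with hWdef
  have hWK : ((K - L * B ^ σ (n + 1) : ℕ) : ℝ) = (K : ℝ) - W := by
    rw [Nat.cast_sub (by have := hswL _ hqwQ; omega)]
  have hsn : 2 * (s n : ℝ) ≤ μ * W / 16 := by
    have h1 : s n * B ≤ L * B ^ σ (n + 1) := by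
      have h2 : σ n + 1 ≤ σ (n + 1) := hσ (Nat.lt_succ_self n)
      calc s n * B ≤ L * B ^ (σ n) * B := by
            apply Nat.mul_le_mul_right
            simp only [hs, kap0]
            split_ifs
            · exact Nat.zero_le _
            · exact le_rfl
        _ = L * B ^ (σ n + 1) := by rw [pow_succ]; ring
        _ ≤ L * B ^ σ (n + 1) := Nat.mul_le_mul_left _ (Nat.pow_le_pow_right (by omega) h2)
    have h2 : (s n : ℝ) * B ≤ W := by rw [hWdef]; exact_mod_cast h1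
    have h3 : (s n : ℝ) * 32 ≤ s n * (B * μ) := mul_le_mul_of_nonneg_left hBμ (Nat.cast_nonneg _)
    have h4 : (s n : ℝ) * (B * μ) ≤ W * μ := by
      rw [← mul_assoc]; exact mul_le_mul_of_nonneg_right h2 hμ.le
    linarith
  have hexp : (μ + ε) * ((K - L * B ^ σ (n + 1) : ℕ) : ℝ) + Λ + 2 +
      ((L * B ^ σ (n + 1) : ℕ) : ℝ) * (μ / 2 + (1 + 2 * (n * n)) * η) + 2 * s n + τ + n * n * ζ
      ≤ μ * K - 2 := by
    rw [hWK, ← hWdef]
    have hW0 : 0 ≤ W := by linarith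
    have h1 : W * ((1 + 2 * ((n : ℝ) * n)) * η) ≤ W * (μ / 16) :=
      mul_le_mul_of_nonneg_left hη2 hW0
    have h2 : ε * (K - W) ≤ ε * K := by
      apply mul_le_mul_of_nonneg_left _ hε
      linarith
    have h3 : μ * L ≤ μ * W := mul_le_mul_of_nonneg_left hW hμ.le
    nlinarith
  have hbad2 : ((badS n S le s ϑw R u w (μ / 2)).card : ℝ)
      ≤ (∑ q ∈ range (Qm + 1), D q) * 2 ^ ((μ * K - 2) * nn) := by
    refine hbad.trans ?_
    apply mul_le_mul (hDle _ hqwQ) _ (by positivity) (by linarith)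
    apply Real.rpow_le_rpow_of_exponent_le (by norm_num)
    exact mul_le_mul_of_nonneg_right hexp hnnpos.le
  have hhalf : 2 * ((badS n S le s ϑw R u w (μ / 2)).card : ℝ) ≤ S.card := by
    have h1 : 2 * ((∑ q ∈ range (Qm + 1), D q) * 2 ^ ((μ * K - 2) * nn))
        = 2 * (∑ q ∈ range (Qm + 1), D q) * 2 ^ ((μ * K - 2) * nn) := by ring
    linarith
  have hSne : S.Nonempty := by
    rw [Finset.nonempty_iff_ne_empty]
    intro he
    rw [he, card_empty, Nat.cast_zero] at hbig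
    have : (0 : ℝ) ≤ 2 * (∑ q ∈ range (Qm + 1), D q) * 2 ^ ((μ * K - 2) * nn) := by
      apply mul_nonneg (by linarith)
      positivity
    linarith
  apply good_contra (n := n) (le := le) (s := s) (ϑ := ϑ) (ϑw := ϑw) hScl hch hp hsm hsK hs0 hn
    hle htrans hrefl hF (fun j => thr_pos _ _ _ _ _) (fun j => thr_pos _ _ _ _ _) rfl
    (R := R) hR0 (c1 := (ρ + 1) / 2 ^ C1) (c2 := 1 / 2 ^ C2) (δ := n / g + 2 * n / 2 ^ C2)
    (φ := μ / 4)
  · intro j hj
    exact thr_ratio C1 C2 Qm (s j) (hσ (by omega))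
  · intro l hl
    have h1 : σ (l + 1) ≤ Qm := (hσ.monotone (by omega)).trans hqwQ
    have h2 := thr_le C1 C2 Qm (s l) h1
    simp only [ϑ, R]
    calc thr C1 C2 Qm (s l) (σ (l + 1)) * (ρ * 2 ^ (s l))
        = ρ * (thr C1 C2 Qm (s l) (σ (l + 1)) * 2 ^ (s l)) := by ring
      _ ≤ ρ * (1 / 2 ^ C1) := mul_le_mul_of_nonneg_left h2 hρ.le
      _ ≤ (ρ + 1) / 2 ^ C1 := by
          rw [mul_one_div]
          apply div_le_div_of_nonneg_right _ (by positivity)
          linarith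
  · intro l hl
    have h1 : σ (l + 1 + 1) ≤ Qm := (hσ.monotone (by omega)).trans hqwQ
    have h2 := thr_le C1 C2 Qm (s (l + 1)) h1
    simp only [ϑ]
    refine h2.trans ?_
    apply div_le_div_of_nonneg_right _ (by positivity)
    linarith
  · positivity
  · intro k j hj
    exact hδ k j hj
  · positivity
  · exact hsmall
  · exact hSne
  · exact hNpos
  · -- many good elements
    rw [← hnn]
    have h1 : ∀ v ∈ S \ badS n S le s ϑw R u w (μ / 2),
        μ / 2 * nn ≤ ((GoodS n S le s ϑw R u w v).card : ℝ) := by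
      intro v hv
      rw [mem_sdiff] at hv
      by_contra hlt
      push Not at hlt
      exact hv.2 (mem_filter.2 ⟨hv.1, hlt.le⟩)
    have hbsub : badS n S le s ϑw R u w (μ / 2) ⊆ S := filter_subset _ _
    have h2 : ((S \ badS n S le s ϑw R u w (μ / 2)).card : ℝ)
        = (S.card : ℝ) - (badS n S le s ϑw R u w (μ / 2)).card := by
      rw [card_sdiff_of_subset hbsub, Nat.cast_sub (card_le_card hbsub)]
    calc μ / 4 * (nn * S.card) ≤ ((S \ badS n S le s ϑw R u w (μ / 2)).card : ℝ) * (μ / 2 * nn) := by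
          rw [h2]
          have h3 : (S.card : ℝ) / 2 ≤ (S.card : ℝ) - (badS n S le s ϑw R u w (μ / 2)).card := by
            linarith
          calc μ / 4 * (nn * S.card) = (S.card : ℝ) / 2 * (μ / 2 * nn) := by ring
            _ ≤ _ := mul_le_mul_of_nonneg_right h3 (by positivity)
      _ = ∑ v ∈ S \ badS n S le s ϑw R u w (μ / 2), μ / 2 * nn := by
          rw [sum_const, nsmul_eq_mul]
      _ ≤ ∑ v ∈ S \ badS n S le s ϑw R u w (μ / 2), ((GoodS n S le s ϑw R u w v).card : ℝ) :=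
          sum_le_sum h1
      _ ≤ ∑ v ∈ S, ((GoodS n S le s ϑw R u w v).card : ℝ) :=
          Finset.sum_le_sum_of_subset_of_nonneg sdiff_subset (fun _ _ _ => Nat.cast_nonneg _)
      _ ≤ _ := sum_le_sum (fun v hv => good_sum (hch v hv))

end Pool.Agent.Helper884_Full
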