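import Pool.Agent.Helper884_Full.Zero
import Pool.Agent.Helper884_ChainCount.Core
import Pool.Agent.Helper884_MultiScale.Ramsey

/-!
# The Ramsey conclusion
-/

set_option autoImplicit false
set_option linter.unusedSectionVars false

namespace Pool.Agent.Helper884_Full

open Finset
open Pool.Agent.Helper884_ChainCount (pigeon chain_of_no_red lev lev_mono lev_disj mem_lev)
open Pool.Agent.Helper884_MultiScale (IsCh)

/-- Many chains in the blue family of a colouring without a red `Q_n`. -/
theorem ramsey_countP {n k r : ℕ} {D c : ℝ} (hD : 1 ≤ D) (hc0 : 0 ≤ c)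
    (col : Finset (Fin (n + k)) → Bool) (F : Finset (Finset (Fin (n + k))))
    (hF : ∀ z, z ∈ F ↔ col z = true)
    (hbd : ∀ (u w : Finset (Fin (n + k))) (S : Finset (ℕ → Finset (Fin (n + k)))),
      (∀ v ∈ S, IsCh F r u w v) → (S.card : ℝ) ≤ D * 2 ^ (c * ((w \ u).card : ℝ)))
    (hred : ¬ ∃ g : Finset (Fin n) ↪o Finset (Fin (n + k)), ∀ x, col (g x) = false) :
    (r : ℝ) ^ k ≤ 4 ^ (n + k) * (D * 2 ^ (c * ((n + k : ℕ) : ℝ))) := by
  classical
  have hch : ∀ gg : Fin k → Fin r, ∃ U : ℕ → Finset (Fin (n + k)), Monotone U ∧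
      (∀ i, U i ⊆ univ.map (Fin.castAddEmb (n := n) k)) ∧
      ∀ i, i ≤ r → col (U i ∪ lev gg i) = true := fun gg =>
    chain_of_no_red col (Fin.castAddEmb (n := n) k) hred (lev gg) (lev_mono gg) r (lev_disj gg)
  choose U hU1 hU2 hU3 using hch
  let w : (Fin k → Fin r) → ℕ → Finset (Fin (n + k)) :=
    fun gg i => U gg (min i r) ∪ lev gg (min i r)
  have hw1 : ∀ gg, Monotone (w gg) := fun gg i i' hi =>
    union_subset_union (hU1 gg (min_le_min_right r hi)) (lev_mono gg (min_le_min_right r hi))
  have hw2 : ∀ gg i, w gg i ∈ F := fun gg i => (hF _).2 (hU3 gg _ (min_le_right i r))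
  have hw3 : Function.Injective w := by
    have key : ∀ (gg gg' : Fin k → Fin r), w gg = w gg' → ∀ j, (gg' j : ℕ) ≤ (gg j : ℕ) := by
      intro gg gg' hgg j
      have hlt := (gg j).2
      have hmin : min ((gg j : ℕ) + 1) r = (gg j : ℕ) + 1 := by omega
      have h3 : Fin.natAdd n j ∈ w gg ((gg j : ℕ) + 1) := by
        simp only [w, hmin]
        exact mem_union_right _ ((mem_lev gg _ j).2 (by omega))
      rw [hgg] at h3
      simp only [w, hmin] at h3
      rcases mem_union.1 h3 with h4 | h4
      · exfalso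
        have h5 := hU2 gg' _ h4
        simp only [mem_map, mem_univ, true_and] at h5
        obtain ⟨j', hj'⟩ := h5
        have := congrArg Fin.val hj'
        simp at this
        omega
      · have := (mem_lev gg' _ j).1 h4
        omega
    intro gg gg' hgg
    funext j
    exact Fin.ext (le_antisymm (key gg' gg hgg.symm j) (key gg gg' hgg j))
  set S := (univ : Finset (Fin k → Fin r)).image w with hS
  have hScard : S.card = r ^ k := by
    rw [hS, card_image_of_injective _ hw3]
    simp
  have hSr : ∀ v ∈ S, ∀ i, r ≤ i → v i = v r := by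
    intro v hv i hi
    obtain ⟨gg, _, rfl⟩ := mem_image.1 hv
    simp only [w]
    rw [min_eq_right hi, min_self]
  obtain ⟨⟨u, ww⟩, -, hpg⟩ := pigeon S (univ : Finset (Finset (Fin (n + k)) × Finset (Fin (n + k))))
    (fun v => (v 0, v r)) (fun _ _ => mem_univ _) ⟨(∅, ∅), mem_univ _⟩
  have h5 : ((S.filter (fun v => (v 0, v r) = (u, ww))).card : ℝ)
      ≤ D * 2 ^ (c * ((n + k : ℕ) : ℝ)) := by
    refine (hbd u ww _ ?_).trans ?_
    · intro v hv
      rw [mem_filter] at hv
      obtain ⟨hvS, heq⟩ := hv
      simp only [Prod.mk.injEq] at heq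
      refine ⟨?_, heq.1, ?_, ?_⟩
      · obtain ⟨gg, _, rfl⟩ := mem_image.1 hvS
        exact hw1 gg
      · intro t ht
        rw [hSr v hvS t ht, heq.2]
      · intro t
        obtain ⟨gg, _, rfl⟩ := mem_image.1 hvS
        exact hw2 gg t
    · apply mul_le_mul_of_nonneg_left _ (by linarith)
      apply Real.rpow_le_rpow_of_exponent_le (by norm_num)
      apply mul_le_mul_of_nonneg_left _ hc0
      have : (ww \ u).card ≤ n + k := by
        have := card_le_univ (ww \ u)
        simpa using this
      exact_mod_cast this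
  have h6 : (univ : Finset (Finset (Fin (n + k)) × Finset (Fin (n + k)))).card = 4 ^ (n + k) := by
    rw [card_univ, Fintype.card_prod, Fintype.card_finset, Fintype.card_fin, ← mul_pow]
    norm_num
  rw [h6] at hpg
  calc (r : ℝ) ^ k = ((S.card : ℕ) : ℝ) := by rw [hScard]; push_cast; rfl
    _ ≤ ((4 ^ (n + k) * (S.filter (fun v => (v 0, v r) = (u, ww))).card : ℕ) : ℝ) := by
        exact_mod_cast hpg
    _ = 4 ^ (n + k) * ((S.filter (fun v => (v 0, v r) = (u, ww))).card : ℝ) := by
        push_cast; rfl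
    _ ≤ _ := mul_le_mul_of_nonneg_left h5 (by positivity)

/-- A poset relation on the natural numbers. -/
lemma exists_le (P : Type) [PartialOrder P] [Fintype P] :
    ∃ le : ℕ → ℕ → Bool, (∀ a b, le a b → a ≤ b) ∧ (∀ a b c, le a b → le b c → le a c) ∧
      (∀ a, le a a) ∧ ∀ (N : ℕ) (F : Finset (Finset (Fin N))),
        (¬ ∃ f : P ↪o Finset (Fin N), ∀ x, f x ∈ F) → NoCopy (Fintype.card P) le F := by
  classical
  -- a linear extension
  let m := Fintype.card P
  have instF : Fintype (LinearExtension P) := inferInstanceAs (Fintype P)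
  have hcard : Fintype.card (LinearExtension P) = m :=
    Fintype.card_congr (show LinearExtension P ≃ P from Equiv.refl P)
  let e0 : LinearExtension P ≃o Fin m := (Fintype.orderIsoFinOfCardEq (LinearExtension P) hcard).symm
  let e : P → Fin m := fun x => e0 (toLinearExtension x)
  have he1 : ∀ x y : P, x ≤ y → e x ≤ e y := fun x y h =>
    e0.monotone (toLinearExtension.monotone h)
  have he2 : Function.Bijective e := by
    constructor
    · intro x y h
      have := e0.injective h
      exact this
    · intro l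
      obtain ⟨z, hz⟩ := e0.surjective l
      exact ⟨z, hz⟩
  let ee : P ≃ Fin m := Equiv.ofBijective e he2
  have hee : ∀ x, ee x = e x := fun x => rfl
  let rel : ℕ → ℕ → Prop := fun a b => a = b ∨ ∃ x y : P, ((ee x : Fin m) : ℕ) = a ∧
    ((ee y : Fin m) : ℕ) = b ∧ x ≤ y
  refine ⟨fun a b => decide (rel a b), ?_, ?_, ?_, ?_⟩
  · intro a b h
    rcases of_decide_eq_true h with h | ⟨x, y, rfl, rfl, hxy⟩
    · omega
    · exact he1 x y hxy
  · intro a b c h1 h2
    apply decide_eq_true
    rcases of_decide_eq_true h1 with rfl | ⟨x, y, rfl, rfl, hxy⟩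
    · exact of_decide_eq_true h2
    · rcases of_decide_eq_true h2 with h2 | ⟨x', y', h3, rfl, hxy'⟩
      · exact Or.inr ⟨x, y, rfl, h2, hxy⟩
      · have : x' = y := ee.injective (Fin.ext h3)
        subst this
        exact Or.inr ⟨x, y', rfl, rfl, hxy.trans hxy'⟩
  · intro a
    exact decide_eq_true (Or.inl rfl)
  · intro N F hno ⟨b, hb1, hb2⟩
    apply hno
    refine ⟨OrderEmbedding.ofMapLEIff (fun x => b (ee x)) ?_, fun x => hb1 _⟩
    intro x y
    change b (ee x) ⊆ b (ee y) ↔ x ≤ y
    rw [hb2]
    constructor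
    · intro h
      rcases of_decide_eq_true h with h | ⟨x', y', h1, h2, hxy⟩
      · have : x = y := ee.injective (Fin.ext h)
        rw [this]
      · have h3 : x' = x := ee.injective (Fin.ext h1)
        have h4 : y' = y := ee.injective (Fin.ext h2)
        rw [← h3, ← h4]; exact hxy
    · intro h
      exact decide_eq_true (Or.inr ⟨x, y, rfl, rfl, h⟩)

end Pool.Agent.Helper884_Full
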