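import Pool.Agent.Helper884_Full.ErrSum

/-!
# Choosing the scales
-/

set_option autoImplicit false
set_option linter.unusedSectionVars false

namespace Pool.Agent.Helper884_Full

open Finset
open Pool.Agent.Helper884_MultiScale (IsCh)

/-- Keep `σ` up to `j` and continue with `A, A + 1, ...`. -/
def extn (j : ℕ) (σ : ℕ → ℕ) (A : ℕ) : ℕ → ℕ := fun m => if m ≤ j then σ m else A + (m - (j + 1))

lemma extn_le {j : ℕ} {σ : ℕ → ℕ} {A m : ℕ} (h : m ≤ j) : extn j σ A m = σ m := by
  simp [extn, h]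

lemma extn_succ {j : ℕ} {σ : ℕ → ℕ} {A : ℕ} : extn j σ A (j + 1) = A := by
  simp [extn]

lemma extn_strict {j : ℕ} {σ : ℕ → ℕ} {A : ℕ} (hσ : StrictMono σ) (hA : σ j < A) :
    StrictMono (extn j σ A) := by
  apply strictMono_nat_of_lt_succ
  intro m
  simp only [extn]
  split_ifs with h1 h2 h3
  · exact hσ (by omega)
  · have : m = j := by omega
    subst this
    omega
  · omega
  · omega

/-- Length of the search interval. -/
def LL (g : ℕ) : ℕ → ℕ
  | 0 => 0
  | m + 1 => g * (LL g m + 1)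

theorem select (n g : ℕ) (hg : 0 < g) (W ε : ℝ) (hε : 0 ≤ ε) (Φ : ℕ → (ℕ → ℕ) → ℕ → ℝ)
    (hcong : ∀ j σ σ' q, (∀ m ≤ j, σ m = σ' m) → Φ j σ q = Φ j σ' q)
    (hbd : ∀ j σ q, StrictMono σ → σ 0 = 0 → σ j < q → 0 ≤ Φ j σ q ∧ Φ j σ q ≤ W)
    (hdec : ∀ j σ q q', StrictMono σ → σ 0 = 0 → σ j < q → q < q' → Φ j σ q' ≤ Φ j σ q + ε) :
    ∃ σ : ℕ → ℕ, σ 0 = 0 ∧ StrictMono σ ∧ σ (n + 1) ≤ 1 + LL g n ∧
      ∀ j < n, Φ j σ (σ (j + 1)) - Φ j σ (σ (n + 1)) ≤ W / g + ε := by
  have hgR : (0 : ℝ) < g := by exact_mod_cast hg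
  have key : ∀ m j σ A, StrictMono σ → σ 0 = 0 → σ j < A → j + m = n →
      ∃ σ' : ℕ → ℕ, StrictMono σ' ∧ (∀ m' ≤ j, σ' m' = σ m') ∧ A ≤ σ' (j + 1) ∧
        σ' (n + 1) ≤ A + LL g m ∧
        ∀ j', j ≤ j' → j' < n → Φ j' σ' (σ' (j' + 1)) - Φ j' σ' (σ' (n + 1)) ≤ W / g + ε := by
    intro m
    induction m with
    | zero =>
      intro j σ A hσ h0 hA hjn
      have hj : j = n := by omega
      subst hj
      refine ⟨extn j σ A, extn_strict hσ hA, fun m' hm' => extn_le hm', ?_, ?_, ?_⟩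
      · rw [extn_succ]
      · rw [extn_succ]; omega
      · intro j' h1 h2; omega
    | succ m ih =>
      intro j σ A hσ h0 hA hjn
      let a : ℕ → ℕ := fun b => A + b * (LL g m + 1)
      have hex : ∃ b < g, Φ j σ (a b) - Φ j σ (a (b + 1)) ≤ W / g := by
        by_contra hno
        push Not at hno
        have h1 : ∑ b ∈ range g, W / g < ∑ b ∈ range g, (Φ j σ (a b) - Φ j σ (a (b + 1))) := by
          apply Finset.sum_lt_sum_of_nonempty ⟨0, mem_range.2 hg⟩
          intro b hb
          exact hno b (mem_range.1 hb)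
        rw [Finset.sum_range_sub' (fun b => Φ j σ (a b)), sum_const, card_range, nsmul_eq_mul] at h1
        have h2 : (g : ℝ) * (W / g) = W := by field_simp
        rw [h2] at h1
        have h3 := (hbd j σ (a 0) hσ h0 (by simp only [a]; omega)).2
        have h4 := (hbd j σ (a g) hσ h0 (by
          simp only [a]
          have := Nat.zero_le (g * (LL g m + 1))
          omega)).1
        linarith
      obtain ⟨b, hb, hbΦ⟩ := hex
      have hab : σ j < a b := by
        simp only [a]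
        have := Nat.zero_le (b * (LL g m + 1))
        omega
      have hst1 := extn_strict hσ hab
      obtain ⟨σ', h1, h2, h3, h4, h5⟩ := ih (j + 1) (extn j σ (a b)) (a b + 1) hst1
        (by rw [extn_le (by omega)]; exact h0) (by rw [extn_succ]; omega) (by omega)
      have h6 : ∀ m' ≤ j, σ' m' = σ m' := by
        intro m' hm'
        rw [h2 m' (by omega), extn_le hm']
      have h7 : σ' (j + 1) = a b := by rw [h2 (j + 1) le_rfl, extn_succ]
      have h8 : a (b + 1) = a b + 1 + LL g m := by simp only [a]; ring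
      have h9 : a (b + 1) ≤ A + LL g (m + 1) := by
        simp only [a, LL]
        have : (b + 1) * (LL g m + 1) ≤ g * (LL g m + 1) := Nat.mul_le_mul_right _ (by omega)
        omega
      refine ⟨σ', h1, h6, ?_, ?_, ?_⟩
      · rw [h7]
        simp only [a]
        have := Nat.zero_le (b * (LL g m + 1))
        omega
      · omega
      · intro j' hj' hj'n
        rcases hj'.eq_or_lt with heq | hlt
        · subst heq
          rw [h7]
          have hq1 : a b < σ' (n + 1) := by rw [← h7]; exact h1 (by omega)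
          rw [hcong j σ' σ _ h6, hcong j σ' σ _ h6]
          have hq2 : σ' (n + 1) ≤ a (b + 1) := by omega
          rcases hq2.eq_or_lt with heq2 | hlt2
          · rw [heq2]; linarith
          · have := hdec j σ (σ' (n + 1)) (a (b + 1)) hσ h0 (by omega) hlt2
            linarith
        · exact h5 j' hlt hj'n
  obtain ⟨σ', h1, h2, h3, h4, h5⟩ := key n 0 id 1 strictMono_id rfl (by simp) (by omega)
  exact ⟨σ', h2 0 le_rfl, h1, h4, fun j hj => h5 j (by omega) hj⟩

variable {V : Type*} [Fintype V] [DecidableEq V] {n : ℕ}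
variable {S : Finset (ℕ → Finset V)} {le : ℕ → ℕ → Bool} {i : ℕ} {e e' : ℕ → ℕ}

lemma Lam_congr (l : ℕ) : (∀ m ≤ l + 1, e m = e' m) →
    (Lam n S le i e l = Lam n S le i e' l) := by
  induction l with
  | zero =>
    intro h
    funext p y
    simp only [Lam]
    rw [h 0 (by omega), h 1 (by omega)]
  | succ l ih =>
    intro h
    funext p y
    have h1 := ih (fun m hm => h m (by omega))
    simp only [Lam]
    rw [h1, h (l + 1) (by omega), h (l + 2) (by omega)]

lemma ker_congr {j : ℕ} (h : ∀ m ≤ j, e m = e' m) :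
    ker n S le i e j = ker n S le i e' j := by
  cases j with
  | zero => rfl
  | succ l => exact Lam_congr l h

lemma caught_congr {j : ℕ} (h : ∀ m ≤ j, e m = e' m) (k : Fin n) (ϑ : ℝ) (T : ℕ) :
    caught n S le i e k j ϑ T = caught n S le i e' k j ϑ T := by
  unfold caught Zn
  rw [ker_congr h, h j le_rfl]

lemma caught_nonneg (k : Fin n) (j : ℕ) (ϑ : ℝ) (T : ℕ) : 0 ≤ caught n S le i e k j ϑ T :=
  sum_nonneg (fun _ _ => ex_nonneg (fun _ _ => sum_nonneg (fun _ _ => ind_nonneg _)))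

lemma caught_le (hmono : ∀ v ∈ S, Monotone v) (he : Monotone e) (hle : ∀ a b, le a b → a ≤ b)
    (k : Fin n) (j : ℕ) (ϑ : ℝ) (T : ℕ) {d : ℝ}
    (hd : ∀ v ∈ S, ((v (e 0) \ v i).card : ℝ) ≤ d) :
    caught n S le i e k j ϑ T ≤ d * S.card := by
  calc caught n S le i e k j ϑ T ≤ ∑ v ∈ S, d := by
        apply sum_le_sum
        intro v hv
        apply ex_le_const
        intro c hc
        have h1 : ((c.1 k \ v i).card : ℝ) ≤ d := by
          cases j with
          | zero =>
            have h2 := dirac_supp hc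
            rw [h2]
            exact hd v hv
          | succ l =>
            obtain ⟨⟨v', hv', h3, h4⟩, -⟩ :=
              (Lam_supp hmono he hle l _ _ c ⟨v, hv, rfl, rfl⟩ hc).1 k
            rw [← h4, ← h3]
            exact hd v' hv'
        refine le_trans ?_ h1
        rw [card_eq_sum_ind]
        apply sum_le_sum
        intro x _
        apply ind_mono
        rintro ⟨h2, h3⟩
        exact mem_sdiff.2 ⟨h2, notMem_of_Zn h3⟩
    _ = d * S.card := by rw [sum_const, nsmul_eq_mul]; ring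

lemma caught_dec (hS : Closed S) (hmono : ∀ v ∈ S, Monotone v) (he : Monotone e) (hi : i ≤ e 0)
    (hle : ∀ a b, le a b → a ≤ b) (k : Fin n)
    {j T T' : ℕ} (hT : e j ≤ T) (hTT : T ≤ T') {ϑ ϑ' d : ℝ} (hϑ : 0 < ϑ) (hϑ' : 0 < ϑ')
    (hd : ∀ v ∈ S, ((v (e 0) \ v i).card : ℝ) ≤ d) :
    caught n S le i e k j ϑ' T' ≤ caught n S le i e k j ϑ T + ϑ / ϑ' * d * S.card := by
  have h1 := stab hS hmono he hi hle k hT hTT hϑ hϑ' hd
  have h2 : 0 ≤ ∑ v ∈ S, ex (ker n S le i e j (v i) (v (e j))) (fun c => ∑ x, ind (x ∈ c.1 k ∧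
        x ∈ Zn n S le i e k j ϑ T (v i) (v T) (gg le k j c) ∧
        x ∉ Zn n S le i e k j ϑ' T' (v i) (v T') (gg le k j c))) :=
    sum_nonneg (fun _ _ => ex_nonneg (fun _ _ => sum_nonneg (fun _ _ => ind_nonneg _)))
  linarith

end Pool.Agent.Helper884_Full
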