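import Pool.Agent.Helper884_Full.FD

/-!
# The Markov property and the law of the structures
-/

set_option autoImplicit false
set_option linter.unusedSectionVars false

namespace Pool.Agent.Helper884_Full

open Finset

variable {V : Type*} [Fintype V] [DecidableEq V]

/-- Replace `v` by `v'` between `a` and `b`. -/
def splice (v v' : ℕ → Finset V) (a b : ℕ) : ℕ → Finset V :=
  fun i => if a ≤ i ∧ i ≤ b then v' i else v i

/-- Closed under splicing. -/
def Closed (S : Finset (ℕ → Finset V)) : Prop :=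
  ∀ v ∈ S, ∀ v' ∈ S, ∀ a b, a ≤ b → v a = v' a → v b = v' b → splice v v' a b ∈ S

/-- `f v` depends only on the part of `v` outside of the open interval from `i` to `b`. -/
def Dep {β : Type*} (i b : ℕ) (f : (ℕ → Finset V) → β) : Prop :=
  ∀ v v', (∀ j, j ≤ i ∨ b ≤ j → v j = v' j) → f v = f v'

lemma Dep.mono {β : Type*} {i b b' : ℕ} {f : (ℕ → Finset V) → β} (h : Dep i b' f)
    (hb : b ≤ b') : Dep i b f := fun v v' hv =>
  h v v' (fun j hj => hv j (hj.imp id (fun h => hb.trans h)))

/-- The law of `v a` given `v i = p` and `v b = y`. -/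
noncomputable def Q (S : Finset (ℕ → Finset V)) (i a b : ℕ) (p y : Finset V) : FD (Finset V) :=
  unif (S.filter (fun v => v i = p ∧ v b = y)) (fun v => v a) ∅

lemma splice_splice (v v' : ℕ → Finset V) (a b : ℕ) :
    splice (splice v v' a b) (splice v' v a b) a b = v := by
  funext j
  simp only [splice]
  split_ifs <;> rfl

lemma splice_out {v v' : ℕ → Finset V} {a b : ℕ} (ha : v a = v' a)
    (hb : v b = v' b) : ∀ j, j ≤ a ∨ b ≤ j → splice v v' a b j = v j := by
  intro j hj
  simp only [splice]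
  split_ifs with h
  · rcases hj with h1 | h1
    · have : j = a := by omega
      rw [this, ha]
    · have : j = b := by omega
      rw [this, hb]
  · rfl

lemma splice_in {v v' : ℕ → Finset V} {a b j : ℕ} (ha : a ≤ j) (hb : j ≤ b) :
    splice v v' a b j = v' j := by
  simp [splice, ha, hb]

variable {S : Finset (ℕ → Finset V)}

/-- The Markov property. -/
lemma markov (hS : Closed S) {i a b : ℕ} (hia : i ≤ a) (hab : a ≤ b)
    (f : (ℕ → Finset V) → Finset V → ℝ) (hf : Dep i b f) :
    ∑ v ∈ S, f v (v a) = ∑ v ∈ S, ex (Q S i a b (v i) (v b)) (f v) := by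
  classical
  set G : (ℕ → Finset V) → Finset (ℕ → Finset V) :=
    fun v => S.filter (fun v' => v' i = v i ∧ v' b = v b) with hG
  have hGne : ∀ v ∈ S, (G v).Nonempty := fun v hv => ⟨v, by simp [hG, hv]⟩
  have h1 : ∑ v ∈ S, ex (Q S i a b (v i) (v b)) (f v)
      = ∑ v ∈ S, ∑ v' ∈ G v, f v (v' a) / (G v).card := by
    apply Finset.sum_congr rfl
    intro v hv
    rw [Q, ex_unif _ _ (hGne v hv), Finset.sum_div]
  have h2 : ∑ v ∈ S, f v (v a) = ∑ v ∈ S, ∑ v' ∈ G v, f v (v a) / (G v).card := by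
    apply Finset.sum_congr rfl
    intro v hv
    rw [Finset.sum_const, nsmul_eq_mul]
    have h3 : ((G v).card : ℝ) ≠ 0 := by
      have := Finset.card_pos.2 (hGne v hv)
      positivity
    field_simp
  have h3 : ∀ g : (ℕ → Finset V) → (ℕ → Finset V) → ℝ,
      ∑ v ∈ S, ∑ v' ∈ G v, g v v' = ∑ x ∈ (S ×ˢ S).filter (fun x => x.2 i = x.1 i ∧ x.2 b = x.1 b),
        g x.1 x.2 := by
    intro g
    rw [Finset.sum_filter, Finset.sum_product]
    apply Finset.sum_congr rfl
    intro v hv
    rw [hG, Finset.sum_filter]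
  rw [h1, h2, h3, h3]
  symm
  let φ : (ℕ → Finset V) × (ℕ → Finset V) → (ℕ → Finset V) × (ℕ → Finset V) :=
    fun x => (splice x.1 x.2 i b, splice x.2 x.1 i b)
  have hib : i ≤ b := hia.trans hab
  have hφ : ∀ x ∈ (S ×ˢ S).filter (fun x => x.2 i = x.1 i ∧ x.2 b = x.1 b),
      φ x ∈ (S ×ˢ S).filter (fun x => x.2 i = x.1 i ∧ x.2 b = x.1 b) := by
    intro x hx
    simp only [mem_filter, mem_product] at hx
    obtain ⟨⟨h1, h2⟩, h3, h4⟩ := hx
    simp only [mem_filter, mem_product, φ]
    refine ⟨⟨hS _ h1 _ h2 i b hib h3.symm h4.symm, hS _ h2 _ h1 i b hib h3 h4⟩, ?_, ?_⟩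
    · rw [splice_out h3 h4 i (Or.inl le_rfl), splice_out h3.symm h4.symm i (Or.inl le_rfl), h3]
    · rw [splice_out h3 h4 b (Or.inr le_rfl), splice_out h3.symm h4.symm b (Or.inr le_rfl), h4]
  apply Finset.sum_nbij' φ φ hφ hφ
  · intro x _
    simp only [φ, splice_splice]
  · intro x _
    simp only [φ, splice_splice]
  · intro x hx
    simp only [mem_filter, mem_product] at hx
    obtain ⟨⟨h1, h2⟩, h3, h4⟩ := hx
    have hout := splice_out h3.symm h4.symm
    have h5 : f (φ x).1 = f x.1 := hf _ _ hout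
    have h6 : G (φ x).1 = G x.1 := by
      simp only [hG, φ]
      rw [hout i (Or.inl le_rfl), hout b (Or.inr le_rfl)]
    rw [h5, h6]
    congr 2
    simp only [φ]
    rw [splice_in hia hab]

lemma Q_supp {i a b : ℕ} {p y z : Finset V} (h : ∃ v ∈ S, v i = p ∧ v b = y)
    (hz : (Q S i a b p y).w z ≠ 0) : ∃ v ∈ S, v i = p ∧ v b = y ∧ v a = z := by
  have hne : (S.filter (fun v => v i = p ∧ v b = y)).Nonempty := by
    obtain ⟨v, hv, h1⟩ := h
    exact ⟨v, mem_filter.2 ⟨hv, h1⟩⟩
  obtain ⟨v, hv, hva⟩ := unif_supp hne hz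
  rw [mem_filter] at hv
  exact ⟨v, hv.1, hv.2.1, hv.2.2, hva⟩

lemma supp_Q {i a b : ℕ} {v : ℕ → Finset V} (hv : v ∈ S) :
    (Q S i a b (v i) (v b)).w (v a) ≠ 0 :=
  supp_unif (f := fun v : ℕ → Finset V => v a) (mem_filter.2 ⟨hv, rfl, rfl⟩)

/-- Configurations: atoms and sets. -/
abbrev Cf (n : ℕ) (V : Type*) := (Fin n → Finset V) × (Fin n → Finset V)

variable {n : ℕ}

/-- Set coordinate `l`. -/
def setl (l : ℕ) (b : Finset V) (c : Cf n V) : Cf n V :=
  (c.1, fun j => if (j : ℕ) < l then c.2 j else if (j : ℕ) = l then b else ∅)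

/-- Keep the first `l` sets. -/
def res (l : ℕ) (c : Cf n V) : Cf n V := (c.1, fun j => if (j : ℕ) < l then c.2 j else ∅)

/-- The coordinates below `l`. -/
def par (le : ℕ → ℕ → Bool) (l : ℕ) (c : Cf n V) : Cf n V :=
  (fun k => if le k l then c.1 k else ∅, fun j => if le j l ∧ (j : ℕ) ≠ l then c.2 j else ∅)

/-- The coordinates not above `k`. -/
def rho (le : ℕ → ℕ → Bool) (k : Fin n) (c : Cf n V) : Cf n V :=
  (fun k' => if k' = k then ∅ else c.1 k', fun j => if le k j then ∅ else c.2 j)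

lemma res_setl (l : ℕ) (b : Finset V) (c : Cf n V) {j : ℕ} (hj : j ≤ l) :
    res j (setl l b c) = res j c := by
  unfold res setl
  congr 1
  funext m
  dsimp only
  split_ifs with h1 h2 h3
  · rfl
  · omega
  · omega
  · rfl

lemma res_setl' (l : ℕ) (b : Finset V) (c : Cf n V) : res (l + 1) (setl l b c) = setl l b c := by
  unfold res setl
  congr 1
  funext m
  dsimp only
  split_ifs with h1 h2 h3 h4 h5
  · rfl
  · rfl
  · rfl
  · omega
  · omega
  · rfl

/-- The conditional law of the container. -/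
noncomputable def kapOf (Λ : Finset V → FD (Cf n V)) (q : FD (Finset V)) (g : Cf n V → Cf n V)
    (D : Cf n V) : FD (Finset V) :=
  mp Prod.fst (cnd (bnd q (fun y => mp (fun c => (y, c)) (Λ y))) (fun z => g z.2) D)

/-- The law of the structure inside a random container. -/
noncomputable def LT (S : Finset (ℕ → Finset V)) (i : ℕ) (Λ : Finset V → Finset V → FD (Cf n V))
    (a T : ℕ) (p y : Finset V) : FD (Cf n V) := bnd (Q S i a T p y) (Λ p)

/-- The law of the structure with `l` sets. -/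
noncomputable def Lam (n : ℕ) (S : Finset (ℕ → Finset V)) (le : ℕ → ℕ → Bool) (i : ℕ)
    (e : ℕ → ℕ) : ℕ → Finset V → Finset V → FD (Cf n V)
  | 0, p, y => mp (fun a => (a, fun _ => ∅)) (iid n (Q S i (e 0) (e 1) p y))
  | l + 1, p, y => bnd (bnd (Q S i (e (l + 1)) (e (l + 2)) p y) (Lam n S le i e l p))
      (fun c => mp (fun b => setl l b c) (kapOf (Lam n S le i e l p)
        (Q S i (e (l + 1)) (e (l + 2)) p y) (par le l) (par le l c)))

/-- The conditional law used at step `l`. -/
noncomputable def kap (n : ℕ) (S : Finset (ℕ → Finset V)) (le : ℕ → ℕ → Bool) (i : ℕ)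
    (e : ℕ → ℕ) (l : ℕ) (p y : Finset V) (D : Cf n V) : FD (Finset V) :=
  kapOf (Lam n S le i e l p) (Q S i (e (l + 1)) (e (l + 2)) p y) (par le l) D

variable {le : ℕ → ℕ → Bool} {i : ℕ} {e : ℕ → ℕ}

lemma Lam_succ (l : ℕ) (p y : Finset V) : Lam n S le i e (l + 1) p y =
    bnd (LT S i (Lam n S le i e l) (e (l + 1)) (e (l + 2)) p y)
      (fun c => mp (fun b => setl l b c) (kap n S le i e l p y (par le l c))) := rfl

/-- The law of the structure coupled with a chain. -/
noncomputable def KK (n : ℕ) (S : Finset (ℕ → Finset V)) (le : ℕ → ℕ → Bool) (i : ℕ)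
    (e : ℕ → ℕ) : ℕ → (ℕ → Finset V) → FD (Cf n V)
  | 0, v => Lam n S le i e 0 (v i) (v (e 1))
  | l + 1, v => bnd (KK n S le i e l v)
      (fun c => mp (fun b => setl l b c) (kap n S le i e l (v i) (v (e (l + 2))) (par le l c)))

lemma KK_markov (hS : Closed S) (he : Monotone e) (hi : i ≤ e 0) (l : ℕ) :
    ∀ (f : (ℕ → Finset V) → Cf n V → ℝ), Dep i (e (l + 1)) f →
    ∑ v ∈ S, ex (KK n S le i e l v) (f v)
      = ∑ v ∈ S, ex (Lam n S le i e l (v i) (v (e (l + 1)))) (f v) := by
  induction l with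
  | zero => intro f _; rfl
  | succ l ih =>
    intro f hf
    have hie : ∀ m, i ≤ e m := fun m => hi.trans (he (Nat.zero_le m))
    let g : (ℕ → Finset V) → Cf n V → ℝ := fun v c =>
      ex (kap n S le i e l (v i) (v (e (l + 2))) (par le l c)) (fun b => f v (setl l b c))
    have hg : Dep i (e (l + 2)) g := by
      intro v v' hv
      simp only [g]
      rw [hf v v' hv, hv i (Or.inl le_rfl), hv (e (l + 2)) (Or.inr le_rfl)]
    have h1 : ∑ v ∈ S, ex (KK n S le i e (l + 1) v) (f v) = ∑ v ∈ S, ex (KK n S le i e l v) (g v) := by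
      apply Finset.sum_congr rfl
      intro v _
      simp only [KK, ex_bnd, ex_mp, g]
    rw [h1, ih g (hg.mono (he (by omega)))]
    have h2 := markov hS (i := i) (a := e (l + 1)) (b := e (l + 2)) (hie _) (he (by omega))
      (fun v y => ex (Lam n S le i e l (v i) y) (g v)) (by
        intro v v' hv
        simp only
        rw [hg v v' hv, hv i (Or.inl le_rfl)])
    rw [h2]
    apply Finset.sum_congr rfl
    intro v _
    rw [Lam_succ, ex_bnd, LT, ex_bnd]
    simp only [ex_mp]
    rfl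

lemma KK_markovT (hS : Closed S) (he : Monotone e) (hi : i ≤ e 0) (l : ℕ) {T : ℕ}
    (hT : e (l + 1) ≤ T) (f : (ℕ → Finset V) → Cf n V → ℝ) (hf : Dep i T f) :
    ∑ v ∈ S, ex (KK n S le i e l v) (f v)
      = ∑ v ∈ S, ex (LT S i (Lam n S le i e l) (e (l + 1)) T (v i) (v T)) (f v) := by
  have hie : ∀ m, i ≤ e m := fun m => hi.trans (he (Nat.zero_le m))
  rw [KK_markov hS he hi l f (hf.mono hT)]
  rw [markov hS (i := i) (a := e (l + 1)) (b := T) (hie _) hT
      (fun v y => ex (Lam n S le i e l (v i) y) (f v)) (by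
        intro v v' hv
        simp only
        rw [hf v v' hv, hv i (Or.inl le_rfl)])]
  apply Finset.sum_congr rfl
  intro v _
  rw [LT, ex_bnd]

lemma Lam_res (l : ℕ) {p y : Finset V} {c : Cf n V} (h : (Lam n S le i e l p y).w c ≠ 0) :
    res l c = c := by
  cases l with
  | zero =>
    obtain ⟨a, _, rfl⟩ := mp_supp h
    unfold res
    simp
  | succ l =>
    rw [Lam_succ] at h
    obtain ⟨c', _, h2⟩ := bnd_supp h
    obtain ⟨b, _, rfl⟩ := mp_supp h2
    exact res_setl' l b c'

lemma LT_res (l : ℕ) {a T : ℕ} {p y : Finset V} {c : Cf n V}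
    (h : (LT S i (Lam n S le i e l) a T p y).w c ≠ 0) : res l c = c := by
  obtain ⟨y', _, h2⟩ := bnd_supp h
  exact Lam_res l h2

lemma KK_res {j l : ℕ} (hjl : j ≤ l) (v : ℕ → Finset V) (f : Cf n V → ℝ) :
    ex (KK n S le i e l v) (fun c => f (res j c)) = ex (KK n S le i e j v) f := by
  induction l, hjl using Nat.le_induction with
  | base =>
    cases j with
    | zero =>
      apply ex_congr
      intro c hc
      rw [Lam_res 0 hc]
    | succ j =>
      simp only [KK, ex_bnd, ex_mp, res_setl']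
  | succ l hl ih =>
    simp only [KK, ex_bnd, ex_mp, res_setl l _ _ hl, ex_const]
    exact ih

lemma KK_atoms (l : ℕ) (v : ℕ → Finset V) (f : (Fin n → Finset V) → ℝ) :
    ex (KK n S le i e l v) (fun c => f c.1)
      = ex (iid n (Q S i (e 0) (e 1) (v i) (v (e 1)))) f := by
  have h := KK_res (S := S) (le := le) (i := i) (e := e) (Nat.zero_le l) v (fun c => f c.1)
  simp only [res] at h
  rw [h]
  simp only [KK, Lam, ex_mp]

section support

/-- The support property. -/
def Spt (S : Finset (ℕ → Finset V)) (le : ℕ → ℕ → Bool) (i : ℕ) (e : ℕ → ℕ) (l : ℕ)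
    (p y : Finset V) (c : Cf n V) : Prop :=
  (∀ k, (∃ v ∈ S, v i = p ∧ v (e 0) = c.1 k) ∧ c.1 k ⊆ y) ∧
  ∀ j : Fin n, (j : ℕ) < l → (∃ v ∈ S, v i = p ∧ v (e (j + 1)) = c.2 j) ∧ c.2 j ⊆ y ∧
    (∀ k : Fin n, le k j → c.1 k ⊆ c.2 j) ∧
    (∀ j' : Fin n, le j' j → j' ≠ j → c.2 j' ⊆ c.2 j)

lemma Lam_supp (hmono : ∀ v ∈ S, Monotone v) (he : Monotone e)
    (hle : ∀ a b, le a b → a ≤ b) (l : ℕ) :
    ∀ (p y : Finset V) (c : Cf n V), (∃ v ∈ S, v i = p ∧ v (e (l + 1)) = y) →
      (Lam n S le i e l p y).w c ≠ 0 → Spt S le i e l p y c := by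
  induction l with
  | zero =>
    intro p y c hval hc
    obtain ⟨a, ha, rfl⟩ := mp_supp hc
    refine ⟨?_, fun j hj => absurd hj (by omega)⟩
    intro k
    obtain ⟨v, hv, h1, h2, h3⟩ := Q_supp hval (iid_supp ha k)
    refine ⟨⟨v, hv, h1, h3⟩, ?_⟩
    simp only
    rw [← h3, ← h2]
    exact hmono v hv (he (by omega))
  | succ l ih =>
    intro p y' c' hval hc'
    rw [Lam_succ] at hc'
    obtain ⟨c, hc, hc2⟩ := bnd_supp hc'
    obtain ⟨b, hb, rfl⟩ := mp_supp hc2
    obtain ⟨y, hy, hcy⟩ := bnd_supp hc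
    obtain ⟨v, hv, hv1, hv2, hv3⟩ := Q_supp hval hy
    have hspt := ih p y c ⟨v, hv, hv1, hv3⟩ hcy
    have hyy' : y ⊆ y' := by
      rw [← hv2, ← hv3]; exact hmono v hv (he (by omega))
    -- the new set
    obtain ⟨⟨y2, c2⟩, hz, hbz⟩ := mp_supp hb
    simp only at hbz
    subst hbz
    have hJ := cnd_supp hz
    obtain ⟨y3, hy3, hc3⟩ := bnd_supp hJ
    obtain ⟨c3, hc3', heq⟩ := mp_supp hc3
    simp only [Prod.mk.injEq] at heq
    obtain ⟨rfl, rfl⟩ := heq
    obtain ⟨v2, hv2S, hv21, hv22, hv23⟩ := Q_supp hval hy3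
    have hspt2 := ih p b c2 ⟨v2, hv2S, hv21, hv23⟩ hc3'
    have hbsub : b ⊆ y' := by
      rw [← hv22, ← hv23]; exact hmono v2 hv2S (he (by omega))
    have hpar : par le l c2 = par le l c := by
      have h0 : (bnd (Q S i (e (l + 1)) (e (l + 2)) p y')
          (fun y => mp (fun c => (y, c)) (Lam n S le i e l p y))).w (y, c) ≠ 0 := by
        apply supp_bnd hy
        exact supp_mp (f := fun c => (y, c)) hcy
      exact cnd_supp' (c₀ := (y, c)) (g := fun z : Finset V × Cf n V => par le l z.2) h0 hz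
    have hpar1 : ∀ k : Fin n, le k l → c2.1 k = c.1 k := by
      intro k hk
      have := congrFun (congrArg Prod.fst hpar) k
      simpa [par, hk] using this
    have hpar2 : ∀ j : Fin n, le j l → (j : ℕ) ≠ l → c2.2 j = c.2 j := by
      intro j hj hjl
      have := congrFun (congrArg Prod.snd hpar) j
      simpa [par, hj, hjl] using this
    refine ⟨fun k => ⟨(hspt.1 k).1, ((hspt.1 k).2).trans hyy'⟩, ?_⟩
    intro j hj
    rcases Nat.lt_or_ge (j : ℕ) l with hjl | hjl
    · have h := hspt.2 j hjl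
      have hset : (setl l b c).2 j = c.2 j := by simp [setl, hjl]
      rw [hset]
      refine ⟨h.1, h.2.1.trans hyy', h.2.2.1, ?_⟩
      intro j' hj' hne
      have hj'l : (j' : ℕ) < l := lt_of_le_of_lt (hle _ _ hj') hjl
      have hset' : (setl l b c).2 j' = c.2 j' := by simp [setl, hj'l]
      rw [hset']
      exact h.2.2.2 j' hj' hne
    · have hjeq : (j : ℕ) = l := by omega
      have hset : (setl l b c).2 j = b := by simp [setl, hjeq]
      rw [hset, hjeq]
      refine ⟨⟨v2, hv2S, hv21, hv23⟩, hbsub, ?_, ?_⟩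
      · intro k hk
        change c.1 k ⊆ b
        rw [← hpar1 k hk]
        exact (hspt2.1 k).2
      · intro j' hj' hne
        have hj'ne : (j' : ℕ) ≠ l := fun h => hne (Fin.ext (h.trans hjeq.symm))
        have hj'l : (j' : ℕ) < l := lt_of_le_of_ne (hle _ _ hj') hj'ne
        have hset' : (setl l b c).2 j' = c.2 j' := by simp [setl, hj'l]
        rw [hset', ← hpar2 j' hj' hj'ne]
        exact (hspt2.2 j' hj'l).2.1

lemma LT_supp (hmono : ∀ v ∈ S, Monotone v) (he : Monotone e)
    (hle : ∀ a b, le a b → a ≤ b) (l : ℕ) {T : ℕ} (hT : e (l + 1) ≤ T) {p y : Finset V}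
    {c : Cf n V} (hval : ∃ v ∈ S, v i = p ∧ v T = y)
    (hc : (LT S i (Lam n S le i e l) (e (l + 1)) T p y).w c ≠ 0) : Spt S le i e l p y c := by
  obtain ⟨y', hy, hcy⟩ := bnd_supp hc
  obtain ⟨v, hv, hv1, hv2, hv3⟩ := Q_supp hval hy
  have hspt := Lam_supp hmono he hle l p y' c ⟨v, hv, hv1, hv3⟩ hcy
  have hyy' : y' ⊆ y := by
    rw [← hv2, ← hv3]; exact hmono v hv hT
  refine ⟨fun k => ⟨(hspt.1 k).1, (hspt.1 k).2.trans hyy'⟩, fun j hj => ?_⟩
  have h := hspt.2 j hj
  exact ⟨h.1, h.2.1.trans hyy', h.2.2⟩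

lemma KK_supp (l : ℕ) {v : ℕ → Finset V} (hv : v ∈ S) :
    ∀ c : Cf n V, (KK n S le i e l v).w c ≠ 0 →
      (Lam n S le i e l (v i) (v (e (l + 1)))).w c ≠ 0 := by
  induction l with
  | zero => intro c hc; exact hc
  | succ l ih =>
    intro c' hc'
    obtain ⟨c, hc, hc2⟩ := bnd_supp hc'
    rw [Lam_succ]
    exact supp_bnd (supp_bnd (supp_Q hv) (ih c hc)) hc2

end support

section indep

/-- Atoms are conditionally independent of the newly created set. -/
lemma cond_indep (htrans : ∀ a b c, le a b → le b c → le a c) (l : ℕ) (p y : Finset V)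
    (k : Fin n) (φ : Finset V → ℝ) (ψ : Cf n V → Cf n V → ℝ) :
    ex (Lam n S le i e (l + 1) p y) (fun c => φ (c.1 k) * ψ (rho le k (res l c)) (rho le k c))
      = ex (Lam n S le i e (l + 1) p y) (fun c =>
        ex (cnd (LT S i (Lam n S le i e l) (e (l + 1)) (e (l + 2)) p y) (rho le k)
          (rho le k (res l c))) (fun c' => φ (c'.1 k)) *
          ψ (rho le k (res l c)) (rho le k c)) := by
  set Λ := LT S i (Lam n S le i e l) (e (l + 1)) (e (l + 2)) p y with hΛ
  rw [Lam_succ, ← hΛ]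
  simp only [ex_bnd, ex_mp, res_setl l _ _ le_rfl]
  -- replace `res l c` by `c`
  have hcong : ∀ F : Cf n V → Cf n V → ℝ,
      ex Λ (fun c => F (res l c) c) = ex Λ (fun c => F c c) := by
    intro F
    apply ex_congr
    intro c hc
    rw [LT_res l hc]
  have key : ∃ Ψ : Cf n V → ℝ, ∀ (x : ℝ) (c : Cf n V), res l c = c →
      ex (kap n S le i e l p y (par le l c))
        (fun b => x * ψ (rho le k (res l c)) (rho le k (setl l b c))) = x * Ψ (rho le k c) := by
    by_cases hk : le k l
    · refine ⟨fun D => ψ D D, ?_⟩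
      intro x c hc
      have h1 : ∀ b, rho le k (setl l b c) = rho le k c := by
        intro b
        conv_rhs => rw [← hc]
        unfold rho setl res
        congr 1
        funext j
        dsimp only
        split_ifs with h1 h2 h3
        · rfl
        · rfl
        · rw [h3] at h1; exact absurd hk h1
        · rfl
      simp only [h1, hc, ex_const]
    · refine ⟨fun D => ex (kap n S le i e l p y (par le l D)) (fun b => ψ D (setl l b D)), ?_⟩
      intro x c hc
      have h1 : ∀ b, rho le k (setl l b c) = setl l b (rho le k c) := by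
        intro b
        unfold rho setl
        congr 1
        funext j
        dsimp only
        split_ifs with h1 h2 h3
        · rfl
        · rw [h3] at h1; exact absurd h1 hk
        · rfl
        · rfl
        · rfl
        · rfl
      have h2 : par le l (rho le k c) = par le l c := by
        unfold par rho
        congr 1
        · funext k'
          dsimp only
          split_ifs with h1 h2
          · rw [h2] at h1; exact absurd h1 hk
          · rfl
          · rfl
        · funext j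
          dsimp only
          split_ifs with h1 h2
          · exact absurd (htrans _ _ _ h2 h1.1) hk
          · rfl
          · rfl
      simp only [h1, h2, hc]
      rw [← ex_smul]
  obtain ⟨Ψ, hΨ⟩ := key
  have h3 : ex Λ (fun c => ex (kap n S le i e l p y (par le l c))
      (fun b => φ ((setl l b c).1 k) * ψ (rho le k (res l c)) (rho le k (setl l b c))))
      = ex Λ (fun c => φ (c.1 k) * Ψ (rho le k c)) := by
    apply ex_congr
    intro c hc
    exact hΨ (φ (c.1 k)) c (LT_res l hc)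
  rw [h3, tower]
  apply ex_congr
  intro c hc
  have hres := LT_res l hc
  rw [hΨ _ c hres, hres]

end indep

end Pool.Agent.Helper884_Full
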