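import Pool.Agent.Helper884_Full.Main

/-!
# The growth exponent vanishes
-/

set_option autoImplicit false
set_option linter.unusedSectionVars false

namespace Pool.Agent.Helper884_Full

open Finset
open Pool.Agent.Helper884_MultiScale (IsCh IsCh.coarse ent poly_le)
open Pool.Agent.Helper884_ChainCount (pigeon)

/-- From fixed profiles to all chains. -/
lemma all_of_profile {Φ : ∀ N : ℕ, Finset (Finset (Fin N)) → Prop} {K : ℕ} {c : ℝ}
    (h : ∃ D : ℝ, 0 < D ∧ ∀ (N : ℕ) (F : Finset (Finset (Fin N))), Φ N F →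
      ∀ (u w : Finset (Fin N)) (p : ℕ → ℕ),
        ((allCh F (2 ^ K) u w p).card : ℝ) ≤ D * 2 ^ ((c - 1) * ((w \ u).card : ℝ))) :
    BdP Φ (2 ^ K) c := by
  classical
  obtain ⟨D, hD, h⟩ := h
  set r : ℕ := 2 ^ K with hr
  have hrpos : 0 < r := Nat.pow_pos (by norm_num)
  refine ⟨(r : ℝ) ^ r * D, by positivity, ?_⟩
  intro N F hF u w S hS
  rcases S.eq_empty_or_nonempty with rfl | ⟨v₀, hv₀⟩
  · simp only [card_empty, Nat.cast_zero]; positivity
  set n := (w \ u).card with hn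
  let code : (ℕ → Finset (Fin N)) → (Fin r → ℕ) := fun v i => (v i).card - u.card
  have hcode : ∀ v ∈ S, code v ∈ Fintype.piFinset (fun _ : Fin r => range (n + 1)) := by
    intro v hv
    simp only [Fintype.mem_piFinset, mem_range, code]
    intro i
    have h1 := card_le_card (sdiff_subset_sdiff ((hS v hv).sub i) (Subset.refl u))
    rw [card_sdiff_of_subset ((hS v hv).sup i)] at h1
    omega
  obtain ⟨g, -, hcard1⟩ := pigeon S (Fintype.piFinset (fun _ : Fin r => range (n + 1))) code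
    hcode ⟨code v₀, hcode v₀ hv₀⟩
  set S' := S.filter (fun v => code v = g) with hS'
  have hS'S : ∀ v ∈ S', v ∈ S ∧ code v = g := fun v hv => mem_filter.1 hv
  have hcard1' : S.card ≤ (n + 1) ^ r * S'.card := by
    refine le_trans hcard1 (Nat.mul_le_mul_right _ (le_of_eq ?_))
    rw [Fintype.card_piFinset]
    simp
  let p : ℕ → ℕ := fun i => if h : i < r then g ⟨i, h⟩ + u.card else w.card
  have hsub : S' ⊆ allCh F r u w p := by
    intro v hv
    obtain ⟨hvS, hvg⟩ := hS'S v hv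
    rw [mem_allCh]
    refine ⟨hS v hvS, ?_⟩
    intro i
    simp only [p]
    split_ifs with h
    · rw [← hvg]
      simp only [code]
      have := card_le_card ((hS v hvS).sup i)
      omega
    · rw [(hS v hvS).2.2.1 i (by omega)]
  have e5 : (((n + 1) ^ r : ℕ) : ℝ) ≤ (r : ℝ) ^ r * 2 ^ ((1 : ℝ) * n) := by
    rw [one_mul, Real.rpow_natCast]
    exact_mod_cast poly_le hrpos n
  have hS'card : (S'.card : ℝ) ≤ D * 2 ^ ((c - 1) * (n : ℝ)) := by
    refine le_trans ?_ (h N F hF u w p)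
    exact_mod_cast card_le_card hsub
  calc (S.card : ℝ) ≤ (((n + 1) ^ r : ℕ) : ℝ) * (S'.card : ℝ) := by exact_mod_cast hcard1'
    _ ≤ ((r : ℝ) ^ r * 2 ^ ((1 : ℝ) * n)) * (D * 2 ^ ((c - 1) * (n : ℝ))) :=
        mul_le_mul e5 hS'card (Nat.cast_nonneg _) (by positivity)
    _ = (r : ℝ) ^ r * D * (2 ^ ((1 : ℝ) * n) * 2 ^ ((c - 1) * (n : ℝ))) := by ring
    _ = (r : ℝ) ^ r * D * 2 ^ (c * (n : ℝ)) := by
        rw [← Real.rpow_add (by norm_num)]
        congr 2; ring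

theorem lim_zero {n : ℕ} {le : ℕ → ℕ → Bool} (hn : 0 < n)
    (hle : ∀ a b, le a b → a ≤ b) (htrans : ∀ a b c, le a b → le b c → le a c)
    (hrefl : ∀ a, le a a) :
    (betaP_subadditive (fun _ F => NoCopy n le F)).lim = 0 := by
  set Φ : ∀ N : ℕ, Finset (Finset (Fin N)) → Prop := fun _ F => NoCopy n le F with hΦ
  have htend := (betaP_subadditive Φ).tendsto_lim (betaP_bdd Φ)
  set μ := (betaP_subadditive Φ).lim with hμdef
  have hμ0 : 0 ≤ μ :=
    ge_of_tendsto' htend (fun n => div_nonneg (betaP_nonneg Φ n) (Nat.cast_nonneg n))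
  by_contra hne
  have hμ : 0 < μ := lt_of_le_of_ne hμ0 (Ne.symm hne)
  have hnR : (1 : ℝ) ≤ n := by exact_mod_cast hn
  -- parameters
  set x : ℝ := (μ / 4) ^ n with hx
  have hxpos : 0 < x := by positivity
  obtain ⟨g, hg⟩ : ∃ g : ℕ, 4 * (n : ℝ) ^ 3 / x < g := exists_nat_gt _
  have hgR : 0 < (g : ℝ) := lt_of_le_of_lt (by positivity) hg
  have hgpos : 0 < g := by exact_mod_cast hgR
  obtain ⟨C2, hC2⟩ : ∃ C2 : ℕ, 4 * (n : ℝ) ^ 2 * (2 * n + 1) / x < C2 := exists_nat_gt _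
  have hC2' : 4 * (n : ℝ) ^ 2 * (2 * n + 1) / x < 2 ^ C2 := by
    have h1 : (C2 : ℝ) ≤ 2 ^ C2 := by exact_mod_cast (Nat.lt_two_pow_self (n := C2)).le
    linarith
  set Qm : ℕ := 1 + LL g n with hQm
  obtain ⟨B0, hB0⟩ : ∃ B0 : ℕ, 32 / μ ≤ B0 := exists_nat_ge _
  set B : ℕ := B0 + 2 with hB
  have hB2 : 2 ≤ B := by omega
  have hBμ : 32 ≤ (B : ℝ) * μ := by
    rw [div_le_iff₀ hμ] at hB0
    have : (B0 : ℝ) ≤ B := by exact_mod_cast (by omega : B0 ≤ B)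
    nlinarith
  have hBR : (0 : ℝ) < (B : ℝ) ^ (Qm + 1) := by positivity
  have hBR1 : (1 : ℝ) ≤ (B : ℝ) ^ (Qm + 1) := by
    apply one_le_pow₀
    exact_mod_cast (by omega : 1 ≤ B)
  set η : ℝ := μ / (16 * (1 + 2 * ((n : ℝ) * n))) with hη
  have hηpos : 0 < η := by positivity
  set ρ : ℝ := 128 * (n : ℝ) ^ 3 * (B : ℝ) ^ (Qm + 1) / (μ * η) with hρ
  have hρpos : 0 < ρ := by positivity
  obtain ⟨C1, hC1⟩ : ∃ C1 : ℕ, 8 * (n : ℝ) ^ 2 * (ρ + 1) / x < C1 := exists_nat_gt _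
  have hC1' : 8 * (n : ℝ) ^ 2 * (ρ + 1) / x < 2 ^ C1 := by
    have h1 : (C1 : ℝ) ≤ 2 ^ C1 := by exact_mod_cast (Nat.lt_two_pow_self (n := C1)).le
    linarith
  set E : ℕ := C1 + Qm * C2 with hE
  obtain ⟨m0, hm0⟩ : ∃ m0 : ℕ, 8 / μ ≤ m0 := exists_nat_ge _
  have hm0R : 0 < (m0 : ℝ) := lt_of_lt_of_le (by positivity) hm0
  have hm0pos : 0 < m0 := by exact_mod_cast hm0R
  have hm0μ : 8 ≤ (m0 : ℝ) * μ := by rwa [div_le_iff₀ hμ] at hm0
  set Γ : ℝ := 2 ^ E * (μ + 1) / η with hΓ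
  have hΓpos : 0 < Γ := by positivity
  obtain ⟨Y1, hY1⟩ : ∃ Y1 : ℕ, 2 * Γ * m0 ≤ Y1 := exists_nat_ge _
  set ε : ℝ := μ / (16 * (B : ℝ) ^ (Qm + 1)) with hε
  have hεpos : 0 < ε := by positivity
  obtain ⟨K₀, hK₀⟩ : ∃ K₀ : ℕ, ∀ K ≥ K₀, betaP Φ K / K < μ + ε := by
    have h1 := htend.eventually (gt_mem_nhds (show μ < μ + ε by linarith))
    exact Filter.eventually_atTop.1 h1
  obtain ⟨Λ, hΛ⟩ : ∃ Λ : ℕ, n * n + 1 ≤ 2 ^ Λ := ⟨n * n + 1, (Nat.lt_two_pow_self).le⟩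
  set y : ℕ := K₀ + Λ + 4 + Y1 with hy
  set L : ℕ := m0 * (2 * y) with hL
  have hLpos : 0 < L := Nat.mul_pos hm0pos (by omega)
  have hyL : 2 * y ≤ L := Nat.le_mul_of_pos_left _ hm0pos
  set K : ℕ := L * B ^ (Qm + 1) with hK
  have hKR : (K : ℝ) = L * (B : ℝ) ^ (Qm + 1) := by rw [hK]; push_cast; ring
  have hLR : (1 : ℝ) ≤ L := by exact_mod_cast hLpos
  have hK1 : 1 ≤ K := Nat.mul_pos hLpos (Nat.pow_pos (by omega))
  have hK1R : (1 : ℝ) ≤ K := by exact_mod_cast hK1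
  have hLreal : (L : ℝ) = m0 * (2 * y) := by rw [hL]; push_cast; ring
  have hμL : 2 * (y : ℝ) ≤ μ * L / 8 := by
    rw [hLreal]
    have hy0 : (0 : ℝ) ≤ y := Nat.cast_nonneg _
    nlinarith
  set ζ : ℝ := μ * L / (16 * ((n : ℝ) * n)) with hζ
  have hζ1 : 2 * n * (3 + K) / (ρ * η) ≤ ζ := by
    have h1 : ρ * η = 128 * (n : ℝ) ^ 3 * (B : ℝ) ^ (Qm + 1) / μ := by
      rw [hρ]; field_simp
    rw [h1, hζ, div_le_div_iff₀ (by positivity) (by positivity)]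
    have h2 : (3 : ℝ) + K ≤ 4 * K := by linarith
    calc 2 * (n : ℝ) * (3 + K) * (16 * ((n : ℝ) * n))
        ≤ 2 * (n : ℝ) * (4 * K) * (16 * ((n : ℝ) * n)) := by
          apply mul_le_mul_of_nonneg_right _ (by positivity)
          exact mul_le_mul_of_nonneg_left h2 (by positivity)
      _ = μ * L * (128 * (n : ℝ) ^ 3 * (B : ℝ) ^ (Qm + 1) / μ) := by
          rw [hKR]; field_simp; ring
  have hζ2 : n * n * ζ ≤ μ * L / 16 := by
    rw [hζ]
    apply le_of_eq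
    field_simp
  have hζ3 : ζ ≤ μ * L := by
    rw [hζ]
    apply div_le_self (by positivity)
    nlinarith
  obtain ⟨Cn, hCn⟩ : ∃ Cn : ℕ, ζ ≤ Cn := exists_nat_ge _
  have hτ : 2 ^ E * (ζ + 1) ≤ η * 2 ^ (2 * y) := by
    have h1 : 2 ^ E * (ζ + 1) ≤ 2 ^ E * ((μ + 1) * L) := by
      apply mul_le_mul_of_nonneg_left _ (by positivity)
      nlinarith
    have h2 : 2 ^ E * ((μ + 1) * L) = η * (Γ * L) := by
      rw [hΓ]; field_simp
    have h3 : Γ * L ≤ 2 ^ (2 * y) := by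
      have h4 : (y : ℝ) ≤ 2 ^ y := by exact_mod_cast (Nat.lt_two_pow_self (n := y)).le
      have h5 : (Y1 : ℝ) ≤ 2 ^ y := by
        have : Y1 ≤ y := by omega
        have h6 : (Y1 : ℝ) ≤ y := by exact_mod_cast this
        linarith
      calc Γ * L = (2 * Γ * m0) * y := by rw [hLreal]; ring
        _ ≤ 2 ^ y * 2 ^ y := mul_le_mul (hY1.trans h5) h4 (Nat.cast_nonneg _) (by positivity)
        _ = 2 ^ (2 * y) := by rw [← pow_add]; congr 1; omega
    calc 2 ^ E * (ζ + 1) ≤ η * (Γ * L) := h1.trans h2.le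
      _ ≤ η * 2 ^ (2 * y) := mul_le_mul_of_nonneg_left h3 hηpos.le
  have hΛ2 : (Λ : ℝ) + 4 ≤ μ * L / 8 := by
    have h1 : (Λ : ℝ) + 4 ≤ 2 * y := by exact_mod_cast (by omega : Λ + 4 ≤ 2 * y)
    linarith
  have hsmall : n * (n * ((n / g + 2 * n / 2 ^ C2) + 1 / 2 ^ C2) + n * ((ρ + 1) / 2 ^ C1)
      + n * ((ρ + 1) / 2 ^ C1)) < x := by
    have h1 : (n : ℝ) * n * (n / g) < x / 4 := by
      rw [div_lt_iff₀ hxpos] at hg
      have : (n : ℝ) * n * (n / g) = (n : ℝ) ^ 3 / g := by ring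
      rw [this, div_lt_div_iff₀ hgR (by norm_num)]
      linarith
    have h2 : (n : ℝ) * n * (2 * n / 2 ^ C2 + 1 / 2 ^ C2) < x / 4 := by
      rw [div_lt_iff₀ hxpos] at hC2'
      have : (n : ℝ) * n * (2 * n / 2 ^ C2 + 1 / 2 ^ C2) = (n : ℝ) ^ 2 * (2 * n + 1) / 2 ^ C2 := by
        ring
      rw [this, div_lt_div_iff₀ (by positivity) (by norm_num)]
      linarith
    have h3 : 2 * ((n : ℝ) * n * ((ρ + 1) / 2 ^ C1)) < x / 4 := by
      rw [div_lt_iff₀ hxpos] at hC1'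
      have : 2 * ((n : ℝ) * n * ((ρ + 1) / 2 ^ C1)) = 2 * (n : ℝ) ^ 2 * (ρ + 1) / 2 ^ C1 := by ring
      rw [this, div_lt_div_iff₀ (by positivity) (by norm_num)]
      linarith
    have h4 : n * (n * ((n / g + 2 * n / 2 ^ C2) + 1 / 2 ^ C2) + n * ((ρ + 1) / 2 ^ C1)
      + n * ((ρ + 1) / 2 ^ C1)) = (n : ℝ) * n * (n / g)
        + (n : ℝ) * n * (2 * n / 2 ^ C2 + 1 / 2 ^ C2)
        + 2 * ((n : ℝ) * n * ((ρ + 1) / 2 ^ C1)) := by ring
    rw [h4]; linarith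
  have htotal : BdP Φ (2 ^ K) (μ * K - 1) := by
    apply all_of_profile
    have h1 := profile_bound (n := n) (le := le) hn hle htrans hrefl hμ (g := g) (C1 := C1)
      (C2 := C2) (Qm := Qm) (B := B) (L := L) (K := K) (τ := 2 * y) (Cn := Cn) (Λ := Λ)
      (ρ := ρ) (η := η) (ζ := ζ) (ε := ε) hgpos hQm hB2 hBμ hLpos hK hηpos
      (by rw [hη]; apply le_of_eq; field_simp) hρpos hζ1 hζ2 hτ (by push_cast; exact hμL)
      hCn hΛ hΛ2 hεpos.le
      (by rw [hε, hKR]; apply le_of_eq; field_simp) hsmall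
      (by
        intro sw hsw
        apply BdP_of_beta_lt
        have h2 := hK₀ (K - sw) (by omega)
        rw [div_lt_iff₀] at h2
        · exact h2
        · have : 0 < K - sw := by omega
          exact_mod_cast this)
    obtain ⟨D, hD, h2⟩ := h1
    refine ⟨D, hD, ?_⟩
    intro N F hF u w p
    have h3 := h2 N F hF u w p
    have h4 : μ * K - 1 - 1 = μ * K - 2 := by ring
    rw [h4]
    exact h3
  have hnn : 0 ≤ μ * K - 1 := by
    have h1 : (L : ℝ) ≤ K := by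
      rw [hKR]; nlinarith
    have h2 : μ * L ≤ μ * K := mul_le_mul_of_nonneg_left h1 hμ.le
    have h3 : (0 : ℝ) ≤ Λ := Nat.cast_nonneg _
    linarith
  have h1 := betaP_le hnn htotal
  have h2 := (betaP_subadditive Φ).lim_le_div (betaP_bdd Φ) (n := K) (by omega)
  rw [← hμdef, le_div_iff₀ (by linarith)] at h2
  linarith

/-- **Vanishing exponent.** -/
theorem eventually_bdP {n : ℕ} {le : ℕ → ℕ → Bool} (hn : 0 < n)
    (hle : ∀ a b, le a b → a ≤ b) (htrans : ∀ a b c, le a b → le b c → le a c)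
    (hrefl : ∀ a, le a a) {ε : ℝ} (hε : 0 < ε) :
    ∃ K₀ : ℕ, ∀ K ≥ K₀, BdP (fun _ F => NoCopy n le F) (2 ^ K) (ε * K) := by
  set Φ : ∀ N : ℕ, Finset (Finset (Fin N)) → Prop := fun _ F => NoCopy n le F with hΦ
  have htend := (betaP_subadditive Φ).tendsto_lim (betaP_bdd Φ)
  have hz : (betaP_subadditive Φ).lim = 0 := lim_zero hn hle htrans hrefl
  rw [hz] at htend
  have h1 := htend.eventually (gt_mem_nhds hε)
  obtain ⟨K₀, hK₀⟩ := Filter.eventually_atTop.1 h1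
  refine ⟨K₀ + 1, fun K hK => ?_⟩
  have h2 := hK₀ K (by omega)
  rw [div_lt_iff₀ (by
    have : 0 < K := by omega
    exact_mod_cast this)] at h2
  exact BdP_of_beta_lt h2

end Pool.Agent.Helper884_Full
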