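import Pool.Agent.Helper884_Full.Struct

/-!
# Zones and the basic inequalities
-/

set_option autoImplicit false
set_option linter.unusedSectionVars false

namespace Pool.Agent.Helper884_Full

open Finset

open Classical in
/-- Indicator. -/
noncomputable def ind (P : Prop) : ℝ := if P then 1 else 0

lemma ind_true {P : Prop} (h : P) : ind P = 1 := by simp [ind, h]
lemma ind_false {P : Prop} (h : ¬ P) : ind P = 0 := by simp [ind, h]
lemma ind_nonneg (P : Prop) : 0 ≤ ind P := by unfold ind; split_ifs <;> norm_num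
lemma ind_le_one (P : Prop) : ind P ≤ 1 := by unfold ind; split_ifs <;> norm_num
lemma ind_and (P Q : Prop) : ind (P ∧ Q) = ind P * ind Q := by
  unfold ind; by_cases h1 : P <;> by_cases h2 : Q <;> simp [h1, h2]
lemma ind_mono {P Q : Prop} (h : P → Q) : ind P ≤ ind Q := by
  by_cases hP : P
  · rw [ind_true hP, ind_true (h hP)]
  · rw [ind_false hP]; exact ind_nonneg Q
lemma ind_congr {P Q : Prop} (h : P ↔ Q) : ind P = ind Q := by
  rw [propext h]

lemma card_eq_sum_ind {V : Type*} [Fintype V] (A : Finset V) :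
    (A.card : ℝ) = ∑ x, ind (x ∈ A) := by
  classical
  have h : ∀ x, ind (x ∈ A) = if x ∈ A then (1 : ℝ) else 0 := fun x => by
    unfold ind; split_ifs <;> rfl
  simp only [h]
  simp

variable {V : Type*} [Fintype V] [DecidableEq V] {n : ℕ}

/-- Conditional probability that `x` belongs to the atom `k`. -/
noncomputable def hz (Λ : FD (Cf n V)) (g : Cf n V → Cf n V) (k : Fin n) (D : Cf n V) (x : V) : ℝ :=
  ex (cnd Λ g D) (fun c => ind (x ∈ c.1 k))

open Classical in
/-- The zone: elements outside `p` with large conditional probability. -/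
noncomputable def zn (Λ : FD (Cf n V)) (g : Cf n V → Cf n V) (k : Fin n) (ϑ : ℝ) (p : Finset V)
    (D : Cf n V) : Finset V :=
  univ.filter (fun x => x ∉ p ∧ ϑ ≤ hz Λ g k D x)

lemma mem_zn {Λ : FD (Cf n V)} {g : Cf n V → Cf n V} {k : Fin n} {ϑ : ℝ} {p : Finset V}
    {D : Cf n V} {x : V} : x ∈ zn Λ g k ϑ p D ↔ x ∉ p ∧ ϑ ≤ hz Λ g k D x := by
  simp [zn]

lemma zn_card {Λ : FD (Cf n V)} {g : Cf n V → Cf n V} {k : Fin n} {ϑ : ℝ} {p : Finset V} {d : ℝ}
    (hd : ∀ c, Λ.w c ≠ 0 → ((c.1 k \ p).card : ℝ) ≤ d) (D : Cf n V) :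
    ϑ * (zn Λ g k ϑ p D).card ≤ d := by
  calc ϑ * (zn Λ g k ϑ p D).card = ∑ x ∈ zn Λ g k ϑ p D, ϑ := by simp [mul_comm]
    _ ≤ ∑ x ∈ zn Λ g k ϑ p D, hz Λ g k D x := sum_le_sum (fun x hx => (mem_zn.1 hx).2)
    _ = ex (cnd Λ g D) (fun c => ∑ x ∈ zn Λ g k ϑ p D, ind (x ∈ c.1 k)) := by
        rw [ex_sum]; rfl
    _ ≤ d := by
        apply ex_le_const
        intro c hc
        refine le_trans ?_ (hd c (cnd_supp hc))
        rw [card_eq_sum_ind]
        calc ∑ x ∈ zn Λ g k ϑ p D, ind (x ∈ c.1 k)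
            ≤ ∑ x ∈ zn Λ g k ϑ p D, ind (x ∈ c.1 k \ p) := by
              apply sum_le_sum
              intro x hx
              apply ind_mono
              intro h
              exact mem_sdiff.2 ⟨h, (mem_zn.1 hx).1⟩
          _ ≤ ∑ x, ind (x ∈ c.1 k \ p) :=
              Finset.sum_le_univ_sum_of_nonneg (fun x => ind_nonneg _)

variable {S : Finset (ℕ → Finset V)}

/-- Zones for longer horizons are almost contained in those for shorter ones. -/
lemma near_mono (hS : Closed S) {i a T T' : ℕ} (hia : i ≤ a) (haT : a ≤ T) (hTT : T ≤ T')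
    (Λ : Finset V → Finset V → FD (Cf n V)) (g : Cf n V → Cf n V) (k : Fin n) {ϑ ϑ' d : ℝ}
    (hϑ : 0 < ϑ) (hϑ' : 0 < ϑ')
    (hd : ∀ v ∈ S, ∀ c, (LT S i Λ a T' (v i) (v T')).w c ≠ 0 → ((c.1 k \ v i).card : ℝ) ≤ d) :
    ∑ v ∈ S, ex (Λ (v i) (v a)) (fun c => ∑ x, ind (x ∈ c.1 k ∧
        x ∉ zn (LT S i Λ a T (v i) (v T)) g k ϑ (v i) (g c) ∧
        x ∈ zn (LT S i Λ a T' (v i) (v T')) g k ϑ' (v i) (g c)))
      ≤ ϑ / ϑ' * d * S.card := by
  have h1 := markov hS (i := i) (a := a) (b := T) hia haT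
      (fun v y => ex (Λ (v i) y) (fun c => ∑ x, ind (x ∈ c.1 k ∧
        x ∉ zn (LT S i Λ a T (v i) (v T)) g k ϑ (v i) (g c) ∧
        x ∈ zn (LT S i Λ a T' (v i) (v T')) g k ϑ' (v i) (g c)))) (by
        intro v v' hv
        simp only
        rw [hv i (Or.inl le_rfl), hv T (Or.inr le_rfl), hv T' (Or.inr hTT)])
  rw [h1]
  calc _ ≤ ∑ v ∈ S, ϑ / ϑ' * d := by
        apply sum_le_sum
        intro v hv
        rw [← ex_bnd]
        change ex (LT S i Λ a T (v i) (v T)) _ ≤ _
        rw [ex_sum]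
        have h2 : ∀ x, ex (LT S i Λ a T (v i) (v T)) (fun c => ind (x ∈ c.1 k ∧
            x ∉ zn (LT S i Λ a T (v i) (v T)) g k ϑ (v i) (g c) ∧
            x ∈ zn (LT S i Λ a T' (v i) (v T')) g k ϑ' (v i) (g c)))
            ≤ ex (LT S i Λ a T (v i) (v T)) (fun c =>
              ϑ * ind (x ∈ zn (LT S i Λ a T' (v i) (v T')) g k ϑ' (v i) (g c))) := by
          intro x
          simp only [ind_and (x ∈ _)]
          rw [tower (LT S i Λ a T (v i) (v T)) g (fun c => ind (x ∈ c.1 k))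
            (fun D => ind (x ∉ zn (LT S i Λ a T (v i) (v T)) g k ϑ (v i) D ∧
            x ∈ zn (LT S i Λ a T' (v i) (v T')) g k ϑ' (v i) D))]
          apply ex_mono
          intro c _
          by_cases hx : x ∉ zn (LT S i Λ a T (v i) (v T)) g k ϑ (v i) (g c) ∧
            x ∈ zn (LT S i Λ a T' (v i) (v T')) g k ϑ' (v i) (g c)
          · rw [ind_true hx, ind_true hx.2, mul_one, mul_one]
            have h3 := (mem_zn.1 hx.2).1
            by_contra hlt
            push Not at hlt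
            exact hx.1 (mem_zn.2 ⟨h3, hlt.le⟩)
          · rw [ind_false hx, mul_zero]
            exact mul_nonneg hϑ.le (ind_nonneg _)
        refine le_trans (sum_le_sum (fun x _ => h2 x)) ?_
        rw [← ex_sum]
        apply ex_le_const
        intro c _
        rw [← Finset.mul_sum, ← card_eq_sum_ind]
        have h4 := zn_card (g := g) (ϑ := ϑ') (hd v hv) (g c)
        calc ϑ * ((zn (LT S i Λ a T' (v i) (v T')) g k ϑ' (v i) (g c)).card : ℝ)
            = ϑ / ϑ' * (ϑ' * (zn (LT S i Λ a T' (v i) (v T')) g k ϑ' (v i) (g c)).card) := by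
              field_simp
          _ ≤ ϑ / ϑ' * d := mul_le_mul_of_nonneg_left h4 (by positivity)
    _ = ϑ / ϑ' * d * S.card := by rw [sum_const, nsmul_eq_mul]; ring

/-- The constant map. -/
def cst : Cf n V → Cf n V := fun _ => (fun _ => ∅, fun _ => ∅)

/-- The kernel at level `j`, living at time `e j`. -/
noncomputable def ker (n : ℕ) (S : Finset (ℕ → Finset V)) (le : ℕ → ℕ → Bool) (i : ℕ)
    (e : ℕ → ℕ) : ℕ → Finset V → Finset V → FD (Cf n V)
  | 0 => fun _ y => dirac (fun _ => y, fun _ => ∅)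
  | l + 1 => Lam n S le i e l

/-- The conditioning map at level `j`. -/
def gg (le : ℕ → ℕ → Bool) (k : Fin n) : ℕ → Cf n V → Cf n V
  | 0 => cst
  | _ + 1 => rho le k

/-- The conditioning data at level `j` of a full configuration. -/
def DD (le : ℕ → ℕ → Bool) (k : Fin n) : ℕ → Cf n V → Cf n V
  | 0 => cst
  | l + 1 => fun c => rho le k (res l c)

/-- The zone of level `j` for the horizon `T`. -/
noncomputable def Zn (n : ℕ) (S : Finset (ℕ → Finset V)) (le : ℕ → ℕ → Bool) (i : ℕ)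
    (e : ℕ → ℕ) (k : Fin n) (j : ℕ) (ϑ : ℝ) (T : ℕ) (p y : Finset V) (D : Cf n V) : Finset V :=
  zn (LT S i (ker n S le i e j) (e j) T p y) (gg le k j) k ϑ p D

variable {le : ℕ → ℕ → Bool} {i : ℕ} {e : ℕ → ℕ}

lemma notMem_of_Zn {k : Fin n} {j : ℕ} {ϑ : ℝ} {T : ℕ} {p y : Finset V} {D : Cf n V} {x : V}
    (h : x ∈ Zn n S le i e k j ϑ T p y D) : x ∉ p := (mem_zn.1 h).1

/-- Sizes of atoms. -/
lemma ker_card (hmono : ∀ v ∈ S, Monotone v) (he : Monotone e) (hle : ∀ a b, le a b → a ≤ b)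
    {j T : ℕ} (hT : e j ≤ T) {d : ℝ} (hd : ∀ v ∈ S, ((v (e 0) \ v i).card : ℝ) ≤ d)
    {v : ℕ → Finset V} (hv : v ∈ S) (k : Fin n) (c : Cf n V)
    (hc : (LT S i (ker n S le i e j) (e j) T (v i) (v T)).w c ≠ 0) :
    ((c.1 k \ v i).card : ℝ) ≤ d := by
  cases j with
  | zero =>
    obtain ⟨y, hy, hcy⟩ := bnd_supp hc
    obtain ⟨v', hv', h1, h2, h3⟩ := Q_supp ⟨v, hv, rfl, rfl⟩ hy
    have h4 := dirac_supp hcy
    rw [h4]
    simp only
    rw [← h3, ← h1]
    exact hd v' hv'
  | succ l =>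
    have hspt := LT_supp hmono he hle l hT ⟨v, hv, rfl, rfl⟩ hc
    obtain ⟨⟨v', hv', h1, h2⟩, -⟩ := hspt.1 k
    rw [← h2, ← h1]
    exact hd v' hv'

lemma Zn_card (hmono : ∀ v ∈ S, Monotone v) (he : Monotone e) (hle : ∀ a b, le a b → a ≤ b)
    {j T : ℕ} (hT : e j ≤ T) {d : ℝ} (hd : ∀ v ∈ S, ((v (e 0) \ v i).card : ℝ) ≤ d)
    {v : ℕ → Finset V} (hv : v ∈ S) (k : Fin n) (ϑ : ℝ) (D : Cf n V) :
    ϑ * (Zn n S le i e k j ϑ T (v i) (v T) D).card ≤ d :=
  zn_card (ker_card hmono he hle hT hd hv k) D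

/-- Transfer of an expectation from the coupled law to the kernel of a level. -/
lemma KK_ker (hS : Closed S) (he : Monotone e) (hi : i ≤ e 0) (k : Fin n) {j N : ℕ} (hj : j ≤ N + 1)
    (f : (ℕ → Finset V) → Finset V → Cf n V → ℝ) (hf : Dep i (e j) f) (hf' : j = 0 → Dep i (e 1) f) :
    ∑ v ∈ S, ex (KK n S le i e N v) (fun c => f v (c.1 k) (DD le k j c))
      = ∑ v ∈ S, ex (ker n S le i e j (v i) (v (e j))) (fun c => f v (c.1 k) (gg le k j c)) := by
  cases j with
  | zero =>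
    have h1 : ∀ v, ex (KK n S le i e N v) (fun c => f v (c.1 k) (DD le k 0 c))
        = ex (Q S i (e 0) (e 1) (v i) (v (e 1))) (fun a => f v a (fun _ => ∅, fun _ => ∅)) := by
      intro v
      have h2 := KK_atoms (S := S) (le := le) (i := i) (e := e) (n := n) N v
        (fun a => f v (a k) (fun _ => ∅, fun _ => ∅))
      have h3 := ex_iid_coord (n := n) (Q S i (e 0) (e 1) (v i) (v (e 1))) k
        (fun a => f v a (fun _ => ∅, fun _ => ∅))
      rw [← h3, ← h2]
      rfl
    simp only [h1]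
    have h4 := markov hS (i := i) (a := e 0) (b := e 1) hi (he (by omega))
      (fun v y => f v y (fun _ => ∅, fun _ => ∅)) (by
        intro v v' hv
        simp only
        rw [hf' rfl v v' hv])
    rw [← h4]
    apply Finset.sum_congr rfl
    intro v _
    simp only [ker, ex_dirac, gg, cst]
  | succ l =>
    have h1 : ∀ v, ex (KK n S le i e N v) (fun c => f v (c.1 k) (DD le k (l + 1) c))
        = ex (KK n S le i e l v) (fun c => f v (c.1 k) (rho le k c)) := fun v =>
      KK_res (S := S) (le := le) (i := i) (e := e) (j := l) (l := N) (by omega) v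
        (fun c => f v (c.1 k) (rho le k c))
    simp only [h1]
    rw [KK_markov hS he hi l (fun v c => f v (c.1 k) (rho le k c)) (by
      intro v v' hv
      simp only
      rw [hf v v' hv])]
    rfl

/-- The amount of a level caught by the zones of horizon `T`. -/
noncomputable def caught (n : ℕ) (S : Finset (ℕ → Finset V)) (le : ℕ → ℕ → Bool) (i : ℕ)
    (e : ℕ → ℕ) (k : Fin n) (j : ℕ) (ϑ : ℝ) (T : ℕ) : ℝ :=
  ∑ v ∈ S, ex (ker n S le i e j (v i) (v (e j)))
    (fun c => ∑ x, ind (x ∈ c.1 k ∧ x ∈ Zn n S le i e k j ϑ T (v i) (v T) (gg le k j c)))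

/-- The escaping mass between two horizons. -/
lemma stab (hS : Closed S) (hmono : ∀ v ∈ S, Monotone v) (he : Monotone e) (hi : i ≤ e 0)
    (hle : ∀ a b, le a b → a ≤ b) (k : Fin n)
    {j T T' : ℕ} (hT : e j ≤ T) (hTT : T ≤ T') {ϑ ϑ' d : ℝ} (hϑ : 0 < ϑ) (hϑ' : 0 < ϑ')
    (hd : ∀ v ∈ S, ((v (e 0) \ v i).card : ℝ) ≤ d) :
    ∑ v ∈ S, ex (ker n S le i e j (v i) (v (e j))) (fun c => ∑ x, ind (x ∈ c.1 k ∧
        x ∈ Zn n S le i e k j ϑ T (v i) (v T) (gg le k j c) ∧
        x ∉ Zn n S le i e k j ϑ' T' (v i) (v T') (gg le k j c)))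
      ≤ caught n S le i e k j ϑ T - caught n S le i e k j ϑ' T' + ϑ / ϑ' * d * S.card := by
  have hie : ∀ m, i ≤ e m := fun m => hi.trans (he (Nat.zero_le m))
  have h1 := near_mono hS (i := i) (a := e j) (T := T) (T' := T') (hie j) hT hTT
    (ker n S le i e j) (gg le k j) k hϑ hϑ'
    (fun v hv c hc => ker_card hmono he hle (hT.trans hTT) hd hv k c hc)
  have h2 : ∑ v ∈ S, ex (ker n S le i e j (v i) (v (e j))) (fun c => ∑ x, ind (x ∈ c.1 k ∧
        x ∈ Zn n S le i e k j ϑ T (v i) (v T) (gg le k j c) ∧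
        x ∉ Zn n S le i e k j ϑ' T' (v i) (v T') (gg le k j c)))
      = caught n S le i e k j ϑ T - caught n S le i e k j ϑ' T' +
        ∑ v ∈ S, ex (ker n S le i e j (v i) (v (e j))) (fun c => ∑ x, ind (x ∈ c.1 k ∧
        x ∉ Zn n S le i e k j ϑ T (v i) (v T) (gg le k j c) ∧
        x ∈ Zn n S le i e k j ϑ' T' (v i) (v T') (gg le k j c))) := by
    unfold caught
    rw [← Finset.sum_sub_distrib, ← Finset.sum_add_distrib]
    apply Finset.sum_congr rfl
    intro v _
    rw [← ex_sub, ← ex_add]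
    apply ex_congr
    intro c _
    rw [← Finset.sum_sub_distrib, ← Finset.sum_add_distrib]
    apply Finset.sum_congr rfl
    intro x _
    by_cases ha : x ∈ c.1 k
    · by_cases hb : x ∈ Zn n S le i e k j ϑ T (v i) (v T) (gg le k j c)
      · by_cases hc : x ∈ Zn n S le i e k j ϑ' T' (v i) (v T') (gg le k j c)
        · simp [ind, ha, hb, hc]
        · simp [ind, ha, hb, hc]
      · by_cases hc : x ∈ Zn n S le i e k j ϑ' T' (v i) (v T') (gg le k j c)
        · simp [ind, ha, hb, hc]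
        · simp [ind, ha, hb, hc]
    · simp [ind, ha]
  rw [h2]
  have h3 : ∀ a b c : ℝ, b ≤ c → a + b ≤ a + c := fun a b c h => by linarith
  exact h3 _ _ _ h1

lemma cnd_cst {Λ : FD (Cf n V)} (c₀ : Cf n V) (f : Cf n V → ℝ) :
    ex (cnd Λ cst (cst c₀)) f = ex Λ f := by
  have h := tower Λ cst f (fun _ => 1)
  simp only [mul_one] at h
  rw [h]
  have : ∀ c : Cf n V, cst c = cst c₀ := fun c => rfl
  simp only [this, ex_const]

/-- One step from level `l` to level `l + 1`. -/
lemma step_ineq (htrans : ∀ a b c, le a b → le b c → le a c) (k : Fin n) (l : ℕ) {ϑ : ℝ}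
    (hϑ : 0 ≤ ϑ) (p y : Finset V) (x : V) (hx : x ∉ p) (ψ : Cf n V → ℝ) (hψ : ∀ D, 0 ≤ ψ D) :
    ex (Lam n S le i e l p y) (fun c => ind (x ∈ c.1 k) *
      (ind (x ∉ Zn n S le i e k l ϑ (e (l + 1)) p y (DD le k l c)) * ψ (rho le k c)))
      ≤ ϑ * ex (Lam n S le i e l p y) (fun c => ψ (rho le k c)) := by
  rw [← ex_smul]
  cases l with
  | zero =>
    simp only [DD]
    have h0 : ∀ c : Cf n V, (cst c : Cf n V) = cst (fun _ => ∅, fun _ => ∅) := fun c => rfl
    simp only [h0]
    by_cases hZ : x ∉ Zn n S le i e k 0 ϑ (e 1) p y (cst (fun _ => ∅, fun _ => ∅))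
    · simp only [ind_true hZ, one_mul]
      have h1 : ex (Q S i (e 0) (e 1) p y) (fun a => ind (x ∈ a)) ≤ ϑ := by
        by_contra hlt
        push Not at hlt
        apply hZ
        rw [Zn, mem_zn]
        refine ⟨hx, ?_⟩
        rw [hz, gg, cnd_cst, LT, ex_bnd]
        simp only [ker, ex_dirac]
        exact hlt.le
      simp only [Lam, ex_mp]
      rw [iid_resample _ k, iid_resample _ k (fun a => ϑ * _)]
      apply ex_mono
      intro a _
      simp only [Function.update_self]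
      have h2 : ∀ z, rho le k ((Function.update a k z, fun _ => ∅) : Cf n V)
          = rho le k ((a, fun _ => ∅) : Cf n V) := by
        intro z
        unfold rho
        congr 1
        funext k'
        dsimp only
        split_ifs with h
        · rfl
        · rw [Function.update_of_ne h]
      simp only [h2]
      rw [ex_mul_const, ex_const]
      exact mul_le_mul_of_nonneg_right h1 (hψ _)
    · simp only [ind_false hZ, zero_mul, mul_zero]
      rw [ex_const]
      apply ex_nonneg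
      intro c _
      exact mul_nonneg hϑ (hψ _)
  | succ l =>
    simp only [DD]
    have h1 := cond_indep (S := S) (i := i) (e := e) htrans l p y k (fun a => ind (x ∈ a))
      (fun D D' => ind (x ∉ Zn n S le i e k (l + 1) ϑ (e (l + 1 + 1)) p y D) * ψ D')
    rw [h1]
    apply ex_mono
    intro c _
    by_cases hZ : x ∉ Zn n S le i e k (l + 1) ϑ (e (l + 1 + 1)) p y (rho le k (res l c))
    · rw [ind_true hZ, one_mul]
      apply mul_le_mul_of_nonneg_right _ (hψ _)
      by_contra hlt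
      push Not at hlt
      apply hZ
      rw [Zn, mem_zn]
      exact ⟨hx, hlt.le⟩
    · rw [ind_false hZ, zero_mul, mul_zero]
      exact mul_nonneg hϑ (hψ _)

end Pool.Agent.Helper884_Full
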